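import Pool.Agent.TH864.ZO.ZM

/-!
# The maps `P(z ^ n) / Q(z ^ n)`: approximation for almost all exponents, final form
-/

set_option autoImplicit false

open Set Filter Topology
open scoped OnePoint

namespace Pool.Agent.TH864.ZO

open Pool.Agent.H762R2.Rt Pool.Agent.Helper114.Herman Pool.Agent.Helper114.Konig
open Pool.Agent.H462R2.AP

theorem not_ru_div {p q : ℂ} (h : ∀ k : ℕ, 0 < k → p ^ k ≠ q ^ k) : ¬ RU (p / q) := by
  rintro ⟨k, hk, h1⟩
  by_cases hq : q = 0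
  · rw [hq, div_zero, zero_pow hk.ne'] at h1
    exact zero_ne_one h1
  · rw [div_pow, div_eq_one_iff_eq (pow_ne_zero _ hq)] at h1
    exact h k hk h1

theorem expand_sc_natDegree {s : ℂ} (hs : s ≠ 0) (P : Polynomial ℂ) (n : ℕ) :
    (Polynomial.expand ℂ n (sc s P)).natDegree = P.natDegree * n := by
  rw [Polynomial.natDegree_expand, sc_natDegree hs]

/-- Approximation by hyperbolic maps for almost all exponents. -/
theorem almost_all2 {P Q : Polynomial ℂ} {D : ℕ} (hc : IsCoprime P Q)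
    (hD : D = max P.natDegree Q.natDegree) (hD1 : 0 < D)
    (hne : ∃ u : ℂ, ‖u‖ = 1 ∧ ‖P.eval u‖ ≠ ‖Q.eval u‖) :
    ∃ K : ℕ, ∃ S : Set ℕ, (∀ L : ℕ, ∃ N₀ : ℕ, ∀ N, N₀ ≤ N →
        (S ∩ Set.Ico N (N + L)).ncard ≤ K) ∧
      ∀ n, n ∉ S → ∀ f : OnePoint ℂ → OnePoint ℂ, Continuous f →
        (∀ z : ℂ, Q.eval (z ^ n) ≠ 0 →
          f (z : OnePoint ℂ) = ((P.eval (z ^ n) / Q.eval (z ^ n) : ℂ) : OnePoint ℂ)) →
        (Sinks f ((0 : ℂ) : OnePoint ℂ) ∨ ∀ k : ℕ, 0 < k → P.coeff 0 ^ k ≠ Q.coeff 0 ^ k) →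
        (Sinks f ∞ ∨ ∀ k : ℕ, 0 < k → P.coeff D ^ k ≠ Q.coeff D ^ k) →
        ∀ ε : ℝ, 0 < ε → ∃ s : ℂ, s ≠ 0 ∧ ‖s - 1‖ < ε ∧
          (∀ i, ‖(Polynomial.expand ℂ n (sc s P)).coeff i -
            (Polynomial.expand ℂ n P).coeff i‖ < ε ∧
            ‖(Polynomial.expand ℂ n (sc s Q)).coeff i -
            (Polynomial.expand ℂ n Q).coeff i‖ < ε) ∧
          Hyp (Polynomial.expand ℂ n (sc s P)) (Polynomial.expand ℂ n (sc s Q)) := by
  obtain ⟨C, hC, n₀, hn₀, h4⟩ := main2 hc hD hD1 hne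
  obtain ⟨K, hK⟩ := exc_window (D := D) hc (hD ▸ hD1) hne
  refine ⟨K, Set.Iio n₀ ∪ {n : ℕ | Exc P Q D (C * (Real.log n / n)) n}, fun L => ?_, ?_⟩
  · obtain ⟨N₀, hN₀⟩ := hK C L
    refine ⟨max N₀ n₀, fun N hN => ?_⟩
    refine le_trans (Set.ncard_le_ncard ?_ ((Set.finite_Ico _ _).subset Set.inter_subset_right))
      (hN₀ N (le_of_max_le_left hN))
    rintro n ⟨h1 | h1, h2⟩
    · exfalso
      have := le_of_max_le_right hN
      have := h2.1
      have : n < n₀ := h1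
      omega
    · exact ⟨h1, h2⟩
  · intro n hn f hfc hfe hs0 hsi ε hε
    have hn1 : n₀ ≤ n := by
      by_contra hlt
      exact hn (Or.inl (not_le.1 hlt))
    have hn2 : ¬ Exc P Q D (C * (Real.log n / n)) n := fun h => hn (Or.inr h)
    have hnpos : 0 < n := by omega
    have hf : IsM P Q n 1 f := by
      refine ⟨hfc, ?_, ?_, ?_⟩
      · rw [sc_one, sc_one]; exact hc.map _
      · rw [sc_one]; exact (Polynomial.expand_ne_zero hnpos).2 (Q_ne hc hD hD1)
      · intro z hz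
        rw [sc_one, Polynomial.expand_eval] at hz
        rw [sc_one, sc_one, Polynomial.expand_eval, Polynomial.expand_eval]
        exact hfe z hz
    have hcen : ∀ i : Bool, Sinks f (ch i 0) ∨
        ¬ RU ((cp D P i).eval 0 / (cp D Q i).eval 0) := by
      intro i
      cases i
      · rw [ch_false, cp_false, cp_false, ← Polynomial.coeff_zero_eq_eval_zero,
          ← Polynomial.coeff_zero_eq_eval_zero]
        exact hs0.imp_right not_ru_div
      · have : ch true 0 = ∞ := by simp [ch_true, sinv_zero]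
        rw [this, eval_cp_true_zero, eval_cp_true_zero]
        exact hsi.imp_right not_ru_div
    obtain ⟨δ, hδ, hcl⟩ := Metric.eventually_nhds_iff.1
      ((coeff_close P n hε).and (coeff_close Q n hε))
    obtain ⟨s, hs1, hs2, hs3⟩ := h4 n hn1 hn2 f hf hcen (min ε δ) (lt_min hε hδ)
    have hs4 := hcl (y := s) (by rw [dist_eq_norm]; exact hs1.trans_le (min_le_right _ _))
    exact ⟨s, hs2, hs1.trans_le (min_le_left _ _), fun i => ⟨hs4.1 i, hs4.2 i⟩, hs3⟩

end Pool.Agent.TH864.ZO
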