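import Pool.Agent.TH864.ZO.ZK

/-!
# The maps `P(z ^ n) / Q(z ^ n)`: final forms
-/

set_option autoImplicit false

open Set Filter Topology
open scoped OnePoint

namespace Pool.Agent.TH864.ZO

open Pool.Agent.H762R2.Rt Pool.Agent.Helper114.Herman Pool.Agent.Helper114.Konig
open Pool.Agent.H462R2.AP

/-- The zero-one law with densities. -/
theorem zero_one {P Q : Polynomial ℂ} {D : ℕ} (hc : IsCoprime P Q)
    (hD : D = max P.natDegree Q.natDegree) (hD1 : 0 < D)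
    (hne : ∃ u : ℂ, ‖u‖ = 1 ∧ ‖P.eval u‖ ≠ ‖Q.eval u‖) :
    ∃ M K n₀ : ℕ, ∃ C : ℝ, 0 < M ∧
      (∀ n m : ℕ, n ≡ m [MOD M] → (Res P Q D n ↔ Res P Q D m)) ∧
      (∀ n, n₀ ≤ n → Res P Q D n →
        ¬ Hyp (Polynomial.expand ℂ n P) (Polynomial.expand ℂ n Q)) ∧
      (∀ n, n₀ ≤ n → ¬ Res P Q D n → ¬ Exc P Q D (C * (Real.log n / n)) n →
        Hyp (Polynomial.expand ℂ n P) (Polynomial.expand ℂ n Q)) ∧
      (∀ L : ℕ, ∃ N₀ : ℕ, ∀ N, N₀ ≤ N →
        ({n : ℕ | Exc P Q D (C * (Real.log n / n)) n} ∩ Set.Ico N (N + L)).ncard ≤ K) ∧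
      Tendsto (fun N : ℕ => (({n : ℕ | Hyp (Polynomial.expand ℂ n P)
        (Polynomial.expand ℂ n Q)} ∩ Set.Iio N).ncard : ℝ) / N) atTop
        (𝓝 (({a | a < M ∧ ¬ Res P Q D a}.ncard : ℝ) / M)) := by
  obtain ⟨M, hM, C, hC, n₀, hn₀, h1, h2, h3, -⟩ := main hc hD hD1 hne
  obtain ⟨K, hK⟩ := exc_window (D := D) hc (hD ▸ hD1) hne
  refine ⟨M, K, n₀, C, hM, h1, h2, h3, hK C, ?_⟩
  refine density_periodic hM (p := fun n => ¬ Res P Q D n)
    (S := {n : ℕ | Exc P Q D (C * (Real.log n / n)) n}) (n₀ := n₀)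
    (fun n m h => not_congr (h1 n m h)) (density_of_window (hK C)) ?_
  intro n hn hS
  constructor
  · intro h4 h5
    exact h2 n hn h5 h4
  · intro h4
    exact h3 n hn h4 hS

theorem coeff_close (P : Polynomial ℂ) (n : ℕ) {ε : ℝ} (hε : 0 < ε) :
    ∀ᶠ s in 𝓝 (1 : ℂ), ∀ i, ‖(Polynomial.expand ℂ n (sc s P)).coeff i -
      (Polynomial.expand ℂ n P).coeff i‖ < ε := by
  have h0 : ∀ᶠ s in 𝓝 (1 : ℂ), ∀ k ∈ Finset.range (P.natDegree + 1),
      ‖P.coeff k * s ^ k - P.coeff k‖ < ε := by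
    rw [Filter.eventually_all_finset]
    intro k _
    have hc : Continuous fun s : ℂ => ‖P.coeff k * s ^ k - P.coeff k‖ := by fun_prop
    have h1 := hc.tendsto 1
    simp only [one_pow, mul_one, sub_self, norm_zero] at h1
    exact h1.eventually_lt_const hε
  have h1 : ∀ᶠ s in 𝓝 (1 : ℂ), ‖(sc s P).eval 1 - P.eval 1‖ < ε := by
    have hc : Continuous fun s : ℂ => ‖(sc s P).eval 1 - P.eval 1‖ := by
      simp only [sc_eval]; fun_prop
    have h1 := hc.tendsto 1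
    rw [sc_one, sub_self, norm_zero] at h1
    exact h1.eventually_lt_const hε
  filter_upwards [h0, h1] with s hs hs1 i
  rcases Nat.eq_zero_or_pos n with hn | hn
  · subst hn
    rw [Polynomial.expand_zero, Polynomial.expand_zero, Polynomial.coeff_C,
      Polynomial.coeff_C]
    split_ifs
    · exact hs1
    · simpa using hε
  · rw [Polynomial.coeff_expand hn, Polynomial.coeff_expand hn]
    split_ifs with hd
    · rw [sc_coeff]
      by_cases hk : i / n ∈ Finset.range (P.natDegree + 1)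
      · exact hs _ hk
      · rw [Finset.mem_range, not_lt] at hk
        rw [Polynomial.coeff_eq_zero_of_natDegree_lt (by omega)]
        simpa using hε
    · simpa using hε

/-- Approximation by hyperbolic maps for almost all exponents. -/
theorem almost_all {P Q : Polynomial ℂ} {D : ℕ} (hc : IsCoprime P Q)
    (hD : D = max P.natDegree Q.natDegree) (hD1 : 0 < D)
    (hne : ∃ u : ℂ, ‖u‖ = 1 ∧ ‖P.eval u‖ ≠ ‖Q.eval u‖) :
    ∃ K : ℕ, ∃ S : Set ℕ, (∀ L : ℕ, ∃ N₀ : ℕ, ∀ N, N₀ ≤ N →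
        (S ∩ Set.Ico N (N + L)).ncard ≤ K) ∧
      ∀ n, n ∉ S → ∀ f : OnePoint ℂ → OnePoint ℂ, Continuous f →
        (∀ z : ℂ, Q.eval (z ^ n) ≠ 0 →
          f (z : OnePoint ℂ) = ((P.eval (z ^ n) / Q.eval (z ^ n) : ℂ) : OnePoint ℂ)) →
        Sinks f ((0 : ℂ) : OnePoint ℂ) → Sinks f ∞ →
        ∀ ε : ℝ, 0 < ε → ∃ s : ℂ, s ≠ 0 ∧ ‖s - 1‖ < ε ∧
          (∀ i, ‖(Polynomial.expand ℂ n (sc s P)).coeff i -
            (Polynomial.expand ℂ n P).coeff i‖ < ε ∧
            ‖(Polynomial.expand ℂ n (sc s Q)).coeff i -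
            (Polynomial.expand ℂ n Q).coeff i‖ < ε) ∧
          Hyp (Polynomial.expand ℂ n (sc s P)) (Polynomial.expand ℂ n (sc s Q)) := by
  obtain ⟨M, hM, C, hC, n₀, hn₀, -, -, -, h4⟩ := main hc hD hD1 hne
  obtain ⟨K, hK⟩ := exc_window (D := D) hc (hD ▸ hD1) hne
  refine ⟨K, Set.Iio n₀ ∪ {n : ℕ | Exc P Q D (C * (Real.log n / n)) n}, fun L => ?_, ?_⟩
  · obtain ⟨N₀, hN₀⟩ := hK C L
    refine ⟨max N₀ n₀, fun N hN => ?_⟩
    refine le_trans (Set.ncard_le_ncard ?_ ((Set.finite_Ico _ _).subset Set.inter_subset_right))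
      (hN₀ N (le_of_max_le_left hN))
    rintro n ⟨h1 | h1, h2⟩
    · exfalso
      have := le_of_max_le_right hN
      have := h2.1
      have : n < n₀ := h1
      omega
    · exact ⟨h1, h2⟩
  · intro n hn f hfc hfe hs0 hsi ε hε
    have hn1 : n₀ ≤ n := by
      by_contra hlt
      exact hn (Or.inl (not_le.1 hlt))
    have hn2 : ¬ Exc P Q D (C * (Real.log n / n)) n := fun h => hn (Or.inr h)
    have hnpos : 0 < n := by omega
    have hf : IsM P Q n 1 f := by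
      refine ⟨hfc, ?_, ?_, ?_⟩
      · rw [sc_one, sc_one]; exact hc.map _
      · rw [sc_one]; exact (Polynomial.expand_ne_zero hnpos).2 (Q_ne hc hD hD1)
      · intro z hz
        rw [sc_one, Polynomial.expand_eval] at hz
        rw [sc_one, sc_one, Polynomial.expand_eval, Polynomial.expand_eval]
        exact hfe z hz
    obtain ⟨δ, hδ, hcl⟩ := Metric.eventually_nhds_iff.1
      ((coeff_close P n hε).and (coeff_close Q n hε))
    obtain ⟨s, hs1, hs2, hs3⟩ := h4 n hn1 hn2 f hf hs0 hsi (min ε δ) (lt_min hε hδ)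
    have hs4 := hcl (y := s) (by rw [dist_eq_norm]; exact hs1.trans_le (min_le_right _ _))
    exact ⟨s, hs2, hs1.trans_le (min_le_left _ _), fun i => ⟨hs4.1 i, hs4.2 i⟩, hs3⟩

end Pool.Agent.TH864.ZO
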