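import Pool.Agent.H462R2.AP3

/-!
# The maps `P(s z ^ n) / Q(s z ^ n)`
-/

set_option autoImplicit false

open Set Filter Topology
open scoped OnePoint

namespace Pool.Agent.TH864.ZO

open Pool.Agent.H762R2.Rt Pool.Agent.Helper114.Herman Pool.Agent.Helper114.Konig
open Pool.Agent.H462R2.AP

/-- The polynomial `P (s z)`. -/
noncomputable def sc (s : ℂ) (P : Polynomial ℂ) : Polynomial ℂ :=
  P.comp (Polynomial.C s * Polynomial.X)

theorem sc_eval (s : ℂ) (P : Polynomial ℂ) (y : ℂ) : (sc s P).eval y = P.eval (s * y) := by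
  simp [sc, Polynomial.eval_comp]

theorem sc_coeff (s : ℂ) (P : Polynomial ℂ) (k : ℕ) : (sc s P).coeff k = P.coeff k * s ^ k := by
  rw [sc, Polynomial.comp_C_mul_X_coeff]

theorem sc_natDegree {s : ℂ} (hs : s ≠ 0) (P : Polynomial ℂ) :
    (sc s P).natDegree = P.natDegree := by
  rw [sc, Polynomial.natDegree_comp, Polynomial.natDegree_C_mul_X s hs, mul_one]

theorem sc_coprime {P Q : Polynomial ℂ} (hc : IsCoprime P Q) (s : ℂ) :
    IsCoprime (sc s P) (sc s Q) := by
  have := hc.map (Polynomial.compRingHom (Polynomial.C s * Polynomial.X))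
  simpa [sc] using this

theorem sc_wro (s : ℂ) (P Q : Polynomial ℂ) (y : ℂ) :
    (wro (sc s P) (sc s Q)).eval y = s * (wro P Q).eval (s * y) := by
  simp only [wro, sc, Polynomial.derivative_comp, Polynomial.eval_sub, Polynomial.eval_mul,
    Polynomial.eval_comp, Polynomial.eval_C, Polynomial.eval_X, Polynomial.derivative_C_mul,
    Polynomial.derivative_X, Polynomial.eval_one]
  ring

theorem sc_one (P : Polynomial ℂ) : sc 1 P = P := by
  simp [sc]

/-- `s` or `1 / s` according to the chart. -/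
noncomputable def sg (i : Bool) (s : ℂ) : ℂ := if i then s⁻¹ else s

theorem eval_cp_sc {s : ℂ} (hs : s ≠ 0) (D : ℕ) (P : Polynomial ℂ) (y : ℂ) :
    (cp D (sc s P) true).eval y = s ^ D * (cp D P true).eval (s⁻¹ * y) := by
  rw [eval_cp_true, eval_cp_true]
  unfold hom
  rw [Finset.mul_sum]
  refine Finset.sum_congr rfl fun k hk => ?_
  have hk' : k ≤ D := Nat.lt_succ_iff.1 (Finset.mem_range.1 hk)
  have h1 : s ^ D = s ^ k * s ^ (D - k) := by rw [← pow_add]; congr 1; omega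
  rw [sc_coeff, mul_pow, h1, inv_pow]
  have h2 : s ^ (D - k) ≠ 0 := pow_ne_zero _ hs
  field_simp

/-- `f` is the map `z ↦ R (s z ^ n)` of the sphere, `R = P / Q`. -/
def IsM (P Q : Polynomial ℂ) (n : ℕ) (s : ℂ) (f : OnePoint ℂ → OnePoint ℂ) : Prop :=
  IsRat f (Polynomial.expand ℂ n (sc s P)) (Polynomial.expand ℂ n (sc s Q))

theorem map_ch' {P Q : Polynomial ℂ} {D n : ℕ} (hD : D = max P.natDegree Q.natDegree)
    (hD1 : 0 < D) (hn : 0 < n) {s : ℂ} (hs : s ≠ 0) {f : OnePoint ℂ → OnePoint ℂ}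
    (hf : IsM P Q n s f) (i : Bool) (x : ℂ) :
    f (ch i x) = pr ((cp D P i).eval (sg i s * x ^ n)) ((cp D Q i).eval (sg i s * x ^ n)) := by
  have hD' : D = max (sc s P).natDegree (sc s Q).natDegree := by
    rw [sc_natDegree hs, sc_natDegree hs]; exact hD
  have h := map_ch hD' hD1 hn hf i x
  rw [h]
  cases i
  · rw [cp_false, cp_false, cp_false, cp_false, sc_eval, sc_eval]
    simp [sg]
  · rw [eval_cp_sc hs, eval_cp_sc hs, pr_smul (pow_ne_zero _ hs)]
    simp [sg]

theorem map_pl {P Q : Polynomial ℂ} {D n : ℕ} (hD : D = max P.natDegree Q.natDegree)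
    (hD1 : 0 < D) (hn : 0 < n) {s : ℂ} (hs : s ≠ 0) {f : OnePoint ℂ → OnePoint ℂ}
    (hf : IsM P Q n s f) (x : ℂ) :
    f (x : OnePoint ℂ) = pr (P.eval (s * x ^ n)) (Q.eval (s * x ^ n)) := by
  have h := map_ch' hD hD1 hn hs hf false x
  rw [ch_false, cp_false, cp_false] at h
  simpa [sg] using h

/-- The map `y ↦ R (s y ^ n)` in the plane. -/
noncomputable def st (P Q : Polynomial ℂ) (n : ℕ) (s y : ℂ) : ℂ :=
  P.eval (s * y ^ n) / Q.eval (s * y ^ n)

theorem map_st {P Q : Polynomial ℂ} {D n : ℕ} (hD : D = max P.natDegree Q.natDegree)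
    (hD1 : 0 < D) (hn : 0 < n) {s : ℂ} (hs : s ≠ 0) {f : OnePoint ℂ → OnePoint ℂ}
    (hf : IsM P Q n s f) {x : ℂ} (hx : Q.eval (s * x ^ n) ≠ 0) :
    f (x : OnePoint ℂ) = (st P Q n s x : ℂ) := by
  rw [map_pl hD hD1 hn hs hf, pr_ne hx]; rfl

theorem Q_ne {P Q : Polynomial ℂ} (hc : IsCoprime P Q) {D : ℕ}
    (hD : D = max P.natDegree Q.natDegree) (hD1 : 0 < D) : Q ≠ 0 := by
  rintro rfl
  have h2 : IsUnit P := isCoprime_zero_right.1 hc
  have h3 : P.natDegree = 0 := Polynomial.natDegree_eq_zero_of_isUnit h2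
  rw [h3] at hD
  simp at hD
  omega

theorem exists_isM {P Q : Polynomial ℂ} (hc : IsCoprime P Q) {D : ℕ}
    (hD : D = max P.natDegree Q.natDegree) (hD1 : 0 < D) {n : ℕ} (hn : 0 < n) {s : ℂ}
    (hs : s ≠ 0) : ∃ f, IsM P Q n s f := by
  have hcop : IsCoprime (Polynomial.expand ℂ n (sc s P)) (Polynomial.expand ℂ n (sc s Q)) :=
    (sc_coprime hc s).map _
  have hQ0 : sc s Q ≠ 0 := by
    have hD' : D = max (sc s P).natDegree (sc s Q).natDegree := by
      rw [sc_natDegree hs, sc_natDegree hs]; exact hD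
    exact Q_ne (sc_coprime hc s) hD' hD1
  obtain ⟨f, hf, -⟩ := exists_isRat hcop ((Polynomial.expand_ne_zero hn).2 hQ0)
  exact ⟨f, hf⟩

/-- Hyperbolicity when `0`, `∞` and the other critical values are attracted. -/
theorem hyp_of_sinks {P Q : Polynomial ℂ} {D : ℕ}
    (hD : D = max P.natDegree Q.natDegree) (hD1 : 0 < D) {n : ℕ} (hn0 : 0 < n)
    {f : OnePoint ℂ → OnePoint ℂ}
    (hf : IsRat f (Polynomial.expand ℂ n P) (Polynomial.expand ℂ n Q))
    (h0 : Sinks f ((0 : ℂ) : OnePoint ℂ)) (hinf : Sinks f ∞)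
    (hcrit : ∀ y : ℂ, (wro P Q).eval y = 0 → Q.eval y ≠ 0 →
      Sinks f (pr (P.eval y) (Q.eval y))) :
    Hyp (Polynomial.expand ℂ n P) (Polynomial.expand ℂ n Q) := by
  refine ⟨hf.cop, f, hf.cont, hf.eval, ?_⟩
  have hfψ := map_ch hD hD1 hn0 hf
  intro c hnot
  induction c using OnePoint.rec with
  | infty => exact hinf
  | coe z =>
    by_cases hz : z = 0
    · subst hz
      exact h0
    have hfz : f (z : OnePoint ℂ) = pr (P.eval (z ^ n)) (Q.eval (z ^ n)) := by
      have h4 := hfψ false z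
      rw [cp_false, cp_false, ch_false] at h4
      exact h4
    by_cases hq : Q.eval (z ^ n) = 0
    · apply sinks_of_image hf.cont
      rw [hfz, hq, pr_zero]
      exact hinf
    by_cases hW : (wro P Q).eval (z ^ n) = 0
    · apply sinks_of_image hf.cont
      rw [hfz]
      exact hcrit _ hW hq
    · exfalso
      apply hnot
      set P' := Polynomial.expand ℂ n P with hP'
      set Q' := Polynomial.expand ℂ n Q with hQ'
      have hQ'z : Q'.eval z ≠ 0 := by rwa [hQ', Polynomial.expand_eval]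
      have hder := (P'.hasStrictDerivAt z).fun_div (Q'.hasStrictDerivAt z) hQ'z
      have hne : (P'.derivative.eval z * Q'.eval z - P'.eval z * Q'.derivative.eval z) /
          (Q'.eval z) ^ 2 ≠ 0 := by
        apply div_ne_zero _ (pow_ne_zero _ hQ'z)
        have e1 : P'.derivative.eval z * Q'.eval z - P'.eval z * Q'.derivative.eval z =
            (n * z ^ (n - 1)) * (wro P Q).eval (z ^ n) := by
          rw [hP', hQ', Polynomial.derivative_expand,
            Polynomial.derivative_expand, wro]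
          simp only [Polynomial.eval_mul, Polynomial.expand_eval,
            Polynomial.eval_sub, Polynomial.eval_pow, Polynomial.eval_X, Polynomial.eval_natCast]
          ring
        rw [e1]
        have hnc : (n : ℂ) ≠ 0 := by exact_mod_cast hn0.ne'
        exact mul_ne_zero (mul_ne_zero hnc (pow_ne_zero _ hz)) hW
      obtain ⟨U, hU, hinj⟩ := injOn_of_deriv hder hne
      have hUQ : {x : ℂ | Q'.eval x ≠ 0} ∈ 𝓝 z :=
        (isOpen_ne_fun Q'.continuous continuous_const).mem_nhds hQ'z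
      refine ⟨(fun x : ℂ => (x : OnePoint ℂ)) '' (U ∩ {x : ℂ | Q'.eval x ≠ 0}), ?_, ?_⟩
      · exact (OnePoint.isOpenEmbedding_coe (X := ℂ)).isOpenMap.image_mem_nhds
          (inter_mem hU hUQ)
      · rintro _ ⟨x, ⟨hx, hxQ⟩, rfl⟩ _ ⟨y, ⟨hy, hyQ⟩, rfl⟩ hxy
        simp only at hxy
        rw [hf.eval x hxQ, hf.eval y hyQ, OnePoint.coe_eq_coe] at hxy
        rw [hinj hx hy hxy]

/-- The version for `P (s z ^ n) / Q (s z ^ n)`. -/
theorem hyp_of_sinks' {P Q : Polynomial ℂ} {D : ℕ}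
    (hD : D = max P.natDegree Q.natDegree) (hD1 : 0 < D) {n : ℕ} (hn0 : 0 < n) {s : ℂ}
    (hs : s ≠ 0) {f : OnePoint ℂ → OnePoint ℂ} (hf : IsM P Q n s f)
    (h0 : Sinks f ((0 : ℂ) : OnePoint ℂ)) (hinf : Sinks f ∞)
    (hcrit : ∀ y : ℂ, (wro P Q).eval y = 0 → Q.eval y ≠ 0 →
      Sinks f (pr (P.eval y) (Q.eval y))) :
    Hyp (Polynomial.expand ℂ n (sc s P)) (Polynomial.expand ℂ n (sc s Q)) := by
  have hD' : D = max (sc s P).natDegree (sc s Q).natDegree := by
    rw [sc_natDegree hs, sc_natDegree hs]; exact hD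
  refine hyp_of_sinks hD' hD1 hn0 hf h0 hinf ?_
  intro y hy hq
  rw [sc_wro] at hy
  rw [sc_eval] at hq
  rw [sc_eval, sc_eval]
  exact hcrit _ ((mul_eq_zero.1 hy).resolve_left hs) hq

end Pool.Agent.TH864.ZO
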