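import Pool.Agent.TH864.ZO.ZA

/-!
# The maps `P(s z ^ n) / Q(s z ^ n)`: estimates along orbits on the unit circle
-/

set_option autoImplicit false

open Set Filter Topology
open scoped OnePoint

namespace Pool.Agent.TH864.ZO

open Pool.Agent.H762R2.Rt Pool.Agent.Helper114.Herman Pool.Agent.Helper114.Konig
open Pool.Agent.H462R2.AP

/-- The constants of a rational map. -/
structure Cst (P Q : Polynomial ℂ) (D : ℕ) (L μ : ℝ) : Prop where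
  L1 : 1 ≤ L
  lip : ∀ i : Bool, ∀ y z : ℂ, ‖y‖ ≤ 3 → ‖z‖ ≤ 3 →
      ‖(cp D P i).eval y - (cp D P i).eval z‖ ≤ L * ‖y - z‖ ∧
      ‖(cp D Q i).eval y - (cp D Q i).eval z‖ ≤ L * ‖y - z‖
  lipw : ∀ y z : ℂ, ‖y‖ ≤ 3 → ‖z‖ ≤ 3 →
      ‖(wro P Q).eval y - (wro P Q).eval z‖ ≤ L * ‖y - z‖
  μ0 : 0 < μ
  μ1 : μ ≤ 1
  cen : ∀ i, μ ≤ ‖(cp D P i).eval 0‖ ∨ μ ≤ ‖(cp D Q i).eval 0‖
  cir : ∀ u : ℂ, ‖u‖ = 1 → μ ≤ ‖P.eval u‖ ∨ μ ≤ ‖Q.eval u‖

theorem exists_cst {P Q : Polynomial ℂ} (hc : IsCoprime P Q) {D : ℕ}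
    (hD : D = max P.natDegree Q.natDegree) (hD1 : 0 < D) : ∃ L μ : ℝ, Cst P Q D L μ := by
  obtain ⟨μ, hμ, hi, hu⟩ := exists_mu hc hD hD1
  obtain ⟨L, hL0, hL⟩ := lip_all D P Q
  obtain ⟨L', hL0', hL'⟩ := lip_eval (wro P Q)
  refine ⟨1 + L + L', min μ 1, ?_, ?_, ?_, lt_min hμ one_pos, min_le_right _ _, ?_, ?_⟩
  · linarith
  · intro i y z hy hz
    have h := hL i y z hy hz
    have h0 := norm_nonneg (y - z)
    exact ⟨h.1.trans (mul_le_mul_of_nonneg_right (by linarith) h0),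
      h.2.trans (mul_le_mul_of_nonneg_right (by linarith) h0)⟩
  · intro y z hy hz
    exact (hL' y z hy hz).trans (mul_le_mul_of_nonneg_right (by linarith) (norm_nonneg _))
  · intro i
    exact (hi i).imp (fun h => (min_le_left _ _).trans h) (fun h => (min_le_left _ _).trans h)
  · intro u hu'
    exact (hu u hu').imp (fun h => (min_le_left _ _).trans h) (fun h => (min_le_left _ _).trans h)

/-- The value at `x` is on the unit circle. -/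
def OnC (P Q : Polynomial ℂ) (n : ℕ) (x : ℂ) : Prop := ‖P.eval (x ^ n)‖ = ‖Q.eval (x ^ n)‖

section pow

variable {n : ℕ}

theorem pow_le_three (hn : 1 ≤ n) {y : ℂ} (hy : ‖y‖ ≤ 1 + 1 / n) : ‖y‖ ^ n ≤ 3 := by
  have hn1 : (1 : ℝ) ≤ n := by exact_mod_cast hn
  have hn0 : (0 : ℝ) < n := by linarith
  have h1 : 1 + 1 / (n : ℝ) ≤ Real.exp (1 / n) := by
    have := Real.add_one_le_exp (1 / (n : ℝ)); linarith
  have he : Real.exp 1 < 2.7182818286 := Real.exp_one_lt_d9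
  calc ‖y‖ ^ n ≤ Real.exp (1 / n) ^ n := pow_le_pow_left₀ (norm_nonneg _) (hy.trans h1) n
    _ = Real.exp 1 := by
        rw [← Real.exp_nat_mul]
        congr 1
        field_simp
    _ ≤ 3 := by linarith

theorem pow_sub_le (hn : 1 ≤ n) {a b : ℂ} (ha : ‖a‖ ≤ 1 + 1 / n) (hb : ‖b‖ ≤ 1 + 1 / n) :
    ‖a ^ n - b ^ n‖ ≤ 3 * n * ‖a - b‖ := by
  have hn1 : (1 : ℝ) ≤ n := by exact_mod_cast hn
  have hn0 : (0 : ℝ) < n := by linarith
  refine (pow_lip ha hb n).trans ?_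
  have h0 : 0 ≤ 1 / (n : ℝ) := by positivity
  have h3 : (1 + 1 / (n : ℝ)) ^ (n - 1) ≤ 3 := by
    have h4 : (1 + 1 / (n : ℝ)) ^ n ≤ 3 := by
      have := pow_le_three hn (y := ((1 + 1 / (n : ℝ) : ℝ) : ℂ)) (by
        rw [Complex.norm_real, Real.norm_eq_abs, abs_of_nonneg (by linarith)])
      rwa [Complex.norm_real, Real.norm_eq_abs, abs_of_nonneg (by linarith)] at this
    refine le_trans ?_ h4
    apply pow_le_pow_right₀ _ (Nat.sub_le n 1)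
    linarith
  calc (n : ℝ) * (1 + 1 / (n : ℝ)) ^ (n - 1) * ‖a - b‖ ≤ n * 3 * ‖a - b‖ := by gcongr
    _ = _ := by ring

theorem norm_le_of_near (hn : 1 ≤ n) {v y : ℂ} (hv : ‖v‖ = 1) (hy : n * ‖y - v‖ ≤ 1) :
    ‖y‖ ≤ 1 + 1 / n := by
  have hn0 : (0 : ℝ) < n := by exact_mod_cast hn
  have h1 : ‖y - v‖ ≤ 1 / n := by rw [le_div_iff₀ hn0]; linarith
  have := norm_sub_norm_le y v
  linarith

theorem norm_le_two {s : ℂ} (hs : ‖s - 1‖ ≤ 1) : ‖s‖ ≤ 2 := by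
  have := norm_sub_norm_le s 1
  rw [norm_one] at this
  linarith

theorem dev_est (hn : 1 ≤ n) {v y s : ℂ} (hv : ‖v‖ = 1) (hy : n * ‖y - v‖ ≤ 1)
    (hs : ‖s - 1‖ ≤ 1) : ‖s * y ^ n - v ^ n‖ ≤ 6 * (n * ‖y - v‖) + ‖s - 1‖ := by
  have hn0 : (0 : ℝ) < n := by exact_mod_cast hn
  have e : s * y ^ n - v ^ n = s * (y ^ n - v ^ n) + (s - 1) * v ^ n := by ring
  have h1 : ‖v‖ ≤ 1 + 1 / (n : ℝ) := by
    rw [hv]; have : 0 ≤ 1 / (n : ℝ) := by positivity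
    linarith
  have h2 := pow_sub_le hn (norm_le_of_near hn hv hy) h1
  have h3 := norm_le_two hs
  have h4 : ‖s * (y ^ n - v ^ n)‖ ≤ 2 * (3 * n * ‖y - v‖) := by
    rw [norm_mul]
    exact mul_le_mul h3 h2 (norm_nonneg _) (by norm_num)
  have h5 : ‖(s - 1) * v ^ n‖ = ‖s - 1‖ := by rw [norm_mul, norm_pow, hv, one_pow, mul_one]
  rw [e]
  refine (norm_add_le _ _).trans ?_
  rw [h5]
  linarith

theorem dev_lip (hn : 1 ≤ n) {v y z s : ℂ} (hv : ‖v‖ = 1) (hy : n * ‖y - v‖ ≤ 1)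
    (hz : n * ‖z - v‖ ≤ 1) (hs : ‖s - 1‖ ≤ 1) : ‖s * y ^ n - s * z ^ n‖ ≤ 6 * n * ‖y - z‖ := by
  have e : s * y ^ n - s * z ^ n = s * (y ^ n - z ^ n) := by ring
  have h2 := pow_sub_le hn (norm_le_of_near hn hv hy) (norm_le_of_near hn hv hz)
  have h3 := norm_le_two hs
  rw [e, norm_mul]
  calc ‖s‖ * ‖y ^ n - z ^ n‖ ≤ 2 * (3 * n * ‖y - z‖) :=
        mul_le_mul h3 h2 (norm_nonneg _) (by norm_num)
    _ = _ := by ring

end pow

section est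

variable {P Q : Polynomial ℂ} {D : ℕ} {L μ K : ℝ} {n : ℕ}

theorem Cst.K_ge (h : Cst P Q D L μ) (hK : K = 56 * L / μ) : 56 ≤ K := by
  rw [hK, le_div_iff₀ h.μ0]
  have := h.L1
  have := h.μ1
  nlinarith

theorem Cst.lipP (h : Cst P Q D L μ) {y z : ℂ} (hy : ‖y‖ ≤ 3) (hz : ‖z‖ ≤ 3) :
    ‖P.eval y - P.eval z‖ ≤ L * ‖y - z‖ := by
  have := (h.lip false y z hy hz).1
  rwa [cp_false] at this

theorem Cst.lipQ (h : Cst P Q D L μ) {y z : ℂ} (hy : ‖y‖ ≤ 3) (hz : ‖z‖ ≤ 3) :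
    ‖Q.eval y - Q.eval z‖ ≤ L * ‖y - z‖ := by
  have := (h.lip false y z hy hz).2
  rwa [cp_false] at this

theorem Cst.onc (h : Cst P Q D L μ) {v : ℂ} (hv : ‖v‖ = 1) (ho : OnC P Q n v) :
    μ ≤ ‖P.eval (v ^ n)‖ ∧ μ ≤ ‖Q.eval (v ^ n)‖ := by
  unfold OnC at ho
  have h1 := h.cir (v ^ n) (by rw [norm_pow, hv, one_pow])
  rw [← ho] at h1
  rw [← ho]
  simpa using h1

theorem st_norm (h : Cst P Q D L μ) {v : ℂ} (hv : ‖v‖ = 1) (ho : OnC P Q n v) :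
    ‖st P Q n 1 v‖ = 1 := by
  have h1 := h.onc hv ho
  have h2 := h.μ0
  unfold OnC at ho
  rw [st, one_mul, norm_div, ho, div_self]
  linarith [h1.2]

/-- The basic estimates for one step. -/
theorem step_est (h : Cst P Q D L μ) (hK : K = 56 * L / μ) (hn : 1 ≤ n) {v : ℂ} (hv : ‖v‖ = 1)
    (ho : OnC P Q n v) {s y : ℂ} (hs : ‖s - 1‖ ≤ 1 / K) (hy : n * ‖y - v‖ ≤ 1 / K) :
    μ / 2 ≤ ‖Q.eval (s * y ^ n)‖ ∧ ‖st P Q n s y‖ ≤ 2 ∧
      ‖st P Q n s y - st P Q n 1 v‖ ≤ K * (n * ‖y - v‖ + ‖s - 1‖) := by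
  have hK56 := h.K_ge hK
  have hK0 : 0 < K := by linarith
  have hL1 := h.L1
  have hμ0 := h.μ0
  have hμ1 := h.μ1
  have hcK : 1 / K ≤ 1 / 56 := one_div_le_one_div_of_le (by norm_num) hK56
  have hcL : L * (1 / K) = μ / 56 := by
    rw [hK]; field_simp
  have hs1 : ‖s - 1‖ ≤ 1 := by linarith
  have hy1 : n * ‖y - v‖ ≤ 1 := by linarith
  have hdev := dev_est hn hv hy1 hs1
  set δ := ‖s * y ^ n - v ^ n‖ with hδ
  have hδ7 : δ ≤ 7 * (1 / K) := by linarith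
  have hvn : ‖v ^ n‖ = 1 := by rw [norm_pow, hv, one_pow]
  have hn3 : ‖s * y ^ n‖ ≤ 3 := by
    have h1 := norm_sub_norm_le (s * y ^ n) (v ^ n)
    rw [hvn] at h1
    linarith
  have hv3 : ‖v ^ n‖ ≤ 3 := by rw [hvn]; norm_num
  have hP := h.lipP hn3 hv3
  have hQ := h.lipQ hn3 hv3
  have hLδ : L * δ ≤ μ / 8 := by
    calc L * δ ≤ L * (7 * (1 / K)) := by gcongr
      _ = 7 * (L * (1 / K)) := by ring
      _ = 7 * (μ / 56) := by rw [hcL]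
      _ = μ / 8 := by ring
  obtain ⟨-, hQv⟩ := h.onc hv ho
  have hQlow : μ / 2 ≤ ‖Q.eval (s * y ^ n)‖ := by
    have h2 := norm_sub_norm_le (Q.eval (v ^ n)) (Q.eval (s * y ^ n))
    rw [norm_sub_rev] at h2
    linarith
  have hst := st_norm h hv ho
  have hdiv := div_est hμ0 (p := P.eval (v ^ n)) (q := Q.eval (v ^ n)) (p' := P.eval (s * y ^ n))
    (q' := Q.eval (s * y ^ n)) (by linarith) hQlow (by
      rw [st, one_mul] at hst; rw [hst]; norm_num)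
  have hmain : ‖st P Q n s y - st P Q n 1 v‖ ≤ 4 / μ * (2 * (L * δ)) := by
    rw [norm_sub_rev]
    have e1 : st P Q n 1 v = P.eval (v ^ n) / Q.eval (v ^ n) := by rw [st, one_mul]
    rw [e1]
    refine hdiv.trans ?_
    rw [norm_sub_rev (P.eval (v ^ n)), norm_sub_rev (Q.eval (v ^ n))]
    apply mul_le_mul_of_nonneg_left _ (by positivity)
    linarith
  refine ⟨hQlow, ?_, ?_⟩
  · have h1 := norm_sub_norm_le (st P Q n s y) (st P Q n 1 v)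
    have h2 : 4 / μ * (2 * (L * δ)) ≤ 1 := by
      rw [div_mul_eq_mul_div, div_le_one hμ0]; linarith
    linarith
  · refine hmain.trans ?_
    have h3 : 4 / μ * (2 * (L * δ)) = K / 7 * δ := by
      rw [hK]; field_simp; ring
    rw [h3]
    have h4 : K / 7 * δ ≤ K / 7 * (6 * (n * ‖y - v‖) + ‖s - 1‖) :=
      mul_le_mul_of_nonneg_left hdev (by positivity)
    have h5 : 0 ≤ (n : ℝ) * ‖y - v‖ := by positivity
    have h6 := norm_nonneg (s - 1)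
    nlinarith

theorem step_lip (h : Cst P Q D L μ) (hK : K = 56 * L / μ) (hn : 1 ≤ n) {v : ℂ} (hv : ‖v‖ = 1)
    (ho : OnC P Q n v) {s y z : ℂ} (hs : ‖s - 1‖ ≤ 1 / K) (hy : n * ‖y - v‖ ≤ 1 / K)
    (hz : n * ‖z - v‖ ≤ 1 / K) :
    ‖st P Q n s y - st P Q n s z‖ ≤ K * n * ‖y - z‖ := by
  have hK56 := h.K_ge hK
  have hK0 : 0 < K := by linarith
  have hL1 := h.L1
  have hμ0 := h.μ0
  have hcK : 1 / K ≤ 1 / 56 := one_div_le_one_div_of_le (by norm_num) hK56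
  have hs1 : ‖s - 1‖ ≤ 1 := by linarith
  have hy1 : n * ‖y - v‖ ≤ 1 := by linarith
  have hz1 : n * ‖z - v‖ ≤ 1 := by linarith
  obtain ⟨a1, a2, -⟩ := step_est h hK hn hv ho hs hy
  obtain ⟨b1, -, -⟩ := step_est h hK hn hv ho hs hz
  have hvn : ‖v ^ n‖ = 1 := by rw [norm_pow, hv, one_pow]
  have hy3 : ‖s * y ^ n‖ ≤ 3 := by
    have h1 := norm_sub_norm_le (s * y ^ n) (v ^ n)
    have h2 := dev_est hn hv hy1 hs1
    rw [hvn] at h1
    linarith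
  have hz3 : ‖s * z ^ n‖ ≤ 3 := by
    have h1 := norm_sub_norm_le (s * z ^ n) (v ^ n)
    have h2 := dev_est hn hv hz1 hs1
    rw [hvn] at h1
    linarith
  have hd := dev_lip hn hv hy1 hz1 hs1
  have hP := h.lipP hy3 hz3
  have hQ := h.lipQ hy3 hz3
  have hdiv := div_est hμ0 (p := P.eval (s * y ^ n)) (q := Q.eval (s * y ^ n))
    (p' := P.eval (s * z ^ n)) (q' := Q.eval (s * z ^ n)) a1 b1 a2
  have e : st P Q n s y - st P Q n s z = P.eval (s * y ^ n) / Q.eval (s * y ^ n) -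
    P.eval (s * z ^ n) / Q.eval (s * z ^ n) := rfl
  rw [e]
  refine hdiv.trans ?_
  have h1 : ‖P.eval (s * y ^ n) - P.eval (s * z ^ n)‖ + ‖Q.eval (s * y ^ n) - Q.eval (s * z ^ n)‖
      ≤ 2 * (L * (6 * n * ‖y - z‖)) := by
    have : L * ‖s * y ^ n - s * z ^ n‖ ≤ L * (6 * n * ‖y - z‖) :=
      mul_le_mul_of_nonneg_left hd (by linarith)
    linarith
  refine (mul_le_mul_of_nonneg_left h1 (by positivity)).trans ?_
  have h3 : 4 / μ * (2 * (L * (6 * n * ‖y - z‖))) = 48 / 56 * (K * (n * ‖y - z‖)) := by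
    rw [hK]; field_simp; ring
  rw [h3]
  have : 0 ≤ K * (n * ‖y - z‖) := by positivity
  linarith

/-- Orbits near an orbit on the unit circle. -/
theorem path_est (h : Cst P Q D L μ) (hK : K = 56 * L / μ) (hn : 1 ≤ n) {v : ℂ} (hv : ‖v‖ = 1)
    {m : ℕ} (ho : ∀ i < m, OnC P Q n ((st P Q n 1)^[i] v)) {s y : ℂ}
    (hΔ : (2 * K * n) ^ m * (‖y - v‖ + ‖s - 1‖) ≤ 1 / K) :
    ∀ i ≤ m, ‖(st P Q n 1)^[i] v‖ = 1 ∧
      ‖(st P Q n s)^[i] y - (st P Q n 1)^[i] v‖ ≤ (2 * K * n) ^ i * (‖y - v‖ + ‖s - 1‖) ∧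
      (i < m → n * ‖(st P Q n s)^[i] y - (st P Q n 1)^[i] v‖ ≤ 1 / K ∧
        Q.eval (s * ((st P Q n s)^[i] y) ^ n) ≠ 0) := by
  have hK56 := h.K_ge hK
  have hK0 : 0 < K := by linarith
  have hn1 : (1 : ℝ) ≤ n := by exact_mod_cast hn
  set Δ := ‖y - v‖ + ‖s - 1‖ with hΔdef
  have hΔ0 : 0 ≤ Δ := by positivity
  have hKn : 1 ≤ 2 * K * n := by nlinarith
  have hsΔ : ‖s - 1‖ ≤ Δ := by rw [hΔdef]; linarith [norm_nonneg (y - v)]
  have hs : ‖s - 1‖ ≤ 1 / K := by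
    refine hsΔ.trans (le_trans ?_ hΔ)
    have : 1 ≤ (2 * K * n) ^ m := one_le_pow₀ hKn
    nlinarith
  have hnear : ∀ i < m, ∀ t : ℝ, t ≤ (2 * K * n) ^ i * Δ → n * t ≤ 1 / K := by
    intro i hi t ht
    have h1 : (2 * K * n) ^ (i + 1) ≤ (2 * K * n) ^ m := pow_le_pow_right₀ hKn hi
    have h2 : n * t ≤ n * ((2 * K * n) ^ i * Δ) := mul_le_mul_of_nonneg_left ht (by linarith)
    refine h2.trans (le_trans ?_ hΔ)
    have h3 : n * ((2 * K * n) ^ i * Δ) ≤ (2 * K * n) ^ (i + 1) * Δ := by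
      rw [pow_succ]
      have h4 : 0 ≤ (2 * K * n) ^ i * Δ * n := by positivity
      nlinarith
    exact h3.trans (mul_le_mul_of_nonneg_right h1 hΔ0)
  have hmain : ∀ i ≤ m, ‖(st P Q n 1)^[i] v‖ = 1 ∧
      ‖(st P Q n s)^[i] y - (st P Q n 1)^[i] v‖ ≤ (2 * K * n) ^ i * Δ := by
    intro i
    induction i with
    | zero =>
      intro _
      refine ⟨by simpa using hv, ?_⟩
      simp only [Function.iterate_zero, id_eq, pow_zero, one_mul]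
      rw [hΔdef]; linarith [norm_nonneg (s - 1)]
    | succ i ih =>
      intro hi
      obtain ⟨h1, h2⟩ := ih (by omega)
      have h3 := hnear i hi _ h2
      have h4 := ho i hi
      rw [Function.iterate_succ_apply', Function.iterate_succ_apply']
      refine ⟨st_norm h h1 h4, ?_⟩
      have h5 := (step_est h hK hn h1 h4 hs h3).2.2
      refine h5.trans ?_
      have h6 : (n : ℝ) * ‖(st P Q n s)^[i] y - (st P Q n 1)^[i] v‖ ≤ n * ((2 * K * n) ^ i * Δ) :=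
        mul_le_mul_of_nonneg_left h2 (by linarith)
      have h7 : ‖s - 1‖ ≤ n * ((2 * K * n) ^ i * Δ) := by
        refine hsΔ.trans ?_
        have h8 : 1 ≤ (2 * K * n) ^ i := one_le_pow₀ hKn
        nlinarith [mul_nonneg (by linarith : (0:ℝ) ≤ (2 * K * n) ^ i - 1) hΔ0]
      rw [pow_succ]
      nlinarith
  intro i hi
  refine ⟨(hmain i hi).1, (hmain i hi).2, fun hlt => ?_⟩
  have h3 := hnear i hlt _ (hmain i hi).2
  refine ⟨h3, ?_⟩
  have h5 := (step_est h hK hn (hmain i hi).1 (ho i hlt) hs h3).1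
  have := h.μ0
  exact norm_pos_iff.1 (by linarith)

theorem path_lip (h : Cst P Q D L μ) (hK : K = 56 * L / μ) (hn : 1 ≤ n) {v : ℂ} (hv : ‖v‖ = 1)
    {m : ℕ} (ho : ∀ i < m, OnC P Q n ((st P Q n 1)^[i] v)) {s y z : ℂ} {ρ : ℝ}
    (hΔ : (2 * K * n) ^ m * (ρ + ‖s - 1‖) ≤ 1 / K) (hy : ‖y - v‖ ≤ ρ) (hz : ‖z - v‖ ≤ ρ) :
    ∀ i ≤ m, ‖(st P Q n s)^[i] y - (st P Q n s)^[i] z‖ ≤ (K * n) ^ i * ‖y - z‖ := by
  have hK56 := h.K_ge hK
  have hK0 : 0 < K := by linarith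
  have hn1 : (1 : ℝ) ≤ n := by exact_mod_cast hn
  have hKn : 1 ≤ 2 * K * n := by nlinarith
  have hp0 : 0 ≤ (2 * K * n) ^ m := by positivity
  have hΔy : (2 * K * n) ^ m * (‖y - v‖ + ‖s - 1‖) ≤ 1 / K :=
    le_trans (mul_le_mul_of_nonneg_left (by linarith) hp0) hΔ
  have hΔz : (2 * K * n) ^ m * (‖z - v‖ + ‖s - 1‖) ≤ 1 / K :=
    le_trans (mul_le_mul_of_nonneg_left (by linarith) hp0) hΔ
  have hs : ‖s - 1‖ ≤ 1 / K := by
    have h1 : 1 ≤ (2 * K * n) ^ m := one_le_pow₀ hKn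
    have h2 := norm_nonneg (s - 1)
    have h3 := norm_nonneg (y - v)
    refine le_trans ?_ hΔy
    nlinarith
  intro i
  induction i with
  | zero => intro _; simp
  | succ i ih =>
    intro hi
    have h1 := path_est h hK hn hv ho hΔy i (by omega)
    have h2 := path_est h hK hn hv ho hΔz i (by omega)
    rw [Function.iterate_succ_apply', Function.iterate_succ_apply']
    refine (step_lip h hK hn h1.1 (ho i hi) hs (h1.2.2 hi).1 (h2.2.2 hi).1).trans ?_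
    rw [pow_succ]
    have h3 := ih (by omega)
    have h4 : 0 ≤ K * n := by positivity
    calc K * n * ‖(st P Q n s)^[i] y - (st P Q n s)^[i] z‖
        ≤ K * n * ((K * n) ^ i * ‖y - z‖) := mul_le_mul_of_nonneg_left h3 h4
      _ = _ := by ring

/-- The orbit of the sphere map. -/
theorem path_map {f : OnePoint ℂ → OnePoint ℂ} (hD : D = max P.natDegree Q.natDegree)
    (hD1 : 0 < D) (hn : 0 < n) {s : ℂ} (hs : s ≠ 0) (hf : IsM P Q n s f) {m : ℕ} {y : ℂ}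
    (hQ : ∀ i < m, Q.eval (s * ((st P Q n s)^[i] y) ^ n) ≠ 0) :
    ∀ i ≤ m, f^[i] (y : OnePoint ℂ) = (((st P Q n s)^[i] y : ℂ) : OnePoint ℂ) := by
  intro i
  induction i with
  | zero => intro _; rfl
  | succ i ih =>
    intro hi
    rw [Function.iterate_succ_apply', ih (by omega), map_st hD hD1 hn hs hf (hQ i hi),
      Function.iterate_succ_apply']

end est

end Pool.Agent.TH864.ZO
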