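import Pool.Agent.TH864.ZO.ZB

/-!
# The maps `P(s z ^ n) / Q(s z ^ n)`: attraction of the charts and of the marked points
-/

set_option autoImplicit false

open Set Filter Topology
open scoped OnePoint

namespace Pool.Agent.TH864.ZO

open Pool.Agent.H762R2.Rt Pool.Agent.Helper114.Herman Pool.Agent.Helper114.Konig
open Pool.Agent.H462R2.AP

/-- A disc mapped into itself by a contraction which is an iterate of `f`. -/
theorem sinks_of_disc {f : OnePoint ℂ → OnePoint ℂ} {F : ℂ → ℂ} {v : ℂ} {R q : ℝ} {τ : ℕ}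
    (hR : 0 < R) (hq0 : 0 ≤ q) (hq : q < 1) (hτ : 0 < τ)
    (hF : ∀ y : ℂ, ‖y - v‖ ≤ R → f^[τ] (y : OnePoint ℂ) = ((F y : ℂ) : OnePoint ℂ))
    (hm : ∀ y : ℂ, ‖y - v‖ ≤ R → ‖F y - v‖ < R)
    (hl : ∀ y z : ℂ, ‖y - v‖ ≤ R → ‖z - v‖ ≤ R → ‖F y - F z‖ ≤ q * ‖y - z‖)
    {y : ℂ} (hy : ‖y - v‖ ≤ R) : Sinks f (y : OnePoint ℂ) := by
  set H : ℂ → ℂ := fun x => F (v + x) - v with hH
  have hmem : ∀ x : ℂ, ‖x‖ ≤ R → ‖(v + x) - v‖ ≤ R := by intro x hx; simpa using hx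
  have hHm : ∀ x : ℂ, ‖x‖ ≤ R → ‖H x‖ < R := fun x hx => hm _ (hmem x hx)
  have hHl : ∀ x y : ℂ, ‖x‖ ≤ R → ‖y‖ ≤ R → ‖H x - H y‖ ≤ q * ‖x - y‖ := by
    intro x y hx hy
    have h1 := hl _ _ (hmem x hx) (hmem y hy)
    simp only [hH]
    have e1 : F (v + x) - v - (F (v + y) - v) = F (v + x) - F (v + y) := by ring
    have e2 : v + x - (v + y) = x - y := by ring
    rw [e1]
    rwa [e2] at h1
  obtain ⟨p, hpr, hpfix, hpt⟩ := disc_contraction hR hq0 hq hHm hHl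
  set ψ : ℂ → OnePoint ℂ := fun x => ((v + x : ℂ) : OnePoint ℂ) with hψ
  have hψc : Continuous ψ := OnePoint.continuous_coe.comp (continuous_const.add continuous_id)
  have hψo : IsOpenMap ψ :=
    (OnePoint.isOpenEmbedding_coe (X := ℂ)).isOpenMap.comp (Homeomorph.addLeft v).isOpenMap
  have hg : ∀ x : ℂ, ‖x‖ ≤ R → f^[τ] (ψ x) = ψ (H x) := by
    intro x hx
    simp only [hψ, hH]
    rw [hF _ (hmem x hx)]
    congr 1
    ring
  have hHk : ∀ k : ℕ, ∀ y : ℂ, ‖y‖ ≤ R → ‖H^[k] y‖ ≤ R := by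
    intro k y hy
    induction k with
    | zero => simpa using hy
    | succ k ih => rw [Function.iterate_succ_apply']; exact (hHm _ ih).le
  have hgk : ∀ k : ℕ, ∀ y : ℂ, ‖y‖ ≤ R → f^[τ * k] (ψ y) = ψ (H^[k] y) := by
    intro k y hy
    induction k with
    | zero => simp
    | succ k ih =>
      rw [show τ * (k + 1) = τ + τ * k by ring, Function.iterate_add_apply, ih,
        hg _ (hHk k y hy), Function.iterate_succ_apply']
  have hlim : ∀ y : ℂ, ‖y‖ ≤ R → Tendsto (fun k : ℕ => f^[τ * k] (ψ y)) atTop (𝓝 (ψ p)) := by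
    intro y hy
    have h1 : Tendsto (fun k : ℕ => ψ (H^[k] y)) atTop (𝓝 (ψ p)) :=
      (hψc.tendsto p).comp (hpt y hy)
    refine h1.congr fun k => (hgk k y hy).symm
  have hyy : (y : OnePoint ℂ) = ψ (y - v) := by simp [hψ]
  refine ⟨ψ p, τ, hτ, ?_, ⟨ψ '' Metric.ball 0 R, ?_, ?_⟩, ?_⟩
  · rw [hg p hpr.le, hpfix]
  · exact (hψo _ Metric.isOpen_ball).mem_nhds ⟨p, by simpa using hpr, rfl⟩
  · rintro w ⟨y, hy, rfl⟩
    exact hlim y (by simpa using (Metric.mem_ball.1 hy).le)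
  · rw [hyy]
    exact hlim _ hy

/-- All points of the chart disc `i` are attracted. -/
def Attr (f : OnePoint ℂ → OnePoint ℂ) (r : ℝ) (i : Bool) : Prop :=
  ∀ x : ℂ, ‖x‖ ≤ r → Sinks f (ch i x)

/-- The chart disc `i` is mapped into a chart disc by a contraction. -/
def Loop (f : OnePoint ℂ → OnePoint ℂ) (r : ℝ) (i : Bool) : Prop :=
  ∃ κ : Bool, ∃ τ : ℕ, ∃ h : ℂ → ℂ, 0 < τ ∧ (∀ x : ℂ, ‖x‖ ≤ r → f^[τ] (ch i x) = ch κ (h x)) ∧
    (∀ x : ℂ, ‖x‖ ≤ r → ‖h x‖ < r) ∧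
    (∀ x y : ℂ, ‖x‖ ≤ r → ‖y‖ ≤ r → ‖h x - h y‖ ≤ (1 / 2) * ‖x - y‖)

theorem attr_of_alt {f : OnePoint ℂ → OnePoint ℂ} (hf : Continuous f) {r : ℝ} (hr : 0 < r)
    (h : ∀ i, Attr f r i ∨ Loop f r i) : ∀ i, Attr f r i := by
  have hto : ∀ i κ : Bool, ∀ τ : ℕ, ∀ h : ℂ → ℂ,
      (∀ x : ℂ, ‖x‖ ≤ r → f^[τ] (ch i x) = ch κ (h x)) →
      (∀ x : ℂ, ‖x‖ ≤ r → ‖h x‖ < r) → Attr f r κ → Attr f r i := by
    intro i κ τ h h1 h2 h3 x hx
    apply sinks_of_iterate hf τ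
    rw [h1 x hx]
    exact h3 _ (h2 x hx).le
  -- one of the two discs attracted
  have hone : ∀ i, Attr f r i → Attr f r (!i) := by
    intro i hi
    rcases h (!i) with h1 | ⟨κ, τ, g, hτ, h1, h2, h3⟩
    · exact h1
    by_cases hκ : κ = i
    · exact hto _ κ τ g h1 h2 (hκ ▸ hi)
    · have hκ' : κ = !i := by cases κ <;> cases i <;> simp_all
      intro x hx
      have := two_charts' hf (ψ := fun _ => ch (!i)) (σ := id) (τ := fun _ => τ)
        (h := fun _ => g) hr (fun _ => hτ) (fun _ => continuous_ch _) (fun _ => isOpenMap_ch _)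
        (fun _ x hx => by rw [h1 x hx, hκ']) (fun _ x hx => h2 x hx)
        (fun _ x y hx hy => h3 x y hx hy) (i := true) hx
      exact this
  by_cases h0 : ∃ i, Attr f r i
  · obtain ⟨i, hi⟩ := h0
    intro j
    by_cases hij : j = i
    · exact hij ▸ hi
    · have : j = !i := by cases j <;> cases i <;> simp_all
      exact this ▸ hone i hi
  · push Not at h0
    have hl : ∀ i, Loop f r i := fun i => (h i).resolve_left (h0 i)
    choose κ τ g hτ h1 h2 h3 using hl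
    intro i x hx
    exact two_charts' hf hr hτ continuous_ch isOpenMap_ch h1 h2 h3 hx

section main

variable {P Q : Polynomial ℂ} {D : ℕ} {L μ K : ℝ} {n : ℕ}

theorem eps_est (h : Cst P Q D L μ) (hn : 1 ≤ n) {w r : ℝ} (hr : r = Real.exp (-w))
    (hwr : 1 / (4 * n) ≤ r * (1 - r)) :
    4 * (μ / (16 * n)) ≤ Real.exp (-(2 * w / 2)) * (1 - Real.exp (-(2 * w / 2))) * μ ∧
      0 < μ / (16 * n) := by
  have hn0 : (0 : ℝ) < n := by exact_mod_cast hn
  have hμ := h.μ0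
  have e : 2 * w / 2 = w := by ring
  rw [e, ← hr]
  refine ⟨?_, by positivity⟩
  have h1 : 4 * (μ / (16 * n)) = 1 / (4 * n) * μ := by field_simp; norm_num
  rw [h1]
  exact mul_le_mul_of_nonneg_right hwr hμ.le

/-- Landing in a chart disc. -/
theorem land (h : Cst P Q D L μ) (hK : K = 56 * L / μ) (hn : 1 ≤ n) {w r : ℝ}
    (hr : r = Real.exp (-w)) (hw : 0 < w) (hwr : 1 / (4 * n) ≤ r * (1 - r)) {v : ℂ}
    (hv : ‖v‖ = 1) (hg : Good (2 * w) (P.eval (v ^ n)) (Q.eval (v ^ n))) {s : ℂ}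
    (hs : ‖s - 1‖ ≤ 1 / (2 * K * n)) :
    ∃ κ : Bool, (∀ y : ℂ, n * ‖y - v‖ ≤ 1 / (2 * K * n) →
      pr (P.eval (s * y ^ n)) (Q.eval (s * y ^ n)) =
        ch κ (co κ (P.eval (s * y ^ n)) (Q.eval (s * y ^ n))) ∧
      ‖co κ (P.eval (s * y ^ n)) (Q.eval (s * y ^ n))‖ < r) ∧
      ∀ y z : ℂ, n * ‖y - v‖ ≤ 1 / (2 * K * n) → n * ‖z - v‖ ≤ 1 / (2 * K * n) →
        ‖co κ (P.eval (s * y ^ n)) (Q.eval (s * y ^ n)) -
          co κ (P.eval (s * z ^ n)) (Q.eval (s * z ^ n))‖ ≤ K * n * ‖y - z‖ := by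
  have hK56 := h.K_ge hK
  have hK0 : 0 < K := by linarith
  have hL1 := h.L1
  have hμ0 := h.μ0
  have hn1 : (1 : ℝ) ≤ n := by exact_mod_cast hn
  obtain ⟨hε, hε0⟩ := eps_est h hn hr hwr
  obtain ⟨κ, h1, h2⟩ := chart_near (by linarith : 0 < 2 * w) hμ0 hε hε0 hg
    (h.cir _ (by rw [norm_pow, hv, one_pow]))
  have hsmall : 1 / (2 * K * n) ≤ 1 / 112 := by
    apply one_div_le_one_div_of_le (by norm_num); nlinarith
  have hs1 : ‖s - 1‖ ≤ 1 := by linarith
  have hvn : ‖v ^ n‖ = 1 := by rw [norm_pow, hv, one_pow]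
  have hv3 : ‖v ^ n‖ ≤ 3 := by rw [hvn]; norm_num
  have hy3 : ∀ y : ℂ, n * ‖y - v‖ ≤ 1 / (2 * K * n) → ‖s * y ^ n‖ ≤ 3 := by
    intro y hy
    have h3 := norm_sub_norm_le (s * y ^ n) (v ^ n)
    have h4 := dev_est hn hv (by linarith : n * ‖y - v‖ ≤ 1) hs1
    rw [hvn] at h3
    linarith
  have hdev : ∀ y : ℂ, n * ‖y - v‖ ≤ 1 / (2 * K * n) → L * ‖s * y ^ n - v ^ n‖ ≤ μ / (16 * n) := by
    intro y hy
    have h4 := dev_est hn hv (by linarith : n * ‖y - v‖ ≤ 1) hs1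
    have h5 : ‖s * y ^ n - v ^ n‖ ≤ 7 * (1 / (2 * K * n)) := by linarith
    calc L * ‖s * y ^ n - v ^ n‖ ≤ L * (7 * (1 / (2 * K * n))) := by gcongr
      _ = μ / (16 * n) := by rw [hK]; field_simp; norm_num
  have hp : ∀ y : ℂ, n * ‖y - v‖ ≤ 1 / (2 * K * n) →
      ‖P.eval (s * y ^ n) - P.eval (v ^ n)‖ ≤ μ / (16 * n) := fun y hy =>
    (h.lipP (hy3 y hy) hv3).trans (hdev y hy)
  have hq : ∀ y : ℂ, n * ‖y - v‖ ≤ 1 / (2 * K * n) →
      ‖Q.eval (s * y ^ n) - Q.eval (v ^ n)‖ ≤ μ / (16 * n) := fun y hy =>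
    (h.lipQ (hy3 y hy) hv3).trans (hdev y hy)
  refine ⟨κ, fun y hy => ?_, fun y z hy hz => ?_⟩
  · have h6 := h1 _ _ (hp y hy) (hq y hy)
    have e : 2 * w / 2 = w := by ring
    rw [e, ← hr] at h6
    exact h6
  · refine (h2 _ _ _ _ (hp y hy) (hq y hy) (hp z hz) (hq z hz)).trans ?_
    have h7 := dev_lip hn hv (by linarith : n * ‖y - v‖ ≤ 1) (by linarith : n * ‖z - v‖ ≤ 1) hs1
    have h8 := h.lipP (hy3 y hy) (hy3 z hz)
    have h9 := h.lipQ (hy3 y hy) (hy3 z hz)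
    have h10 : L * ‖s * y ^ n - s * z ^ n‖ ≤ L * (6 * n * ‖y - z‖) :=
      mul_le_mul_of_nonneg_left h7 (by linarith)
    calc 2 / μ * (‖P.eval (s * y ^ n) - P.eval (s * z ^ n)‖ +
          ‖Q.eval (s * y ^ n) - Q.eval (s * z ^ n)‖)
        ≤ 2 / μ * (2 * (L * (6 * n * ‖y - z‖))) := by
          apply mul_le_mul_of_nonneg_left _ (by positivity); linarith
      _ = 24 / 56 * (K * (n * ‖y - z‖)) := by rw [hK]; field_simp; ring
      _ ≤ _ := by
          have : 0 ≤ K * (n * ‖y - z‖) := by positivity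
          linarith

/-- A periodic critical orbit on the unit circle attracts a disc. -/
theorem trap (h : Cst P Q D L μ) (hK : K = 56 * L / μ) (hn : 1 ≤ n)
    (hD : D = max P.natDegree Q.natDegree) (hD1 : 0 < D) {s : ℂ} (hs0 : s ≠ 0)
    {f : OnePoint ℂ → OnePoint ℂ} (hf : IsM P Q n s f) {v : ℂ} (hv : ‖v‖ = 1) {p : ℕ}
    (hp : 0 < p) (ho : ∀ i < p, OnC P Q n ((st P Q n 1)^[i] v))
    (hper : (st P Q n 1)^[p] v = v) (hcr : (wro P Q).eval (v ^ n) = 0)
    (hs : (2 * K * n) ^ (2 * p + 3) * ‖s - 1‖ ≤ 1) {y : ℂ}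
    (hy : (2 * K * n) ^ (p + 2) * ‖y - v‖ ≤ 1) : Sinks f (y : OnePoint ℂ) := by
  have hK56 := h.K_ge hK
  have hK0 : 0 < K := by linarith
  have hL1 := h.L1
  have hμ0 := h.μ0
  have hn1 : (1 : ℝ) ≤ n := by exact_mod_cast hn
  have hn0 : (0 : ℝ) < n := by linarith
  set B : ℝ := 2 * K * n with hB
  have hB112 : 112 ≤ B := by rw [hB]; nlinarith
  have hB0 : 0 < B := by linarith
  set R : ℝ := (B ^ (p + 2))⁻¹ with hR
  have hR0 : 0 < R := by positivity
  have hy' : ‖y - v‖ ≤ R := by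
    rw [hR, ← one_div, le_div_iff₀ (by positivity)]; linarith
  have hsR : B ^ (p + 1) * ‖s - 1‖ ≤ R := by
    rw [hR, ← one_div, le_div_iff₀ (by positivity)]
    calc B ^ (p + 1) * ‖s - 1‖ * B ^ (p + 2) = B ^ (2 * p + 3) * ‖s - 1‖ := by
          rw [show 2 * p + 3 = (p + 1) + (p + 2) by ring, pow_add]; ring
      _ ≤ 1 := hs
  have hBp1 : 1 ≤ B ^ p := one_le_pow₀ (by linarith)
  have hsR' : ‖s - 1‖ ≤ R := by
    have : 1 ≤ B ^ (p + 1) := one_le_pow₀ (by linarith)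
    nlinarith [norm_nonneg (s - 1)]
  have hBpR : B ^ p * R = (B ^ 2)⁻¹ := by
    rw [hR, pow_add]; field_simp
  have hΔ : B ^ p * (R + ‖s - 1‖) ≤ 1 / K := by
    have h1 : B ^ p * (R + ‖s - 1‖) ≤ 2 * (B ^ p * R) := by
      have : B ^ p * ‖s - 1‖ ≤ B ^ p * R := mul_le_mul_of_nonneg_left hsR' (by positivity)
      linarith
    refine h1.trans ?_
    rw [hBpR, ← div_eq_mul_inv, div_le_div_iff₀ (by positivity) hK0]
    have : 2 * K ≤ B := by rw [hB]; nlinarith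
    nlinarith
  have hKs : ‖s - 1‖ ≤ 1 / K := by
    refine le_trans ?_ hΔ
    nlinarith [norm_nonneg (s - 1)]
  -- the first step
  have hvon : OnC P Q n v := by simpa using ho 0 hp
  have hnR : n * R ≤ 1 / K := by
    refine le_trans ?_ hΔ
    have h1 : n * R ≤ B ^ p * R := by
      apply mul_le_mul_of_nonneg_right _ hR0.le
      obtain ⟨q, rfl⟩ : ∃ q, p = q + 1 := ⟨p - 1, by omega⟩
      have h2 : 1 ≤ B ^ q := one_le_pow₀ (by linarith)
      have h3 : (n : ℝ) ≤ B := by rw [hB]; nlinarith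
      rw [pow_succ]; nlinarith
    nlinarith [norm_nonneg (s - 1)]
  have hs1 : ‖s - 1‖ ≤ 1 := by
    have : 1 / K ≤ 1 := by rw [div_le_one hK0]; linarith
    linarith
  have hfirst : ∀ a b : ℂ, ‖a - v‖ ≤ R → ‖b - v‖ ≤ R →
      ‖st P Q n s a - st P Q n s b‖ ≤ B ^ 2 * R * ‖a - b‖ := by
    intro a b ha hb
    have hder : ∀ x ∈ Metric.closedBall v R, HasDerivWithinAt (st P Q n s)
        ((wro P Q).eval (s * x ^ n) / (Q.eval (s * x ^ n)) ^ 2 * (s * (n * x ^ (n - 1))))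
        (Metric.closedBall v R) x := by
      intro x hx
      rw [Metric.mem_closedBall, dist_eq_norm] at hx
      have hnx : n * ‖x - v‖ ≤ 1 / K :=
        (mul_le_mul_of_nonneg_left hx hn0.le).trans hnR
      have hQ := (step_est h hK hn hv hvon hKs hnx).1
      have hQ0 : Q.eval (s * x ^ n) ≠ 0 := norm_pos_iff.1 (by linarith)
      apply HasDerivAt.hasDerivWithinAt
      have h1 : HasDerivAt (fun x : ℂ => s * x ^ n) (s * (n * x ^ (n - 1))) x :=
        (hasDerivAt_pow n x).const_mul s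
      have h2 := (P.hasDerivAt (s * x ^ n)).comp x h1
      have h3 := (Q.hasDerivAt (s * x ^ n)).comp x h1
      have h4 := h2.div h3 hQ0
      refine h4.congr_deriv ?_
      simp only [wro, Polynomial.eval_sub, Polynomial.eval_mul, Function.comp_apply]
      field_simp
      try ring
    have hbd : ∀ x ∈ Metric.closedBall v R,
        ‖(wro P Q).eval (s * x ^ n) / (Q.eval (s * x ^ n)) ^ 2 * (s * (n * x ^ (n - 1)))‖ ≤
          B ^ 2 * R := by
      intro x hx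
      rw [Metric.mem_closedBall, dist_eq_norm] at hx
      have hnx : n * ‖x - v‖ ≤ 1 / K :=
        (mul_le_mul_of_nonneg_left hx hn0.le).trans hnR
      have hQ := (step_est h hK hn hv hvon hKs hnx).1
      have hK1 : 1 / K ≤ 1 / 56 := one_div_le_one_div_of_le (by norm_num) hK56
      have hdev := dev_est hn hv (by linarith : n * ‖x - v‖ ≤ 1) hs1
      have hvn : ‖v ^ n‖ = 1 := by rw [norm_pow, hv, one_pow]
      have hx3 : ‖s * x ^ n‖ ≤ 3 := by
        have h1 := norm_sub_norm_le (s * x ^ n) (v ^ n)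
        rw [hvn] at h1
        linarith
      have hw := h.lipw _ _ hx3 (by rw [hvn]; norm_num : ‖v ^ n‖ ≤ 3)
      rw [hcr, sub_zero] at hw
      have h5 : ‖s * x ^ n - v ^ n‖ ≤ 7 * (n * R) := by
        have h6 : n * ‖x - v‖ ≤ n * R := mul_le_mul_of_nonneg_left hx hn0.le
        have h7 : ‖s - 1‖ ≤ n * R := by nlinarith
        linarith
      have h8 : ‖(wro P Q).eval (s * x ^ n)‖ ≤ L * (7 * (n * R)) :=
        hw.trans (mul_le_mul_of_nonneg_left h5 (by linarith))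
      have h9 : ‖x ^ (n - 1)‖ ≤ 3 := by
        have h10 := norm_le_of_near hn hv (by linarith : n * ‖x - v‖ ≤ 1)
        have h11 := pow_le_three hn h10
        rw [norm_pow]
        rcases le_total ‖x‖ 1 with h12 | h12
        · exact (pow_le_one₀ (norm_nonneg _) h12).trans (by norm_num)
        · exact (pow_le_pow_right₀ h12 (Nat.sub_le n 1)).trans h11
      rw [norm_mul, norm_div, norm_mul, norm_mul, norm_pow, Complex.norm_natCast]
      have h13 : (μ / 2) ^ 2 ≤ ‖Q.eval (s * x ^ n)‖ ^ 2 :=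
        pow_le_pow_left₀ (by positivity) hQ 2
      calc ‖(wro P Q).eval (s * x ^ n)‖ / ‖Q.eval (s * x ^ n)‖ ^ 2 *
            (‖s‖ * (n * ‖x ^ (n - 1)‖))
          ≤ (L * (7 * (n * R))) / (μ / 2) ^ 2 * (2 * (n * 3)) := by
            gcongr
            exact norm_le_two hs1
        _ = 168 * (L / μ ^ 2) * n ^ 2 * R := by field_simp; ring
        _ ≤ B ^ 2 * R := by
            apply mul_le_mul_of_nonneg_right _ hR0.le
            rw [hB, hK]
            have h14 : (2 * (56 * L / μ) * n) ^ 2 = 12544 * (L ^ 2 / μ ^ 2) * n ^ 2 := by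
              field_simp; ring
            rw [h14]
            apply mul_le_mul_of_nonneg_right _ (by positivity)
            have h15 : L / μ ^ 2 ≤ L ^ 2 / μ ^ 2 := by
              apply div_le_div_of_nonneg_right _ (by positivity)
              nlinarith
            have h16 : 0 ≤ L / μ ^ 2 := by positivity
            linarith
    exact (convex_closedBall v R).norm_image_sub_le_of_norm_hasDerivWithin_le hder hbd
      (by rwa [Metric.mem_closedBall, dist_eq_norm]) (by rwa [Metric.mem_closedBall, dist_eq_norm])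
  -- the orbit from the first image
  set v₁ := st P Q n 1 v with hv₁
  have hv1 : ‖v₁‖ = 1 := st_norm h hv hvon
  obtain ⟨q, rfl⟩ : ∃ q, p = q + 1 := ⟨p - 1, by omega⟩
  have ho1 : ∀ i < q, OnC P Q n ((st P Q n 1)^[i] v₁) := by
    intro i hi
    have := ho (i + 1) (by omega)
    rwa [Function.iterate_succ_apply] at this
  have hnear : ∀ a : ℂ, ‖a - v‖ ≤ R → ‖st P Q n s a - v₁‖ ≤ B * R := by
    intro a ha
    have hna : n * ‖a - v‖ ≤ 1 / K := (mul_le_mul_of_nonneg_left ha hn0.le).trans hnR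
    have h1 := (step_est h hK hn hv hvon hKs hna).2.2
    refine h1.trans ?_
    have h2 : n * ‖a - v‖ ≤ n * R := mul_le_mul_of_nonneg_left ha hn0.le
    have h3 : ‖s - 1‖ ≤ n * R := by nlinarith
    calc K * (n * ‖a - v‖ + ‖s - 1‖) ≤ K * (n * R + n * R) := by gcongr
      _ = B * R := by rw [hB]; ring
  have hΔ1 : B ^ q * (B * R + ‖s - 1‖) ≤ 1 / K := by
    refine le_trans ?_ hΔ
    rw [pow_succ]
    have h1 : B ^ q * ‖s - 1‖ ≤ B ^ q * B * ‖s - 1‖ := by
      have : 0 ≤ B ^ q * ‖s - 1‖ := by positivity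
      nlinarith
    linarith [h1, (by ring : B ^ q * (B * R + ‖s - 1‖) = B ^ q * B * R + B ^ q * ‖s - 1‖),
      (by ring : B ^ q * B * (R + ‖s - 1‖) = B ^ q * B * R + B ^ q * B * ‖s - 1‖)]
  have hlip : ∀ a b : ℂ, ‖a - v‖ ≤ R → ‖b - v‖ ≤ R →
      ‖(st P Q n s)^[q + 1] a - (st P Q n s)^[q + 1] b‖ ≤ (1 / 2) * ‖a - b‖ := by
    intro a b ha hb
    rw [Function.iterate_succ_apply, Function.iterate_succ_apply]
    refine (path_lip h hK hn hv1 ho1 hΔ1 (hnear a ha) (hnear b hb) q le_rfl).trans ?_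
    have h1 := hfirst a b ha hb
    have h2 : (K * n) ^ q ≤ B ^ q := by
      apply pow_le_pow_left₀ (by positivity)
      rw [hB]; nlinarith
    calc (K * n) ^ q * ‖st P Q n s a - st P Q n s b‖ ≤ B ^ q * (B ^ 2 * R * ‖a - b‖) := by
          gcongr
      _ = (B ^ (q + 1) * R) * B * ‖a - b‖ := by rw [pow_succ]; ring
      _ = (B ^ 2)⁻¹ * B * ‖a - b‖ := by rw [hBpR]
      _ ≤ (1 / 2) * ‖a - b‖ := by
          apply mul_le_mul_of_nonneg_right _ (norm_nonneg _)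
          have : (B ^ 2)⁻¹ * B = 1 / B := by field_simp
          rw [this]
          apply one_div_le_one_div_of_le (by norm_num); linarith
  have hpath := fun (a : ℂ) (ha : ‖a - v‖ ≤ R) =>
    path_est h hK hn hv ho (s := s) (y := a) (le_trans (mul_le_mul_of_nonneg_left
      (by linarith) (by positivity)) hΔ)
  refine sinks_of_disc (F := (st P Q n s)^[q + 1]) hR0 (by norm_num : (0:ℝ) ≤ 1 / 2)
    (by norm_num) hp ?_ ?_ hlip hy'
  · intro a ha
    exact path_map hD hD1 hn hs0 hf (fun i hi => ((hpath a ha i hi.le).2.2 hi).2) _ le_rfl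
  · intro a ha
    have h1 := hlip a v ha (by rw [sub_self, norm_zero]; exact hR0.le)
    have h2 := (hpath v (by rw [sub_self, norm_zero]; exact hR0.le) (q + 1) le_rfl).2.1
    rw [hper, sub_self, norm_zero, zero_add] at h2
    have h3 : (2 * K * n) ^ (q + 1) * ‖s - 1‖ ≤ R / 112 := by
      rw [le_div_iff₀ (by norm_num)]
      rw [pow_succ] at hsR
      have h4 : 0 ≤ B ^ (q + 1) * ‖s - 1‖ := by positivity
      rw [← hB]
      nlinarith
    have h5 : (st P Q n s)^[q + 1] a - v = ((st P Q n s)^[q + 1] a - (st P Q n s)^[q + 1] v) +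
        ((st P Q n s)^[q + 1] v - v) := by ring
    rw [h5]
    refine (norm_add_le _ _).trans_lt ?_
    have : (1 / 2) * ‖a - v‖ ≤ R / 2 := by linarith
    linarith

end main

end Pool.Agent.TH864.ZO
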