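import Pool.Agent.TH864.ZO.ZC

/-!
# The maps `P(s z ^ n) / Q(s z ^ n)`: attraction, main criterion
-/

set_option autoImplicit false

open Set Filter Topology
open scoped OnePoint

namespace Pool.Agent.TH864.ZO

open Pool.Agent.H762R2.Rt Pool.Agent.Helper114.Herman Pool.Agent.Helper114.Konig
open Pool.Agent.H462R2.AP

/-- The orbit of the point `v` of the unit circle leaves the circle after at most `m₀` steps or
arrives at a critical periodic orbit. -/
def FineV (P Q : Polynomial ℂ) (n m₀ : ℕ) (η : ℝ) (v : ℂ) : Prop :=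
  ∃ j ≤ m₀, (∀ i < j, OnC P Q n ((st P Q n 1)^[i] v)) ∧
    (Good η (P.eval (((st P Q n 1)^[j] v) ^ n)) (Q.eval (((st P Q n 1)^[j] v) ^ n)) ∨
      ∃ p, 0 < p ∧ p ≤ m₀ ∧ (∀ i < p, OnC P Q n ((st P Q n 1)^[i] ((st P Q n 1)^[j] v))) ∧
        (st P Q n 1)^[p] ((st P Q n 1)^[j] v) = (st P Q n 1)^[j] v ∧
        (wro P Q).eval (((st P Q n 1)^[j] v) ^ n) = 0)

/-- The condition on the value `p / q`. -/
def FineP (P Q : Polynomial ℂ) (n m₀ : ℕ) (η : ℝ) (p q : ℂ) : Prop :=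
  Good η p q ∨ (‖p‖ = ‖q‖ ∧ FineV P Q n m₀ η (p / q))

/-- All the data of a step. -/
structure Par (P Q : Polynomial ℂ) (D : ℕ) (L μ K : ℝ) (n m₀ : ℕ) (w r ρ : ℝ) (s : ℂ)
    (f : OnePoint ℂ → OnePoint ℂ) : Prop where
  h : Cst P Q D L μ
  hK : K = 56 * L / μ
  hn : 1 ≤ n
  hD : D = max P.natDegree Q.natDegree
  hD1 : 0 < D
  hw : 0 < w
  hr : r = Real.exp (-w)
  hr2 : 1 / 2 ≤ r
  hwr : 1 / (4 * n) ≤ r * (1 - r)
  hρ : ρ = r ^ n
  hB : (2 * K * n) ^ (2 * m₀ + 4) * ρ ≤ 1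
  hs : ‖s - 1‖ ≤ ρ
  hf : IsM P Q n s f

section main

variable {P Q : Polynomial ℂ} {D : ℕ} {L μ K : ℝ} {n m₀ : ℕ} {w r ρ : ℝ} {s : ℂ}
  {f : OnePoint ℂ → OnePoint ℂ}

theorem Par.B_ge (H : Par P Q D L μ K n m₀ w r ρ s f) : 112 ≤ 2 * K * n := by
  have hK56 := H.h.K_ge H.hK
  have hn1 : (1 : ℝ) ≤ n := by exact_mod_cast H.hn
  nlinarith

theorem Par.K_le (H : Par P Q D L μ K n m₀ w r ρ s f) : 2 * K ≤ 2 * K * n := by
  have hK56 := H.h.K_ge H.hK
  have hn1 : (1 : ℝ) ≤ n := by exact_mod_cast H.hn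
  nlinarith

theorem Par.n_le (H : Par P Q D L μ K n m₀ w r ρ s f) : (n : ℝ) ≤ 2 * K * n := by
  have hK56 := H.h.K_ge H.hK
  have hn1 : (1 : ℝ) ≤ n := by exact_mod_cast H.hn
  nlinarith

theorem Par.r0 (H : Par P Q D L μ K n m₀ w r ρ s f) : 0 < r := by
  rw [H.hr]; exact Real.exp_pos _

theorem Par.r1 (H : Par P Q D L μ K n m₀ w r ρ s f) : r < 1 := by
  rw [H.hr, Real.exp_lt_one_iff]; linarith [H.hw]

theorem Par.ρ0 (H : Par P Q D L μ K n m₀ w r ρ s f) : 0 < ρ := by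
  rw [H.hρ]; exact pow_pos H.r0 _

theorem Par.pw (H : Par P Q D L μ K n m₀ w r ρ s f) {k : ℕ} (hk : k ≤ 2 * m₀ + 4) :
    (2 * K * n) ^ k * ρ ≤ 1 := by
  refine le_trans ?_ H.hB
  apply mul_le_mul_of_nonneg_right _ H.ρ0.le
  exact pow_le_pow_right₀ (by linarith [H.B_ge]) hk

theorem Par.pw1 (H : Par P Q D L μ K n m₀ w r ρ s f) {k : ℕ} (hk : k + 1 ≤ 2 * m₀ + 4) :
    (2 * K * n) ^ k * ρ ≤ 1 / (2 * K * n) := by
  have hB := H.B_ge
  have h1 := H.pw hk
  rw [le_div_iff₀ (by linarith)]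
  calc (2 * K * n) ^ k * ρ * (2 * K * n) = (2 * K * n) ^ (k + 1) * ρ := by rw [pow_succ]; ring
    _ ≤ 1 := h1

theorem Par.invB_le (H : Par P Q D L μ K n m₀ w r ρ s f) : 1 / (2 * K * n) ≤ 1 / K := by
  have hK56 := H.h.K_ge H.hK
  apply one_div_le_one_div_of_le (by linarith)
  linarith [H.K_le]

theorem Par.ρ_le (H : Par P Q D L μ K n m₀ w r ρ s f) : ρ ≤ 1 / (2 * K * n) := by
  have := H.pw1 (k := 0) (by omega)
  simpa using this

theorem Par.ρ_le' (H : Par P Q D L μ K n m₀ w r ρ s f) : ρ ≤ 1 / 112 :=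
  H.ρ_le.trans (one_div_le_one_div_of_le (by norm_num) H.B_ge)

theorem Par.s_ne (H : Par P Q D L μ K n m₀ w r ρ s f) : s ≠ 0 := by
  rintro rfl
  have := H.hs
  have := H.ρ_le'
  rw [zero_sub, norm_neg, norm_one] at *
  linarith

/-- A point of the circle with a fine orbit has a neighbourhood which lands in a chart disc or is
attracted. -/
theorem v_alt (H : Par P Q D L μ K n m₀ w r ρ s f) {v : ℂ} (hv : ‖v‖ = 1)
    (hfine : FineV P Q n m₀ (2 * w) v) :
    (∃ κ : Bool, ∃ τ : ℕ, ∃ g : ℂ → ℂ,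
      (∀ y : ℂ, ‖y - v‖ ≤ K * ρ → f^[τ] (y : OnePoint ℂ) = ch κ (g y) ∧ ‖g y‖ < r) ∧
      (∀ y z : ℂ, ‖y - v‖ ≤ K * ρ → ‖z - v‖ ≤ K * ρ →
        ‖g y - g z‖ ≤ (K * n) ^ (m₀ + 1) * ‖y - z‖)) ∨
    (∀ y : ℂ, ‖y - v‖ ≤ K * ρ → Sinks f (y : OnePoint ℂ)) := by
  have hK56 := H.h.K_ge H.hK
  have hK0 : 0 < K := by linarith
  have hn1 : (1 : ℝ) ≤ n := by exact_mod_cast H.hn
  have hB := H.B_ge
  have hKB := H.K_le
  have hnB := H.n_le
  have hρ0 := H.ρ0
  have hs := H.hs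
  set B : ℝ := 2 * K * n with hBdef
  have hΔ0 : K * ρ + ‖s - 1‖ ≤ B * ρ := by nlinarith
  obtain ⟨j, hj, hon, hor⟩ := hfine
  have hpj : B ^ j * (K * ρ + ‖s - 1‖) ≤ B ^ (j + 1) * ρ := by
    rw [pow_succ, mul_assoc]
    exact mul_le_mul_of_nonneg_left hΔ0 (by positivity)
  have hΔ : B ^ j * (K * ρ + ‖s - 1‖) ≤ 1 / K :=
    hpj.trans ((H.pw1 (by omega)).trans H.invB_le)
  have hpath := fun (y : ℂ) (hy : ‖y - v‖ ≤ K * ρ) =>
    path_est H.h H.hK H.hn hv hon (s := s) (y := y) (le_trans (mul_le_mul_of_nonneg_left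
      (by linarith) (by positivity)) hΔ) 
  have hclose : ∀ y : ℂ, ‖y - v‖ ≤ K * ρ →
      ‖(st P Q n s)^[j] y - (st P Q n 1)^[j] v‖ ≤ B ^ (j + 1) * ρ := by
    intro y hy
    refine ((hpath y hy j le_rfl).2.1).trans (le_trans ?_ hpj)
    exact mul_le_mul_of_nonneg_left (by linarith) (by positivity)
  have hmapj : ∀ y : ℂ, ‖y - v‖ ≤ K * ρ →
      f^[j] (y : OnePoint ℂ) = (((st P Q n s)^[j] y : ℂ) : OnePoint ℂ) := by
    intro y hy
    exact path_map H.hD H.hD1 H.hn H.s_ne H.hf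
      (fun i hi => ((hpath y hy i hi.le).2.2 hi).2) j le_rfl
  have hvj : ‖(st P Q n 1)^[j] v‖ = 1 := (hpath v (by
    rw [sub_self, norm_zero]; positivity) j le_rfl).1
  rcases hor with hg | ⟨p, hp0, hpm, honp, hper, hcr⟩
  · left
    have hsB : ‖s - 1‖ ≤ 1 / (2 * K * n) := hs.trans H.ρ_le
    obtain ⟨κ, h1, h2⟩ := land H.h H.hK H.hn H.hr H.hw H.hwr hvj hg hsB
    have hnear : ∀ y : ℂ, ‖y - v‖ ≤ K * ρ →
        n * ‖(st P Q n s)^[j] y - (st P Q n 1)^[j] v‖ ≤ 1 / (2 * K * n) := by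
      intro y hy
      calc n * ‖(st P Q n s)^[j] y - (st P Q n 1)^[j] v‖ ≤ B * (B ^ (j + 1) * ρ) :=
            mul_le_mul hnB (hclose y hy) (norm_nonneg _) (by linarith)
        _ = B ^ (j + 2) * ρ := by rw [pow_succ B (j + 1)]; ring
        _ ≤ _ := H.pw1 (by omega)
    refine ⟨κ, j + 1, fun y => co κ (P.eval (s * ((st P Q n s)^[j] y) ^ n))
      (Q.eval (s * ((st P Q n s)^[j] y) ^ n)), ?_, ?_⟩
    · intro y hy
      rw [Function.iterate_succ_apply', hmapj y hy, map_pl H.hD H.hD1 H.hn H.s_ne H.hf]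
      exact h1 _ (hnear y hy)
    · intro y z hy hz
      refine (h2 _ _ (hnear y hy) (hnear z hz)).trans ?_
      have h3 := path_lip H.h H.hK H.hn hv hon hΔ hy hz j le_rfl
      have h4 : 1 ≤ K * n := by nlinarith
      calc K * n * ‖(st P Q n s)^[j] y - (st P Q n s)^[j] z‖
          ≤ K * n * ((K * n) ^ j * ‖y - z‖) := mul_le_mul_of_nonneg_left h3 (by positivity)
        _ = (K * n) ^ (j + 1) * ‖y - z‖ := by rw [pow_succ]; ring
        _ ≤ (K * n) ^ (m₀ + 1) * ‖y - z‖ := by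
            apply mul_le_mul_of_nonneg_right _ (norm_nonneg _)
            exact pow_le_pow_right₀ h4 (by omega)
  · right
    intro y hy
    apply sinks_of_iterate H.hf.cont j
    rw [hmapj y hy]
    refine trap H.h H.hK H.hn H.hD H.hD1 H.s_ne H.hf hvj hp0 honp hper hcr ?_ ?_
    · calc (2 * K * n) ^ (2 * p + 3) * ‖s - 1‖ ≤ (2 * K * n) ^ (2 * p + 3) * ρ :=
          mul_le_mul_of_nonneg_left hs (by positivity)
        _ ≤ 1 := H.pw (by omega)
    · calc (2 * K * n) ^ (p + 2) * ‖(st P Q n s)^[j] y - (st P Q n 1)^[j] v‖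
          ≤ B ^ (p + 2) * (B ^ (j + 1) * ρ) :=
            mul_le_mul_of_nonneg_left (hclose y hy) (by positivity)
        _ = B ^ (p + j + 3) * ρ := by
            rw [show p + j + 3 = (p + 2) + (j + 1) by ring, pow_add]; ring
        _ ≤ 1 := H.pw (by omega)

theorem Par.sg_le (H : Par P Q D L μ K n m₀ w r ρ s f) (i : Bool) : ‖sg i s‖ ≤ 2 := by
  have h1 := H.hs
  have h2 := H.ρ_le'
  cases i
  · simp only [sg, Bool.false_eq_true, if_false]
    exact norm_le_two (by linarith)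
  · simp only [sg, if_true]
    rw [norm_inv]
    have h3 := norm_sub_norm_le 1 s
    rw [norm_one, norm_sub_rev] at h3
    have h4 : 1 / 2 ≤ ‖s‖ := by linarith
    calc ‖s‖⁻¹ ≤ (1 / 2)⁻¹ := inv_anti₀ (by norm_num) h4
      _ = 2 := by norm_num

theorem Par.chart_dev (H : Par P Q D L μ K n m₀ w r ρ s f) (i : Bool) {x : ℂ} (hx : ‖x‖ ≤ r) :
    ‖sg i s * x ^ n‖ ≤ 2 * ρ := by
  rw [norm_mul, norm_pow, H.hρ]
  exact mul_le_mul (H.sg_le i) (pow_le_pow_left₀ (norm_nonneg _) hx _) (by positivity)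
    (by norm_num)

theorem Par.chart_lip (H : Par P Q D L μ K n m₀ w r ρ s f) (i : Bool) {x y : ℂ} (hx : ‖x‖ ≤ r)
    (hy : ‖y‖ ≤ r) : ‖sg i s * x ^ n - sg i s * y ^ n‖ ≤ 4 * n * ρ * ‖x - y‖ := by
  have h1 := pow_lip hx hy n
  have h2 := H.sg_le i
  have h3 : r ^ (n - 1) ≤ 2 * ρ := by
    have h4 : r ^ n = r ^ (n - 1) * r := by
      rw [← pow_succ]; congr 1; have := H.hn; omega
    rw [H.hρ, h4]
    have h5 : 0 ≤ r ^ (n - 1) := pow_nonneg H.r0.le _
    have := H.hr2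
    nlinarith
  rw [← mul_sub, norm_mul]
  calc ‖sg i s‖ * ‖x ^ n - y ^ n‖ ≤ 2 * (n * (2 * ρ) * ‖x - y‖) := by
        apply mul_le_mul h2 (h1.trans _) (norm_nonneg _) (by norm_num)
        gcongr
    _ = _ := by ring

/-- A chart disc around a point with value on the unit circle. -/
theorem chart_circ (H : Par P Q D L μ K n m₀ w r ρ s f) (i : Bool)
    (he : ‖(cp D P i).eval 0‖ = ‖(cp D Q i).eval 0‖) :
    ∃ c : ℂ → ℂ, (∀ x : ℂ, ‖x‖ ≤ r → f (ch i x) = ((c x : ℂ) : OnePoint ℂ) ∧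
      ‖c x - (cp D P i).eval 0 / (cp D Q i).eval 0‖ ≤ K * ρ) ∧
      ∀ x y : ℂ, ‖x‖ ≤ r → ‖y‖ ≤ r → ‖c x - c y‖ ≤ 2 * K * n * ρ * ‖x - y‖ := by
  have hK56 := H.h.K_ge H.hK
  have hK0 : 0 < K := by linarith
  have hn1 : (1 : ℝ) ≤ n := by exact_mod_cast H.hn
  have hρ0 := H.ρ0
  have hρ' := H.ρ_le'
  have hL1 := H.h.L1
  have hμ0 := H.h.μ0
  have hμP : μ ≤ ‖(cp D P i).eval 0‖ := by
    have := H.h.cen i; rw [← he] at this; simpa using this
  have hμQ : μ ≤ ‖(cp D Q i).eval 0‖ := he ▸ hμP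
  have h3 : ∀ x : ℂ, ‖x‖ ≤ r → ‖sg i s * x ^ n‖ ≤ 3 := fun x hx =>
    (H.chart_dev i hx).trans (by linarith)
  have hdev : ∀ x : ℂ, ‖x‖ ≤ r →
      ‖(cp D P i).eval (sg i s * x ^ n) - (cp D P i).eval 0‖ ≤ L * (2 * ρ) ∧
      ‖(cp D Q i).eval (sg i s * x ^ n) - (cp D Q i).eval 0‖ ≤ L * (2 * ρ) := by
    intro x hx
    have h4 := H.h.lip i _ 0 (h3 x hx) (by simp)
    rw [sub_zero] at h4
    have h5 := mul_le_mul_of_nonneg_left (H.chart_dev i hx) (by linarith : 0 ≤ L)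
    exact ⟨h4.1.trans h5, h4.2.trans h5⟩
  have hLρ : L * (2 * ρ) ≤ μ / 28 := by
    have h6 : ρ ≤ 1 / K := H.ρ_le.trans H.invB_le
    calc L * (2 * ρ) ≤ L * (2 * (1 / K)) := by gcongr
      _ = μ / 28 := by rw [H.hK]; field_simp; norm_num
  have hQlow : ∀ x : ℂ, ‖x‖ ≤ r → μ / 2 ≤ ‖(cp D Q i).eval (sg i s * x ^ n)‖ := by
    intro x hx
    have h7 := norm_sub_norm_le ((cp D Q i).eval 0) ((cp D Q i).eval (sg i s * x ^ n))
    rw [norm_sub_rev] at h7
    have := (hdev x hx).2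
    linarith
  have hbase : ‖(cp D P i).eval 0 / (cp D Q i).eval 0‖ = 1 := by
    rw [norm_div, he, div_self]; linarith
  have hcl : ∀ x : ℂ, ‖x‖ ≤ r →
      ‖(cp D P i).eval (sg i s * x ^ n) / (cp D Q i).eval (sg i s * x ^ n) -
        (cp D P i).eval 0 / (cp D Q i).eval 0‖ ≤ 16 / 56 * (K * ρ) := by
    intro x hx
    have h8 := div_est hμ0 (p := (cp D P i).eval 0) (q := (cp D Q i).eval 0)
      (p' := (cp D P i).eval (sg i s * x ^ n)) (q' := (cp D Q i).eval (sg i s * x ^ n))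
      (by linarith) (hQlow x hx) (by rw [hbase]; norm_num)
    rw [norm_sub_rev, norm_sub_rev ((cp D P i).eval 0), norm_sub_rev ((cp D Q i).eval 0)] at h8
    refine h8.trans ?_
    have h9 := hdev x hx
    calc 4 / μ * (‖(cp D P i).eval (sg i s * x ^ n) - (cp D P i).eval 0‖ +
          ‖(cp D Q i).eval (sg i s * x ^ n) - (cp D Q i).eval 0‖)
        ≤ 4 / μ * (L * (2 * ρ) + L * (2 * ρ)) := by
          gcongr
          · exact h9.1
          · exact h9.2
      _ = 16 / 56 * (K * ρ) := by rw [H.hK]; field_simp; norm_num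
  refine ⟨fun x => (cp D P i).eval (sg i s * x ^ n) / (cp D Q i).eval (sg i s * x ^ n), ?_, ?_⟩
  · intro x hx
    refine ⟨?_, (hcl x hx).trans ?_⟩
    · rw [map_ch' H.hD H.hD1 H.hn H.s_ne H.hf, pr_ne]
      exact norm_pos_iff.1 (by linarith [hQlow x hx])
    · have : 0 ≤ K * ρ := by positivity
      linarith
  · intro x y hx hy
    have h10 := div_est hμ0 (p := (cp D P i).eval (sg i s * x ^ n))
      (q := (cp D Q i).eval (sg i s * x ^ n)) (p' := (cp D P i).eval (sg i s * y ^ n))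
      (q' := (cp D Q i).eval (sg i s * y ^ n)) (hQlow x hx) (hQlow y hy) (by
        have h11 := hcl x hx
        have h12 := norm_sub_norm_le
          ((cp D P i).eval (sg i s * x ^ n) / (cp D Q i).eval (sg i s * x ^ n))
          ((cp D P i).eval 0 / (cp D Q i).eval 0)
        rw [hbase] at h12
        have h13 : K * ρ ≤ 1 := by
          have := H.ρ_le.trans H.invB_le
          calc K * ρ ≤ K * (1 / K) := by gcongr
            _ = 1 := by field_simp
        linarith)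
    refine h10.trans ?_
    have h14 := H.h.lip i _ _ (h3 x hx) (h3 y hy)
    have h15 := mul_le_mul_of_nonneg_left (H.chart_lip i hx hy) (by linarith : 0 ≤ L)
    calc 4 / μ * (‖(cp D P i).eval (sg i s * x ^ n) - (cp D P i).eval (sg i s * y ^ n)‖ +
          ‖(cp D Q i).eval (sg i s * x ^ n) - (cp D Q i).eval (sg i s * y ^ n)‖)
        ≤ 4 / μ * (2 * (L * (4 * n * ρ * ‖x - y‖))) := by
          apply mul_le_mul_of_nonneg_left _ (by positivity); linarith
      _ = 32 / 56 * (K * n * ρ * ‖x - y‖) := by rw [H.hK]; field_simp; ring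
      _ ≤ _ := by
          have : 0 ≤ K * n * ρ * ‖x - y‖ := by positivity
          nlinarith

/-- A chart disc around a point with value off the unit circle. -/
theorem chart_good (H : Par P Q D L μ K n m₀ w r ρ s f) (i : Bool)
    (hg : Good (2 * w) ((cp D P i).eval 0) ((cp D Q i).eval 0)) : Loop f r i := by
  have hK56 := H.h.K_ge H.hK
  have hK0 : 0 < K := by linarith
  have hn1 : (1 : ℝ) ≤ n := by exact_mod_cast H.hn
  have hρ0 := H.ρ0
  have hρ' := H.ρ_le'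
  have hL1 := H.h.L1
  have hμ0 := H.h.μ0
  obtain ⟨hε, hε0⟩ := eps_est H.h H.hn H.hr H.hwr
  obtain ⟨κ, h1, h2⟩ := chart_near (by linarith [H.hw] : 0 < 2 * w) hμ0 hε hε0 hg (H.h.cen i)
  have h3 : ∀ x : ℂ, ‖x‖ ≤ r → ‖sg i s * x ^ n‖ ≤ 3 := fun x hx =>
    (H.chart_dev i hx).trans (by linarith)
  have hLρ : L * (2 * ρ) ≤ μ / (16 * n) := by
    have h6 := H.ρ_le
    have h7 : L * (2 * (1 / (2 * K * n))) = μ / (56 * n) := by rw [H.hK]; field_simp
    calc L * (2 * ρ) ≤ L * (2 * (1 / (2 * K * n))) := by gcongr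
      _ = μ / (56 * n) := h7
      _ ≤ μ / (16 * n) := by
          apply div_le_div_of_nonneg_left hμ0.le (by positivity)
          nlinarith
  have hdev : ∀ x : ℂ, ‖x‖ ≤ r →
      ‖(cp D P i).eval (sg i s * x ^ n) - (cp D P i).eval 0‖ ≤ μ / (16 * n) ∧
      ‖(cp D Q i).eval (sg i s * x ^ n) - (cp D Q i).eval 0‖ ≤ μ / (16 * n) := by
    intro x hx
    have h4 := H.h.lip i _ 0 (h3 x hx) (by simp)
    rw [sub_zero] at h4
    have h5 := mul_le_mul_of_nonneg_left (H.chart_dev i hx) (by linarith : 0 ≤ L)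
    exact ⟨h4.1.trans (h5.trans hLρ), h4.2.trans (h5.trans hLρ)⟩
  refine ⟨κ, 1, fun x => co κ ((cp D P i).eval (sg i s * x ^ n))
    ((cp D Q i).eval (sg i s * x ^ n)), one_pos, ?_, ?_, ?_⟩
  · intro x hx
    rw [Function.iterate_one, map_ch' H.hD H.hD1 H.hn H.s_ne H.hf]
    exact (h1 _ _ (hdev x hx).1 (hdev x hx).2).1
  · intro x hx
    have h8 := (h1 _ _ (hdev x hx).1 (hdev x hx).2).2
    have e : 2 * w / 2 = w := by ring
    rw [e, ← H.hr] at h8
    exact h8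
  · intro x y hx hy
    refine (h2 _ _ _ _ (hdev x hx).1 (hdev x hx).2 (hdev y hy).1 (hdev y hy).2).trans ?_
    have h14 := H.h.lip i _ _ (h3 x hx) (h3 y hy)
    have h15 := mul_le_mul_of_nonneg_left (H.chart_lip i hx hy) (by linarith : 0 ≤ L)
    calc 2 / μ * (‖(cp D P i).eval (sg i s * x ^ n) - (cp D P i).eval (sg i s * y ^ n)‖ +
          ‖(cp D Q i).eval (sg i s * x ^ n) - (cp D Q i).eval (sg i s * y ^ n)‖)
        ≤ 2 / μ * (2 * (L * (4 * n * ρ * ‖x - y‖))) := by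
          apply mul_le_mul_of_nonneg_left _ (by positivity); linarith
      _ = 8 / 56 * (2 * K * n * ρ * ‖x - y‖) := by rw [H.hK]; field_simp; ring
      _ ≤ 8 / 56 * (1 * ‖x - y‖) := by
          have h16 := H.pw (k := 1) (by omega)
          rw [pow_one] at h16
          gcongr
      _ ≤ _ := by
          have := norm_nonneg (x - y)
          linarith

theorem chart_alt (H : Par P Q D L μ K n m₀ w r ρ s f) (i : Bool)
    (hfine : FineP P Q n m₀ (2 * w) ((cp D P i).eval 0) ((cp D Q i).eval 0)) :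
    Attr f r i ∨ Loop f r i := by
  have hK56 := H.h.K_ge H.hK
  have hK0 : 0 < K := by linarith
  have hn1 : (1 : ℝ) ≤ n := by exact_mod_cast H.hn
  have hρ0 := H.ρ0
  rcases hfine with hg | ⟨he, hv⟩
  · exact Or.inr (chart_good H i hg)
  · obtain ⟨c, hc1, hc2⟩ := chart_circ H i he
    have hμP : μ ≤ ‖(cp D P i).eval 0‖ := by
      have := H.h.cen i; rw [← he] at this; simpa using this
    have hbase : ‖(cp D P i).eval 0 / (cp D Q i).eval 0‖ = 1 := by
      rw [norm_div, he, div_self]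
      have := H.h.μ0
      rw [← he]; linarith
    rcases v_alt H hbase hv with ⟨κ, τ, g, h1, h2⟩ | h1
    · right
      refine ⟨κ, τ + 1, fun x => g (c x), by omega, ?_, ?_, ?_⟩
      · intro x hx
        rw [Function.iterate_succ_apply, (hc1 x hx).1]
        exact (h1 _ (hc1 x hx).2).1
      · intro x hx
        exact (h1 _ (hc1 x hx).2).2
      · intro x y hx hy
        refine (h2 _ _ (hc1 x hx).2 (hc1 y hy).2).trans ?_
        have h3 := hc2 x y hx hy
        calc (K * n) ^ (m₀ + 1) * ‖c x - c y‖ ≤ (K * n) ^ (m₀ + 1) * (2 * K * n * ρ * ‖x - y‖) :=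
              mul_le_mul_of_nonneg_left h3 (by positivity)
          _ ≤ ((2 * K * n) ^ (m₀ + 1) / 2) * (2 * K * n * ρ * ‖x - y‖) := by
              apply mul_le_mul_of_nonneg_right _ (by positivity)
              have h4 : (2 * K * n) ^ (m₀ + 1) = 2 ^ (m₀ + 1) * (K * n) ^ (m₀ + 1) := by
                rw [← mul_pow]; congr 1; ring
              rw [h4]
              have h5 : (2 : ℝ) ≤ 2 ^ (m₀ + 1) := by
                calc (2:ℝ) = 2 ^ 1 := by norm_num
                  _ ≤ 2 ^ (m₀ + 1) := pow_le_pow_right₀ (by norm_num) (by omega)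
              have h6 : 0 ≤ (K * n) ^ (m₀ + 1) := by positivity
              nlinarith
          _ = ((2 * K * n) ^ (m₀ + 2) * ρ) * ((1 / 2) * ‖x - y‖) := by
              rw [pow_succ (2 * K * n) (m₀ + 1)]; ring
          _ ≤ 1 * ((1 / 2) * ‖x - y‖) := by
              apply mul_le_mul_of_nonneg_right (H.pw (by omega)) (by positivity)
          _ = _ := one_mul _
    · left
      intro x hx
      apply sinks_of_image H.hf.cont
      rw [(hc1 x hx).1]
      exact h1 _ (hc1 x hx).2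

/-- If the chart discs are attracted then so are the fine values. -/
theorem fine_sinks (H : Par P Q D L μ K n m₀ w r ρ s f) (hA : ∀ i, Attr f r i) {p q : ℂ}
    (hpq : p ≠ 0 ∨ q ≠ 0) (hfine : FineP P Q n m₀ (2 * w) p q) : Sinks f (pr p q) := by
  have hK56 := H.h.K_ge H.hK
  have hρ0 := H.ρ0
  have hw := H.hw
  have hexp : Real.exp (-(2 * w)) ≤ r := by rw [H.hr, Real.exp_le_exp]; linarith
  rcases hfine with hg | ⟨he, hv⟩
  · rcases hg with hg | hg
    · have hq : q ≠ 0 := by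
        rintro rfl
        rw [norm_zero, mul_zero] at hg
        exact hpq.elim (fun h => h (norm_le_zero_iff.1 hg)) (fun h => h rfl)
      have hq' : 0 < ‖q‖ := norm_pos_iff.2 hq
      have := hA false (p / q) (by
        rw [norm_div, div_le_iff₀ hq']
        exact hg.trans (mul_le_mul_of_nonneg_right hexp hq'.le))
      rw [ch_false] at this
      rw [pr_ne hq]
      exact this
    · have hp : p ≠ 0 := by
        rintro rfl
        rw [norm_zero, mul_zero] at hg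
        exact hpq.elim (fun h => h rfl) (fun h => h (norm_le_zero_iff.1 hg))
      have hp' : 0 < ‖p‖ := norm_pos_iff.2 hp
      have := hA true (q / p) (by
        rw [norm_div, div_le_iff₀ hp']
        exact hg.trans (mul_le_mul_of_nonneg_right hexp hp'.le))
      simp only [ch_true] at this
      rwa [← pr_ne hp, sinv_pr (Or.inr hp)] at this
  · have hq : q ≠ 0 := by
      rintro rfl
      rw [norm_zero, norm_eq_zero] at he
      exact hpq.elim (fun h => h he) (fun h => h rfl)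
    have hbase : ‖p / q‖ = 1 := by
      rw [norm_div, he, div_self (norm_ne_zero_iff.2 hq)]
    rw [pr_ne hq]
    have h0 : ‖p / q - p / q‖ ≤ K * ρ := by rw [sub_self, norm_zero]; positivity
    rcases v_alt H hbase hv with ⟨κ, τ, g, h1, -⟩ | h1
    · apply sinks_of_iterate H.hf.cont τ
      rw [(h1 _ h0).1]
      exact hA κ _ (h1 _ h0).2.le
    · exact h1 _ h0

/-- The main criterion. -/
theorem attr_all (H : Par P Q D L μ K n m₀ w r ρ s f)
    (hfine : ∀ i : Bool, FineP P Q n m₀ (2 * w) ((cp D P i).eval 0) ((cp D Q i).eval 0)) :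
    ∀ i, Attr f r i :=
  attr_of_alt H.hf.cont H.r0 fun i => chart_alt H i (hfine i)

end main

/-- The choice of the radius. -/
theorem exists_par {P Q : Polynomial ℂ} {D : ℕ} {L μ K : ℝ} (h : Cst P Q D L μ)
    (hK : K = 56 * L / μ) (m₀ : ℕ) :
    ∃ C : ℝ, 1 ≤ C ∧ ∃ n₀ : ℕ, 3 ≤ n₀ ∧ ∀ n : ℕ, n₀ ≤ n → ∀ w r ρ : ℝ, w = C * Real.log n / n →
      r = Real.exp (-w) → ρ = r ^ n →
      0 < w ∧ 1 / 2 ≤ r ∧ 1 / (4 * n) ≤ r * (1 - r) ∧
        (2 * K * n) ^ (2 * m₀ + 4) * ρ ≤ 1 := by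
  have hK56 := h.K_ge hK
  have hK0 : 0 < K := by linarith
  set M := 2 * m₀ + 4 with hM
  have hlim : Tendsto (fun n : ℕ => ((M : ℝ) + 1) * Real.log n / n) atTop (𝓝 0) := by
    have h1 : Tendsto (fun x : ℝ => Real.log x / x) atTop (𝓝 0) := by
      simpa using Real.isLittleO_log_id_atTop.tendsto_div_nhds_zero
    have h2 := (h1.comp tendsto_natCast_atTop_atTop).const_mul ((M : ℝ) + 1)
    rw [mul_zero] at h2
    refine h2.congr fun n => ?_
    simp only [Function.comp_apply]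
    ring
  obtain ⟨n₁, hn₁⟩ := eventually_atTop.1 (hlim.eventually (ge_mem_nhds (by norm_num :
    (0 : ℝ) < 1 / 2)))
  obtain ⟨n₂, hn₂⟩ := exists_nat_ge ((2 * K) ^ M)
  refine ⟨(M : ℝ) + 1, by have : (0:ℝ) ≤ M := Nat.cast_nonneg M; linarith,
    max (max n₁ n₂) 3, le_max_right _ _, ?_⟩
  intro n hn w r ρ hw hr hρ
  have hn3 : 3 ≤ n := le_of_max_le_right hn
  have hnn₁ : n₁ ≤ n := le_of_max_le_left (le_of_max_le_left hn)
  have hnn₂ : n₂ ≤ n := le_of_max_le_right (le_of_max_le_left hn)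
  have hn3' : (3 : ℝ) ≤ n := by exact_mod_cast hn3
  have hn0 : (0 : ℝ) < n := by linarith
  have hlog : 1 < Real.log n := by
    rw [Real.lt_log_iff_exp_lt hn0]
    have he : Real.exp 1 < 2.7182818286 := Real.exp_one_lt_d9
    linarith
  have hM0 : (0 : ℝ) ≤ M := Nat.cast_nonneg M
  have hw0 : 0 < w := by rw [hw]; positivity
  have hwn : 1 / (n : ℝ) ≤ w := by
    rw [hw]
    apply div_le_div_of_nonneg_right _ hn0.le
    nlinarith
  have hwhalf : w ≤ 1 / 2 := by rw [hw]; exact hn₁ n hnn₁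
  have hr2 : 1 / 2 ≤ r := by
    rw [hr]; have := Real.add_one_le_exp (-w); linarith
  refine ⟨hw0, hr2, ?_, ?_⟩
  · have h1 : 1 / (2 * n) ≤ 1 - r := by
      have e1 : r ≤ 1 / (1 + w) := by
        rw [hr, Real.exp_neg, ← one_div]
        apply one_div_le_one_div_of_le (by linarith)
        linarith [Real.add_one_le_exp w]
      have e2 : 1 / (1 + w) ≤ 1 - w / 2 := by
        rw [div_le_iff₀ (by linarith)]
        nlinarith
      have e3 : 1 / (2 * (n : ℝ)) = (1 / n) / 2 := by field_simp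
      rw [e3]
      linarith
    have h2 : 0 ≤ 1 / (2 * (n : ℝ)) := by positivity
    calc 1 / (4 * (n : ℝ)) = (1 / 2) * (1 / (2 * n)) := by field_simp; norm_num
      _ ≤ r * (1 - r) := mul_le_mul hr2 h1 h2 (by linarith)
  · have h1 : ρ = ((n : ℝ) ^ (M + 1))⁻¹ := by
      rw [hρ, hr, ← Real.exp_nat_mul]
      have e1 : (n : ℝ) * -w = -(((M + 1 : ℕ) : ℝ) * Real.log n) := by
        rw [hw]; push_cast; field_simp
      rw [e1, Real.exp_neg, Real.exp_nat_mul, Real.exp_log hn0]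
    rw [h1, mul_pow]
    have h2 : (2 * K) ^ M ≤ n := hn₂.trans (by exact_mod_cast hnn₂)
    calc (2 * K) ^ M * (n : ℝ) ^ M * ((n : ℝ) ^ (M + 1))⁻¹ ≤ n * (n : ℝ) ^ M * ((n : ℝ) ^ (M + 1))⁻¹ := by
          gcongr
      _ = 1 := by
          rw [show (n : ℝ) * (n : ℝ) ^ M = (n : ℝ) ^ (M + 1) from by rw [pow_succ]; ring]
          exact mul_inv_cancel₀ (pow_ne_zero _ hn0.ne')

end Pool.Agent.TH864.ZO
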