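import Pool.Agent.TH864.ZO.ZD
import Pool.Agent.Helper202.Univ

/-!
# The maps `P(z ^ n) / Q(z ^ n)`: orbits ending in repelling cycles
-/

set_option autoImplicit false

open Set Filter Topology
open scoped OnePoint

namespace Pool.Agent.TH864.ZO

open Pool.Agent.H762R2.Rt Pool.Agent.Helper114.Herman Pool.Agent.Helper114.Konig
open Pool.Agent.H462R2.AP

/-- The image of an attracted point is attracted. -/
theorem sinks_image {X : Type*} [TopologicalSpace X] {g : X → X} (hg : Continuous g) {c : X}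
    (h : Sinks g c) : Sinks g (g c) := by
  obtain ⟨z, n, hn, hz, ⟨U, hU, hUt⟩, hc⟩ := h
  obtain ⟨m, rfl⟩ : ∃ m, n = m + 1 := ⟨n - 1, by omega⟩
  refine ⟨g z, m + 1, hn, ?_, ⟨g^[m] ⁻¹' U, ?_, ?_⟩, ?_⟩
  · rw [← Function.iterate_succ_apply, Function.iterate_succ_apply', hz]
  · apply (hg.iterate m).continuousAt.preimage_mem_nhds
    rw [← Function.iterate_succ_apply, hz]
    exact hU
  · intro w hw
    have h1 := (hg.tendsto z).comp (hUt _ hw)
    rw [← tendsto_add_atTop_iff_nat 1]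
    refine h1.congr fun k => ?_
    show g (g^[(m + 1) * k] (g^[m] w)) = g^[(m + 1) * (k + 1)] w
    rw [← Function.iterate_add_apply, ← Function.iterate_succ_apply' g]
    congr 2
  · refine ((hg.tendsto z).comp hc).congr fun k => ?_
    show g (g^[(m + 1) * k] c) = g^[(m + 1) * k] (g c)
    rw [← Function.iterate_succ_apply' g, Function.iterate_succ_apply]

theorem sinks_iterate {X : Type*} [TopologicalSpace X] {g : X → X} (hg : Continuous g) {c : X}
    (h : Sinks g c) (m : ℕ) : Sinks g (g^[m] c) := by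
  induction m with
  | zero => exact h
  | succ m ih => rw [Function.iterate_succ_apply']; exact sinks_image hg ih

section main

variable {P Q : Polynomial ℂ} {D : ℕ} {n : ℕ} {f : OnePoint ℂ → OnePoint ℂ}

theorem st_one (P Q : Polynomial ℂ) (n : ℕ) (y : ℂ) :
    st P Q n 1 y = P.eval (y ^ n) / Q.eval (y ^ n) := by
  rw [st, one_mul]

theorem st_hasDerivAt {s x : ℂ} (hQ : Q.eval (s * x ^ n) ≠ 0) :
    HasDerivAt (st P Q n s)
      ((wro P Q).eval (s * x ^ n) / (Q.eval (s * x ^ n)) ^ 2 * (s * (n * x ^ (n - 1)))) x := by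
  have h1 : HasDerivAt (fun x : ℂ => s * x ^ n) (s * (n * x ^ (n - 1))) x :=
    (hasDerivAt_pow n x).const_mul s
  have h2 := (P.hasDerivAt (s * x ^ n)).comp x h1
  have h3 := (Q.hasDerivAt (s * x ^ n)).comp x h1
  have h4 := h2.div h3 hQ
  refine h4.congr_deriv ?_
  simp only [wro, Polynomial.eval_sub, Polynomial.eval_mul, Function.comp_apply]
  field_simp

/-- The iterates near a point whose orbit avoids the poles. -/
theorem iter_near (hD : D = max P.natDegree Q.natDegree) (hD1 : 0 < D) (hn : 0 < n)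
    (hf : IsM P Q n 1 f) {x : ℂ}
    (hQ : ∀ i, Q.eval (((st P Q n 1)^[i] x) ^ n) ≠ 0)
    (hex : ∀ i, 1 < ‖(wro P Q).eval (((st P Q n 1)^[i] x) ^ n) /
      (Q.eval (((st P Q n 1)^[i] x) ^ n)) ^ 2 * (n * ((st P Q n 1)^[i] x) ^ (n - 1))‖) (m : ℕ) :
    ∃ lam : ℂ, HasDerivAt ((st P Q n 1)^[m]) lam x ∧ 1 ≤ ‖lam‖ ∧ (0 < m → 1 < ‖lam‖) ∧
      ∀ᶠ y : ℂ in 𝓝 x, f^[m] (y : OnePoint ℂ) = (((st P Q n 1)^[m] y : ℂ) : OnePoint ℂ) := by
  induction m with
  | zero =>
    refine ⟨1, hasDerivAt_id x, by simp, by simp, Eventually.of_forall fun y => rfl⟩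
  | succ m ih =>
    obtain ⟨lam, h1, h2, -, h3⟩ := ih
    have hQm : Q.eval (1 * ((st P Q n 1)^[m] x) ^ n) ≠ 0 := by rw [one_mul]; exact hQ m
    have h4 := (st_hasDerivAt (P := P) hQm).comp x h1
    rw [← Function.iterate_succ'] at h4
    have h5 := hex m
    simp only [one_mul] at h4
    refine ⟨_, h4, ?_, ?_, ?_⟩
    · rw [norm_mul]; nlinarith [norm_nonneg lam]
    · intro _; rw [norm_mul]; nlinarith [norm_nonneg lam]
    · have h6 : ContinuousAt (fun y => Q.eval (((st P Q n 1)^[m] y) ^ n)) x := by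
        have : Continuous fun y : ℂ => Q.eval (y ^ n) := by fun_prop
        exact this.continuousAt.comp h1.continuousAt
      filter_upwards [h3, h6.eventually_ne (hQ m)] with y hy hy'
      rw [Function.iterate_succ_apply', hy, Function.iterate_succ_apply',
        map_st hD hD1 hn one_ne_zero hf (by rw [one_mul]; exact hy')]

/-- Points with a finite orbit along which the map is expanding are not attracted. -/
theorem not_sinks (hD : D = max P.natDegree Q.natDegree) (hD1 : 0 < D) (hn : 0 < n)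
    (hf : IsM P Q n 1 f) {v : ℂ} (hfin : (Set.range fun i => (st P Q n 1)^[i] v).Finite)
    (hQ : ∀ i, Q.eval (((st P Q n 1)^[i] v) ^ n) ≠ 0)
    (hex : ∀ i, 1 < ‖(wro P Q).eval (((st P Q n 1)^[i] v) ^ n) /
      (Q.eval (((st P Q n 1)^[i] v) ^ n)) ^ 2 * (n * ((st P Q n 1)^[i] v) ^ (n - 1))‖) :
    ¬ Sinks f (v : OnePoint ℂ) := by
  rintro ⟨z, m, hm, hz, ⟨U, hU, hUt⟩, hc⟩
  have horb : ∀ k, f^[k] (v : OnePoint ℂ) = (((st P Q n 1)^[k] v : ℂ) : OnePoint ℂ) := fun k =>
    path_map hD hD1 hn one_ne_zero hf (fun i _ => by rw [one_mul]; exact hQ i) k le_rfl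
  -- the limit is a point of the orbit
  have hcl : IsClosed ((fun x : ℂ => (x : OnePoint ℂ)) ''
      (Set.range fun i => (st P Q n 1)^[i] v)) := (hfin.image _).isClosed
  have hzmem : z ∈ (fun x : ℂ => (x : OnePoint ℂ)) '' (Set.range fun i => (st P Q n 1)^[i] v) := by
    refine hcl.mem_of_tendsto hc (Eventually.of_forall fun k => ?_)
    rw [horb]
    exact ⟨_, ⟨_, rfl⟩, rfl⟩
  obtain ⟨x, ⟨j, rfl⟩, rfl⟩ := hzmem
  simp only at *
  set x := (st P Q n 1)^[j] v with hx
  have hQ' : ∀ i, Q.eval (((st P Q n 1)^[i] x) ^ n) ≠ 0 := by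
    intro i
    rw [hx, ← Function.iterate_add_apply]
    exact hQ _
  have hex' : ∀ i, 1 < ‖(wro P Q).eval (((st P Q n 1)^[i] x) ^ n) /
      (Q.eval (((st P Q n 1)^[i] x) ^ n)) ^ 2 * (n * ((st P Q n 1)^[i] x) ^ (n - 1))‖ := by
    intro i
    rw [hx, ← Function.iterate_add_apply]
    exact hex _
  obtain ⟨lam, h1, -, h2, h3⟩ := iter_near hD hD1 hn hf hQ' hex' m
  have hlam := h2 hm
  have hGx : (st P Q n 1)^[m] x = x := by
    have h4 := h3.self_of_nhds
    rw [hz, OnePoint.coe_eq_coe] at h4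
    exact h4.symm
  -- expansion near `x`
  set q : ℝ := (1 + ‖lam‖) / 2 with hq
  have hq1 : 1 < q := by rw [hq]; linarith
  have hexp : ∀ᶠ y in 𝓝 x, q * ‖y - x‖ ≤ ‖(st P Q n 1)^[m] y - x‖ := by
    have h5 := (hasDerivAt_iff_isLittleO.1 h1).def (c := (‖lam‖ - 1) / 2) (by linarith)
    filter_upwards [h5] with y hy
    rw [hGx, smul_eq_mul] at hy
    have h6 : ‖(y - x) * lam‖ ≤ ‖(st P Q n 1)^[m] y - x‖ +
        ‖(st P Q n 1)^[m] y - x - (y - x) * lam‖ := by
      have := norm_sub_norm_le ((y - x) * lam) ((st P Q n 1)^[m] y - x)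
      rw [norm_sub_rev ((y - x) * lam)] at this
      linarith
    rw [norm_mul] at h6
    rw [hq]
    nlinarith [norm_nonneg (y - x)]
  obtain ⟨δ, hδ, hball⟩ := Metric.eventually_nhds_iff.1 (hexp.and h3)
  -- all points of `U` are mapped to `x`
  have hmap : ∀ y : ℂ, (y : OnePoint ℂ) ∈ U → ∃ k, f^[k] (y : OnePoint ℂ) = (x : OnePoint ℂ) := by
    intro y hy
    have h7 := hUt _ hy
    have h8 : (fun t : ℂ => (t : OnePoint ℂ)) '' Metric.ball x δ ∈ 𝓝 (x : OnePoint ℂ) :=
      (OnePoint.isOpenEmbedding_coe (X := ℂ)).isOpenMap.image_mem_nhds (Metric.ball_mem_nhds x hδ)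
    obtain ⟨k₀, hk₀⟩ := eventually_atTop.1 (h7.eventually h8)
    choose! t ht1 ht2 using hk₀
    have hstep : ∀ k, k₀ ≤ k → t (k + 1) = (st P Q n 1)^[m] (t k) := by
      intro k hk
      have h9 := ht2 (k + 1) (by omega)
      simp only at h9
      rw [show m * (k + 1) = m + m * k by ring, Function.iterate_add_apply, ← ht2 k hk,
        (hball (Metric.mem_ball.1 (ht1 k hk))).2, OnePoint.coe_eq_coe] at h9
      exact h9
    have hgrow : ∀ i, q ^ i * ‖t k₀ - x‖ ≤ ‖t (k₀ + i) - x‖ := by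
      intro i
      induction i with
      | zero => simp
      | succ i ih =>
        rw [← add_assoc, hstep (k₀ + i) (by omega)]
        refine le_trans ?_ (hball (Metric.mem_ball.1 (ht1 (k₀ + i) (by omega)))).1
        rw [pow_succ]
        nlinarith
    have hzero : ‖t k₀ - x‖ = 0 := by
      by_contra hne
      have hpos : 0 < ‖t k₀ - x‖ := lt_of_le_of_ne (norm_nonneg _) (Ne.symm hne)
      obtain ⟨i, hi⟩ := pow_unbounded_of_one_lt (δ / ‖t k₀ - x‖) hq1
      rw [div_lt_iff₀ hpos] at hi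
      have h10 := hgrow i
      have h11 := ht1 (k₀ + i) (by omega)
      rw [Metric.mem_ball, dist_eq_norm] at h11
      linarith
    refine ⟨m * k₀, ?_⟩
    rw [← ht2 k₀ le_rfl]
    simp only
    rw [norm_eq_zero, sub_eq_zero] at hzero
    rw [hzero]
  -- countability
  have hd0 : 0 < max (Polynomial.expand ℂ n (sc 1 P)).natDegree
      (Polynomial.expand ℂ n (sc 1 Q)).natDegree := by
    rw [Polynomial.natDegree_expand, Polynomial.natDegree_expand, sc_one, sc_one,
      ← max_mul_of_nonneg _ _ (Nat.zero_le n), ← hD]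
    exact Nat.mul_pos hD1 hn
  have hfib : ∀ k, (f^[k] ⁻¹' {(x : OnePoint ℂ)}).Finite := by
    intro k
    induction k with
    | zero => simp
    | succ k ih =>
      rw [Function.iterate_succ, Set.preimage_comp]
      exact ih.preimage' fun b _ => finite_fiber hf hd0 b
  have hcount : {y : ℂ | (y : OnePoint ℂ) ∈ U}.Countable := by
    have h12 : {y : ℂ | (y : OnePoint ℂ) ∈ U} ⊆
        ⋃ k, (fun y : ℂ => (y : OnePoint ℂ)) ⁻¹' (f^[k] ⁻¹' {(x : OnePoint ℂ)}) := by
      intro y hy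
      obtain ⟨k, hk⟩ := hmap y hy
      exact Set.mem_iUnion.2 ⟨k, hk⟩
    refine (Set.countable_iUnion fun k => ?_).mono h12
    exact ((hfib k).preimage (OnePoint.coe_injective.injOn)).countable
  have hnhds : {y : ℂ | (y : OnePoint ℂ) ∈ U} ∈ 𝓝 x :=
    (OnePoint.continuous_coe (X := ℂ)).continuousAt.preimage_mem_nhds hU
  obtain ⟨y, hy1, hy2⟩ := (hcount.dense_compl ℝ).inter_nhds_nonempty hnhds
  exact hy1 hy2

theorem ch_inj (i : Bool) : Function.Injective (ch i) := by
  cases i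
  · rw [ch_false]; exact OnePoint.coe_injective
  · rw [ch_true]
    intro a b hab
    have h1 := congrArg sinv hab
    simp only [sinv_sinv] at h1
    exact OnePoint.coe_injective h1

/-- The centres of the charts are critical. -/
theorem not_inj_centre (hD : D = max P.natDegree Q.natDegree) (hD1 : 0 < D) (hn : 2 ≤ n)
    (hf : IsM P Q n 1 f) (i : Bool) : ¬ ∃ U ∈ 𝓝 (ch i 0), Set.InjOn f U := by
  rintro ⟨U, hU, hinj⟩
  have hprim := Complex.isPrimitiveRoot_exp n (by omega)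
  set ζ := Complex.exp (2 * Real.pi * Complex.I / n) with hζ
  have hζ1 : ζ ≠ 1 := hprim.ne_one (by omega)
  have hζn : ζ ^ n = 1 := hprim.pow_eq_one
  have h1 : ∀ᶠ x in 𝓝 (0 : ℂ), ch i x ∈ U :=
    (continuous_ch i).continuousAt.preimage_mem_nhds hU
  have h2 : ∀ᶠ x in 𝓝 (0 : ℂ), ch i (ζ * x) ∈ U := by
    have : Continuous fun x : ℂ => ch i (ζ * x) :=
      (continuous_ch i).comp (continuous_const.mul continuous_id)
    apply this.continuousAt.preimage_mem_nhds
    rw [mul_zero]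
    exact hU
  have h3 : ∀ᶠ x in 𝓝[≠] (0 : ℂ), ch i x ∈ U ∧ ch i (ζ * x) ∈ U ∧ x ≠ 0 := by
    filter_upwards [h1.filter_mono nhdsWithin_le_nhds, h2.filter_mono nhdsWithin_le_nhds,
      self_mem_nhdsWithin] with x a b c using ⟨a, b, c⟩
  obtain ⟨x, hx1, hx2, hx3⟩ := h3.exists
  have h4 : f (ch i x) = f (ch i (ζ * x)) := by
    rw [map_ch' hD hD1 (by omega) one_ne_zero hf, map_ch' hD hD1 (by omega) one_ne_zero hf,
      mul_pow, hζn, one_mul]
  have h5 := ch_inj i (hinj hx1 hx2 h4)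
  have h6 : (ζ - 1) * x = 0 := by rw [sub_mul, ← h5]; ring
  rcases mul_eq_zero.1 h6 with h | h
  · exact hζ1 (sub_eq_zero.1 h)
  · exact hx3 h

/-- The preimages of the critical points are critical. -/
theorem not_inj_crit (hf : IsM P Q n 1 f) {z : ℂ} (hQ : Q.eval (z ^ n) ≠ 0)
    (hW : (wro P Q).eval (z ^ n) = 0) : ¬ ∃ U ∈ 𝓝 (z : OnePoint ℂ), Set.InjOn f U := by
  rintro ⟨U, hU, hinj⟩
  have h1 : {y : ℂ | (y : OnePoint ℂ) ∈ U} ∈ 𝓝 z :=
    (OnePoint.continuous_coe (X := ℂ)).continuousAt.preimage_mem_nhds hU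
  have h2 : {y : ℂ | Q.eval (y ^ n) ≠ 0} ∈ 𝓝 z := by
    have : Continuous fun y : ℂ => Q.eval (y ^ n) := by fun_prop
    exact this.continuousAt.eventually_ne hQ
  obtain ⟨δ, hδ, hball⟩ := Metric.mem_nhds_iff.1 (inter_mem h1 h2)
  have hev : ∀ y ∈ Metric.ball z δ, f (y : OnePoint ℂ) = ((st P Q n 1 y : ℂ) : OnePoint ℂ) := by
    intro y hy
    have h3 := (hball hy).2
    have h4 := hf.eval y (by rwa [sc_one, Polynomial.expand_eval])
    rw [h4, sc_one, sc_one, Polynomial.expand_eval, Polynomial.expand_eval, st_one]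
  have hdiff : DifferentiableOn ℂ (st P Q n 1) (Metric.ball z δ) := by
    intro y hy
    have h3 := (hball hy).2
    exact (st_hasDerivAt (by rw [one_mul]; exact h3)).differentiableAt.differentiableWithinAt
  have hinj' : Set.InjOn (st P Q n 1) (Metric.ball z δ) := by
    intro a ha b hb hab
    have h5 : f (a : OnePoint ℂ) = f (b : OnePoint ℂ) := by rw [hev a ha, hev b hb, hab]
    exact OnePoint.coe_injective (hinj (hball ha).1 (hball hb).1 h5)
  have h6 := Pool.Agent.Helper202.Univ.deriv_ne_zero Metric.isOpen_ball hdiff hinj'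
    (Metric.mem_ball_self hδ)
  apply h6
  rw [(st_hasDerivAt (by rw [one_mul]; exact hQ)).deriv]
  rw [one_mul, hW, zero_div, zero_mul]

/-- The finite critical values of all the maps `P(z ^ n) / Q(z ^ n)`. -/
def Marked (P Q : Polynomial ℂ) (D : ℕ) (v : ℂ) : Prop :=
  (Q.eval 0 ≠ 0 ∧ v = P.eval 0 / Q.eval 0) ∨ (Q.coeff D ≠ 0 ∧ v = P.coeff D / Q.coeff D) ∨
    ∃ y : ℂ, (wro P Q).eval y = 0 ∧ Q.eval y ≠ 0 ∧ v = P.eval y / Q.eval y

/-- A hyperbolic map attracts all the marked points. -/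
theorem sinks_of_hyp (hD : D = max P.natDegree Q.natDegree) (hD1 : 0 < D) (hn : 2 ≤ n)
    (hf : IsM P Q n 1 f) (hhyp : Hyp (Polynomial.expand ℂ n P) (Polynomial.expand ℂ n Q)) {v : ℂ}
    (hv : Marked P Q D v) : Sinks f (v : OnePoint ℂ) := by
  have hn0 : 0 < n := by omega
  obtain ⟨hcop, g, hg, hgev, hgs⟩ := hhyp
  have hfg : f = g := by
    have hne : Polynomial.expand ℂ n Q ≠ 0 := by
      have := hf.ne
      rwa [sc_one] at this
    have hgR : IsM P Q n 1 g := by
      refine ⟨hg, ?_, ?_, ?_⟩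
      · rw [sc_one, sc_one]; exact hcop
      · rw [sc_one]; exact hne
      · rw [sc_one, sc_one]; exact hgev
    funext x
    obtain ⟨a, b, hab, rfl⟩ := exists_pr x
    have hdeg : D * n = max (Polynomial.expand ℂ n (sc 1 P)).natDegree
        (Polynomial.expand ℂ n (sc 1 Q)).natDegree := by
      rw [Polynomial.natDegree_expand, Polynomial.natDegree_expand, sc_one, sc_one,
        ← max_mul_of_nonneg _ _ (Nat.zero_le n), ← hD]
    rw [rat_formula hf hdeg (Nat.mul_pos hD1 hn0) hab,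
      rat_formula hgR hdeg (Nat.mul_pos hD1 hn0) hab]
  subst hfg
  rcases hv with ⟨hq, rfl⟩ | ⟨hq, rfl⟩ | ⟨y, hy, hq, rfl⟩
  · have h1 := sinks_image hf.cont (hgs _ (not_inj_centre hD hD1 hn hf false))
    rw [map_ch' hD hD1 hn0 one_ne_zero hf, zero_pow hn0.ne', mul_zero, cp_false, cp_false,
      pr_ne hq] at h1
    exact h1
  · have h1 := sinks_image hf.cont (hgs _ (not_inj_centre hD hD1 hn hf true))
    rw [map_ch' hD hD1 hn0 one_ne_zero hf, zero_pow hn0.ne', mul_zero, eval_cp_true_zero,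
      eval_cp_true_zero, pr_ne hq] at h1
    exact h1
  · obtain ⟨z, hz⟩ := IsAlgClosed.exists_pow_nat_eq y hn0
    have h1 := sinks_image hf.cont (hgs _ (not_inj_crit hf (z := z) (by rwa [hz]) (by rwa [hz])))
    rw [map_pl hD hD1 hn0 one_ne_zero hf, one_mul, hz, pr_ne hq] at h1
    exact h1

end main

end Pool.Agent.TH864.ZO
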