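import Pool.Agent.TH864.ZO.ZE

/-!
# The maps `P(s z ^ n) / Q(s z ^ n)`: linearization along orbits ending in repelling cycles
-/

set_option autoImplicit false

open Set Filter Topology
open scoped OnePoint

namespace Pool.Agent.TH864.ZO

open Pool.Agent.H762R2.Rt Pool.Agent.Helper114.Herman Pool.Agent.Helper114.Konig
open Pool.Agent.H462R2.AP

theorem taylor_two {f : ℂ → ℂ} {u : ℂ} (h : AnalyticAt ℂ f u) :
    ∃ K δ : ℝ, 0 < δ ∧ 0 ≤ K ∧ ∀ a, ‖a - u‖ ≤ δ →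
      ‖f a - f u - deriv f u * (a - u)‖ ≤ K * ‖a - u‖ ^ 2 := by
  obtain ⟨p, hp⟩ := h
  have h1 := hp.isBigO_sub_partialSum_pow 2
  obtain ⟨K, hK⟩ := h1.bound
  rw [Metric.eventually_nhds_iff] at hK
  obtain ⟨δ, hδ, hK⟩ := hK
  refine ⟨|K|, δ / 2, by positivity, abs_nonneg _, fun a ha => ?_⟩
  have h2 := hK (y := a - u) (by rw [dist_zero_right]; linarith)
  have e1 : p.partialSum 2 (a - u) = f u + deriv f u * (a - u) := by
    rw [FormalMultilinearSeries.partialSum, Finset.sum_range_succ, Finset.sum_range_one,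
      FormalMultilinearSeries.apply_eq_pow_smul_coeff,
      FormalMultilinearSeries.apply_eq_pow_smul_coeff, hp.deriv]
    have e4 : p.coeff 0 = f u := hp.coeff_zero _
    have e5 : p.coeff 1 = p 1 fun _ => 1 := rfl
    rw [e4, e5, smul_eq_mul, smul_eq_mul]
    ring
  rw [e1, add_sub_cancel] at h2
  have e5 : f a - f u - deriv f u * (a - u) = f a - (f u + deriv f u * (a - u)) := by ring
  rw [e5]
  refine h2.trans ?_
  rw [Real.norm_eq_abs, abs_of_nonneg (by positivity)]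
  gcongr
  exact le_abs_self K

/-- The derivative of `P / Q`. -/
noncomputable def rd (P Q : Polynomial ℂ) (u : ℂ) : ℂ := (wro P Q).eval u / (Q.eval u) ^ 2

theorem rat_hasDerivAt {P Q : Polynomial ℂ} {u : ℂ} (hQ : Q.eval u ≠ 0) :
    HasDerivAt (fun a => P.eval a / Q.eval a) (rd P Q u) u := by
  have h := (P.hasDerivAt u).div (Q.hasDerivAt u) hQ
  refine h.congr_deriv ?_
  simp only [wro, rd, Polynomial.eval_sub, Polynomial.eval_mul]

theorem exists_quad {P Q : Polynomial ℂ} {E : Set ℂ} (hE : E.Finite)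
    (hQ : ∀ u ∈ E, Q.eval u ≠ 0) : ∃ K₂ δ₂ : ℝ, 0 < δ₂ ∧ 0 ≤ K₂ ∧ ∀ u ∈ E, ∀ a : ℂ,
      ‖a - u‖ ≤ δ₂ →
      ‖P.eval a / Q.eval a - P.eval u / Q.eval u - rd P Q u * (a - u)‖ ≤ K₂ * ‖a - u‖ ^ 2 := by
  induction E, hE using Set.Finite.induction_on with
  | empty => exact ⟨0, 1, one_pos, le_rfl, by simp⟩
  | @insert b E _ _ ih =>
    obtain ⟨K₂, δ₂, hδ₂, hK₂, h1⟩ := ih fun u hu => hQ u (Or.inr hu)
    have hb := hQ b (Or.inl rfl)
    have han : AnalyticAt ℂ (fun a => P.eval a / Q.eval a) b := by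
      have hP : AnalyticAt ℂ (fun a => P.eval a) b := P.differentiable.analyticAt b
      have hQ' : AnalyticAt ℂ (fun a => Q.eval a) b := Q.differentiable.analyticAt b
      exact hP.div hQ' hb
    obtain ⟨K', δ', hδ', hK', h2⟩ := taylor_two han
    rw [(rat_hasDerivAt hb).deriv] at h2
    refine ⟨K₂ + K', min δ₂ δ', lt_min hδ₂ hδ', by linarith, ?_⟩
    rintro u (rfl | hu) a ha
    · refine (h2 a (ha.trans (min_le_right _ _))).trans ?_
      apply mul_le_mul_of_nonneg_right _ (by positivity)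
      linarith
    · refine (h1 u hu a (ha.trans (min_le_left _ _))).trans ?_
      apply mul_le_mul_of_nonneg_right _ (by positivity)
      linarith

theorem pow_taylor {n : ℕ} (hn : 1 ≤ n) {x y : ℂ} (hx : ‖x‖ = 1) (hy : n * ‖y - x‖ ≤ 1) :
    ‖y ^ n - x ^ n - n * x ^ (n - 1) * (y - x)‖ ≤ 3 * (n * ‖y - x‖) ^ 2 := by
  have hn0 : (0 : ℝ) < n := by exact_mod_cast hn
  have hy1 := norm_le_of_near hn hx hy
  have hρ0 : 0 ≤ 1 / (n : ℝ) := by positivity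
  have hx1 : ‖x‖ ≤ 1 + 1 / (n : ℝ) := by rw [hx]; linarith
  have e0 : (∑ i ∈ Finset.range n, y ^ i * x ^ (n - 1 - i)) * (y - x) = y ^ n - x ^ n :=
    (Commute.all y x).geom_sum₂_mul n
  have e1 : (n : ℂ) * x ^ (n - 1) * (y - x) =
      (∑ i ∈ Finset.range n, x ^ i * x ^ (n - 1 - i)) * (y - x) := by
    congr 1
    have : ∀ i ∈ Finset.range n, x ^ i * x ^ (n - 1 - i) = x ^ (n - 1) := by
      intro i hi
      rw [← pow_add]
      congr 1
      have := Finset.mem_range.1 hi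
      omega
    rw [Finset.sum_congr rfl this]
    simp
  rw [← e0, e1, ← sub_mul, ← Finset.sum_sub_distrib, norm_mul]
  have hsum : ‖∑ i ∈ Finset.range n, (y ^ i * x ^ (n - 1 - i) - x ^ i * x ^ (n - 1 - i))‖ ≤
      n * (3 * n * ‖y - x‖) := by
    refine (norm_sum_le _ _).trans ?_
    have : ∀ i ∈ Finset.range n, ‖y ^ i * x ^ (n - 1 - i) - x ^ i * x ^ (n - 1 - i)‖ ≤
        3 * n * ‖y - x‖ := by
      intro i hi
      have hin : i < n := Finset.mem_range.1 hi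
      rw [← sub_mul, norm_mul, norm_pow, hx, one_pow, mul_one]
      refine (pow_lip hy1 hx1 i).trans ?_
      have h3 : (1 + 1 / (n : ℝ)) ^ (i - 1) ≤ 3 := by
        have h4 : (1 + 1 / (n : ℝ)) ^ n ≤ 3 := by
          have := pow_le_three hn (y := ((1 + 1 / (n : ℝ) : ℝ) : ℂ)) (by
            rw [Complex.norm_real, Real.norm_eq_abs, abs_of_nonneg (by linarith)])
          rwa [Complex.norm_real, Real.norm_eq_abs, abs_of_nonneg (by linarith)] at this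
        refine le_trans ?_ h4
        apply pow_le_pow_right₀ (by linarith) (by omega)
      have h5 : (i : ℝ) ≤ n := by exact_mod_cast hin.le
      calc (i : ℝ) * (1 + 1 / (n : ℝ)) ^ (i - 1) * ‖y - x‖ ≤ n * 3 * ‖y - x‖ := by gcongr
        _ = _ := by ring
    refine (Finset.sum_le_sum this).trans ?_
    simp
  calc _ ≤ n * (3 * n * ‖y - x‖) * ‖y - x‖ := mul_le_mul_of_nonneg_right hsum (norm_nonneg _)
    _ = _ := by ring

/-- Second order estimate for one step. -/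
theorem step_quad {P Q : Polynomial ℂ} {n : ℕ} (hn : 1 ≤ n) {K K₂ δ₂ : ℝ} {x : ℂ}
    (hx : ‖x‖ = 1) (hK₂ : 0 ≤ K₂) (hrd : ‖rd P Q (x ^ n)‖ ≤ K)
    (hq : ∀ a : ℂ, ‖a - x ^ n‖ ≤ δ₂ →
      ‖P.eval a / Q.eval a - P.eval (x ^ n) / Q.eval (x ^ n) - rd P Q (x ^ n) * (a - x ^ n)‖ ≤
        K₂ * ‖a - x ^ n‖ ^ 2) {s y : ℂ} (hs : ‖s - 1‖ ≤ 1) (hy : n * ‖y - x‖ ≤ 1)
    (hsm : 6 * (n * ‖y - x‖) + ‖s - 1‖ ≤ δ₂) :
    ‖st P Q n s y - st P Q n 1 x - (rd P Q (x ^ n) * (n * x ^ (n - 1)) * (y - x) +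
      rd P Q (x ^ n) * x ^ n * (s - 1))‖ ≤ (36 * K₂ + 3 * K) * (n * ‖y - x‖ + ‖s - 1‖) ^ 2 := by
  have hn0 : (0 : ℝ) < n := by exact_mod_cast hn
  have hdev := dev_est hn hx hy hs
  have h1 := hq (s * y ^ n) (hdev.trans hsm)
  have h2 := pow_taylor hn hx hy
  have hρ0 : 0 ≤ 1 / (n : ℝ) := by positivity
  have h3 := pow_sub_le hn (norm_le_of_near hn hx hy) (b := x) (by rw [hx]; linarith)
  set X : ℝ := n * ‖y - x‖ with hX
  set S : ℝ := ‖s - 1‖ with hS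
  have hX0 : 0 ≤ X := by positivity
  have hS0 : 0 ≤ S := norm_nonneg _
  have e : st P Q n s y - st P Q n 1 x - (rd P Q (x ^ n) * (n * x ^ (n - 1)) * (y - x) +
      rd P Q (x ^ n) * x ^ n * (s - 1)) =
      (P.eval (s * y ^ n) / Q.eval (s * y ^ n) - P.eval (x ^ n) / Q.eval (x ^ n) -
        rd P Q (x ^ n) * (s * y ^ n - x ^ n)) +
      rd P Q (x ^ n) * ((y ^ n - x ^ n - n * x ^ (n - 1) * (y - x)) +
        (s - 1) * (y ^ n - x ^ n)) := by
    rw [st_one]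
    simp only [st]
    ring
  rw [e]
  refine (norm_add_le _ _).trans ?_
  have h4 : K₂ * ‖s * y ^ n - x ^ n‖ ^ 2 ≤ K₂ * (6 * X + S) ^ 2 := by
    apply mul_le_mul_of_nonneg_left _ hK₂
    exact pow_le_pow_left₀ (norm_nonneg _) hdev 2
  have h5 : ‖rd P Q (x ^ n) * ((y ^ n - x ^ n - n * x ^ (n - 1) * (y - x)) +
        (s - 1) * (y ^ n - x ^ n))‖ ≤ K * (3 * X ^ 2 + S * (3 * X)) := by
    rw [norm_mul]
    have hK0 : 0 ≤ K := (norm_nonneg _).trans hrd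
    apply mul_le_mul hrd _ (norm_nonneg _) hK0
    refine (norm_add_le _ _).trans (add_le_add h2 ?_)
    rw [norm_mul]
    apply mul_le_mul_of_nonneg_left _ hS0
    rw [hX]; linarith
  have hK0 : 0 ≤ K := (norm_nonneg _).trans hrd
  have h6 : (6 * X + S) ^ 2 ≤ 36 * (X + S) ^ 2 := by nlinarith [mul_nonneg hX0 hS0]
  have h7 : 3 * X ^ 2 + S * (3 * X) ≤ 3 * (X + S) ^ 2 := by nlinarith [mul_nonneg hX0 hS0]
  have h8 : K₂ * (6 * X + S) ^ 2 ≤ K₂ * (36 * (X + S) ^ 2) := mul_le_mul_of_nonneg_left h6 hK₂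
  have h9 : K * (3 * X ^ 2 + S * (3 * X)) ≤ K * (3 * (X + S) ^ 2) :=
    mul_le_mul_of_nonneg_left h7 hK0
  calc _ ≤ K₂ * (6 * X + S) ^ 2 + K * (3 * X ^ 2 + S * (3 * X)) :=
        add_le_add (h1.trans h4) h5
    _ ≤ K₂ * (36 * (X + S) ^ 2) + K * (3 * (X + S) ^ 2) := add_le_add h8 h9
    _ = _ := by ring

/-- The orbit of `x` stays on the unit circle, with derivatives bounded below. -/
structure Tail (P Q : Polynomial ℂ) (n : ℕ) (c₀ K K₂ δ₂ : ℝ) (x : ℂ) : Prop where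
  unit : ∀ i, ‖(st P Q n 1)^[i] x‖ = 1
  onc : ∀ i, OnC P Q n ((st P Q n 1)^[i] x)
  lo : ∀ i, c₀ ≤ ‖rd P Q (((st P Q n 1)^[i] x) ^ n)‖
  hi : ∀ i, ‖rd P Q (((st P Q n 1)^[i] x) ^ n)‖ ≤ K
  quad : ∀ i, ∀ a : ℂ, ‖a - ((st P Q n 1)^[i] x) ^ n‖ ≤ δ₂ →
      ‖P.eval a / Q.eval a - P.eval (((st P Q n 1)^[i] x) ^ n) /
        Q.eval (((st P Q n 1)^[i] x) ^ n) - rd P Q (((st P Q n 1)^[i] x) ^ n) *
          (a - ((st P Q n 1)^[i] x) ^ n)‖ ≤ K₂ * ‖a - ((st P Q n 1)^[i] x) ^ n‖ ^ 2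

/-- The derivatives of the orbit with respect to `s` (leading terms). -/
noncomputable def Gam (P Q : Polynomial ℂ) (n : ℕ) (x : ℂ) : ℕ → ℂ
  | 0 => rd P Q (x ^ n) * x ^ n
  | k + 1 => rd P Q (((st P Q n 1)^[k + 1] x) ^ n) * (n * ((st P Q n 1)^[k + 1] x) ^ (n - 1)) *
      Gam P Q n x k

section tail

variable {P Q : Polynomial ℂ} {n : ℕ} {c₀ K K₂ δ₂ : ℝ} {x : ℂ}

theorem Tail.gam0 (T : Tail P Q n c₀ K K₂ δ₂ x) :
    c₀ ≤ ‖Gam P Q n x 0‖ ∧ ‖Gam P Q n x 0‖ ≤ K := by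
  have h0 := T.unit 0
  have h1 := T.lo 0
  have h2 := T.hi 0
  simp only [Function.iterate_zero, id_eq] at h0 h1 h2
  rw [Gam, norm_mul, norm_pow, h0, one_pow, mul_one]
  exact ⟨h1, h2⟩

theorem Tail.gamS (T : Tail P Q n c₀ K K₂ δ₂ x) (k : ℕ) :
    c₀ * n * ‖Gam P Q n x k‖ ≤ ‖Gam P Q n x (k + 1)‖ ∧
      ‖Gam P Q n x (k + 1)‖ ≤ K * n * ‖Gam P Q n x k‖ := by
  have e : ‖Gam P Q n x (k + 1)‖ = ‖rd P Q (((st P Q n 1)^[k + 1] x) ^ n)‖ * n *
      ‖Gam P Q n x k‖ := by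
    rw [Gam, norm_mul, norm_mul, norm_mul, norm_pow, T.unit, one_pow, mul_one,
      Complex.norm_natCast]
  rw [e]
  have h1 := T.lo (k + 1)
  have h2 := T.hi (k + 1)
  constructor
  · gcongr
  · gcongr

theorem Tail.gam_pow (T : Tail P Q n c₀ K K₂ δ₂ x) (hc : 0 < c₀) (k : ℕ) :
    c₀ * (c₀ * n) ^ k ≤ ‖Gam P Q n x k‖ := by
  induction k with
  | zero => simpa using T.gam0.1
  | succ k ih =>
    refine le_trans ?_ (T.gamS k).1
    rw [pow_succ]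
    calc c₀ * ((c₀ * n) ^ k * (c₀ * n)) = c₀ * n * (c₀ * (c₀ * n) ^ k) := by ring
      _ ≤ c₀ * n * ‖Gam P Q n x k‖ := mul_le_mul_of_nonneg_left ih (by positivity)

/-- The linearization. -/
theorem lin {D : ℕ} {L μ : ℝ} (h : Cst P Q D L μ) (hK : K = 56 * L / μ) (hn : 1 ≤ n)
    (T : Tail P Q n c₀ K K₂ δ₂ x) (hc₀ : 0 < c₀) (hc₀1 : c₀ ≤ 1) (hcn : 2 ≤ c₀ * n)
    (hK₂ : 0 ≤ K₂) {c₁ ε₀ C₂ : ℝ} (hc₁ : 0 < c₁)
    (hc₁δ : 13 * c₁ / c₀ ≤ δ₂) (hc₁K : 2 * c₁ / c₀ ≤ 1 / K) (hε₀ : 0 ≤ ε₀) (hε₀1 : ε₀ ≤ 1)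
    (hC₂ : C₂ = 18 * (36 * K₂ + 3 * K) / c₀ ^ 2)
    (hsmall : C₂ * c₁ + K * ε₀ / c₀ + 2 * (K / (c₀ ^ 2 * n)) ≤ 1)
    {s y : ℂ} (hy : n * ‖y - x‖ ≤ ε₀ * ‖s - 1‖) (k : ℕ)
    (hk : ‖Gam P Q n x k‖ * ‖s - 1‖ ≤ c₁) :
    (n * ‖(st P Q n s)^[k] y - (st P Q n 1)^[k] x‖ ≤ 1 / K ∧ ‖s - 1‖ ≤ 1 / K) ∧
    ‖(st P Q n s)^[k + 1] y - (st P Q n 1)^[k + 1] x - Gam P Q n x k * (s - 1)‖ ≤
      (C₂ * (‖Gam P Q n x k‖ * ‖s - 1‖) + K * ε₀ / c₀ +
        2 * (K / (c₀ ^ 2 * n)) * (1 - (1 / 2) ^ k)) * (‖Gam P Q n x k‖ * ‖s - 1‖) := by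
  have hK56 := h.K_ge hK
  have hK0 : 0 < K := by linarith
  have hn1 : (1 : ℝ) ≤ n := by exact_mod_cast hn
  have hn0 : (0 : ℝ) < n := by linarith
  set S := ‖s - 1‖ with hS
  have hS0 : 0 ≤ S := norm_nonneg _
  set K₃ := 36 * K₂ + 3 * K with hK₃
  have hK₃0 : 0 ≤ K₃ := by positivity
  have hC₂0 : 0 ≤ C₂ := by rw [hC₂]; positivity
  have hC₂' : C₂ * c₀ ^ 2 = 18 * K₃ := by rw [hC₂]; field_simp
  have hKinv : 1 / K ≤ 1 := by rw [div_le_one hK0]; linarith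
  have hc₁c₀ : c₁ / c₀ ≤ 1 / K := by
    have : 0 ≤ c₁ / c₀ := by positivity
    have e : 2 * c₁ / c₀ = 2 * (c₁ / c₀) := by ring
    rw [e] at hc₁K
    linarith
  have hδ : 13 * (c₁ / c₀) ≤ δ₂ := by
    have e : 13 * c₁ / c₀ = 13 * (c₁ / c₀) := by ring
    rwa [e] at hc₁δ
  -- `S` is small with respect to the current size
  have hSE : ∀ j, c₀ * S ≤ ‖Gam P Q n x j‖ * S := by
    intro j
    apply mul_le_mul_of_nonneg_right _ hS0
    have h1 := T.gam_pow hc₀ j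
    have h2 : 1 ≤ (c₀ * n) ^ j := one_le_pow₀ (by linarith)
    nlinarith
  induction k with
  | zero =>
    set E := ‖Gam P Q n x 0‖ * S with hE
    have hE0 : 0 ≤ E := by positivity
    have hSE0 := hSE 0
    have hS1 : S ≤ c₁ / c₀ := by
      rw [le_div_iff₀ hc₀]; linarith
    have hSK : S ≤ 1 / K := hS1.trans hc₁c₀
    have hyS : n * ‖y - x‖ ≤ S := hy.trans (by nlinarith)
    refine ⟨⟨by simpa using hyS.trans hSK, hSK⟩, ?_⟩
    have hx0 := T.unit 0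
    have hq0 := T.quad 0
    have hr0 := T.hi 0
    simp only [Function.iterate_zero, id_eq] at hx0 hq0 hr0
    have h1 := step_quad hn hx0 hK₂ hr0 hq0 (s := s) (y := y) (by linarith) (by linarith)
      (by nlinarith)
    rw [← hK₃] at h1
    rw [zero_add, Function.iterate_one, Function.iterate_one]
    have e : st P Q n s y - st P Q n 1 x - Gam P Q n x 0 * (s - 1) =
        (st P Q n s y - st P Q n 1 x - (rd P Q (x ^ n) * (n * x ^ (n - 1)) * (y - x) +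
          rd P Q (x ^ n) * x ^ n * (s - 1))) + rd P Q (x ^ n) * (n * x ^ (n - 1)) * (y - x) := by
      rw [Gam]; ring
    rw [e]
    refine (norm_add_le _ _).trans ?_
    have h2 : ‖rd P Q (x ^ n) * (n * x ^ (n - 1)) * (y - x)‖ ≤ K * ε₀ / c₀ * E := by
      rw [norm_mul, norm_mul, norm_mul, norm_pow, hx0, one_pow, mul_one, Complex.norm_natCast,
        mul_assoc]
      calc ‖rd P Q (x ^ n)‖ * (n * ‖y - x‖) ≤ K * (ε₀ * S) :=
            mul_le_mul hr0 hy (by positivity) hK0.le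
        _ = K * ε₀ / c₀ * (c₀ * S) := by field_simp
        _ ≤ K * ε₀ / c₀ * E := mul_le_mul_of_nonneg_left hSE0 (by positivity)
    have h3 : K₃ * (n * ‖y - x‖ + S) ^ 2 ≤ C₂ * E * E := by
      have h4 : n * ‖y - x‖ + S ≤ 2 * S := by linarith
      have h5 : (n * ‖y - x‖ + S) ^ 2 ≤ (2 * S) ^ 2 := pow_le_pow_left₀ (by positivity) h4 2
      have h6 : (c₀ * S) ^ 2 ≤ E ^ 2 := pow_le_pow_left₀ (by positivity) hSE0 2
      calc K₃ * (n * ‖y - x‖ + S) ^ 2 ≤ K₃ * (2 * S) ^ 2 := mul_le_mul_of_nonneg_left h5 hK₃0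
        _ = 4 * K₃ * S ^ 2 := by ring
        _ ≤ 18 * K₃ * S ^ 2 := by nlinarith [mul_nonneg hK₃0 (sq_nonneg S)]
        _ = C₂ * (c₀ * S) ^ 2 := by rw [← hC₂']; ring
        _ ≤ C₂ * E ^ 2 := mul_le_mul_of_nonneg_left h6 hC₂0
        _ = _ := by ring
    rw [pow_zero, sub_self, mul_zero, add_zero]
    calc _ ≤ C₂ * E * E + K * ε₀ / c₀ * E := add_le_add (h1.trans h3) h2
      _ = _ := by ring
  | succ k ih =>
    set E := ‖Gam P Q n x k‖ * S with hE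
    set E' := ‖Gam P Q n x (k + 1)‖ * S with hE'
    have hE0 : 0 ≤ E := by positivity
    have hE'0 : 0 ≤ E' := by positivity
    have hg := T.gamS k
    have hEE' : c₀ * n * E ≤ E' := by
      rw [hE, hE', ← mul_assoc]
      exact mul_le_mul_of_nonneg_right hg.1 hS0
    have hEE'2 : 2 * E ≤ E' := le_trans (by nlinarith) hEE'
    have hEc : E ≤ c₁ := by linarith
    obtain ⟨⟨ih1, hSK⟩, ih2⟩ := ih hEc
    have hnE : n * E ≤ c₁ / c₀ := by
      rw [le_div_iff₀ hc₀]; linarith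
    -- the relative error is at most one
    have hpow : (0:ℝ) ≤ (1 / 2) ^ k := by positivity
    have hβ0 : 0 ≤ K / (c₀ ^ 2 * n) := by positivity
    set b := C₂ * E + K * ε₀ / c₀ + 2 * (K / (c₀ ^ 2 * n)) * (1 - (1 / 2) ^ k) with hb
    have hb1 : b ≤ 1 := by
      refine le_trans ?_ hsmall
      have h1 : C₂ * E ≤ C₂ * c₁ := mul_le_mul_of_nonneg_left hEc hC₂0
      have h2 : 2 * (K / (c₀ ^ 2 * n)) * (1 - (1 / 2) ^ k) ≤ 2 * (K / (c₀ ^ 2 * n)) := by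
        nlinarith
      rw [hb]; linarith
    set d := (st P Q n s)^[k + 1] y - (st P Q n 1)^[k + 1] x with hd
    have hdE : ‖d‖ ≤ 2 * E := by
      have h1 := norm_sub_norm_le d (Gam P Q n x k * (s - 1))
      rw [norm_mul, ← hS, ← hE] at h1
      have h2 : b * E ≤ 1 * E := mul_le_mul_of_nonneg_right hb1 hE0
      linarith
    have hSE' : S ≤ E / c₀ := by
      rw [le_div_iff₀ hc₀]; linarith [hSE k]
    have hSn : S ≤ n * E := by
      refine hSE'.trans ?_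
      rw [div_le_iff₀ hc₀]
      nlinarith
    have hnd : n * ‖d‖ ≤ 2 * (n * E) := by nlinarith
    refine ⟨⟨?_, hSK⟩, ?_⟩
    · refine hnd.trans ?_
      have e : 2 * c₁ / c₀ = 2 * (c₁ / c₀) := by ring
      rw [e] at hc₁K
      linarith
    have h1 := step_quad hn (T.unit (k + 1)) hK₂ (T.hi (k + 1)) (T.quad (k + 1)) (s := s)
      (y := (st P Q n s)^[k + 1] y) (by linarith)
      (by
        rw [← hd]
        have e : 2 * c₁ / c₀ = 2 * (c₁ / c₀) := by ring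
        rw [e] at hc₁K
        linarith)
      (by rw [← hd, ← hS]; linarith)
    rw [← hK₃, ← hd, ← hS] at h1
    set A := rd P Q (((st P Q n 1)^[k + 1] x) ^ n) * (n * ((st P Q n 1)^[k + 1] x) ^ (n - 1))
      with hA
    set B := rd P Q (((st P Q n 1)^[k + 1] x) ^ n) * ((st P Q n 1)^[k + 1] x) ^ n with hBdef
    have hGam : Gam P Q n x (k + 1) = A * Gam P Q n x k := rfl
    have hAE : ‖A‖ * E = E' := by rw [hE, hE', hGam, norm_mul A, mul_assoc]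
    have e : (st P Q n s)^[k + 1 + 1] y - (st P Q n 1)^[k + 1 + 1] x -
        Gam P Q n x (k + 1) * (s - 1) =
        (st P Q n s ((st P Q n s)^[k + 1] y) - st P Q n 1 ((st P Q n 1)^[k + 1] x) -
          (A * d + B * (s - 1))) + (A * (d - Gam P Q n x k * (s - 1)) + B * (s - 1)) := by
      rw [Function.iterate_succ_apply' _ (k + 1), Function.iterate_succ_apply' _ (k + 1), hGam]
      ring
    rw [e]
    refine (norm_add_le _ _).trans ?_
    have h2 : ‖A * (d - Gam P Q n x k * (s - 1)) + B * (s - 1)‖ ≤ b * E' + K * S := by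
      refine (norm_add_le _ _).trans ?_
      rw [norm_mul A, norm_mul B]
      have h3 : ‖A‖ * ‖d - Gam P Q n x k * (s - 1)‖ ≤ ‖A‖ * (b * E) :=
        mul_le_mul_of_nonneg_left ih2 (norm_nonneg _)
      have h4 : ‖B‖ ≤ K := by
        rw [hBdef, norm_mul, norm_pow, T.unit, one_pow, mul_one]; exact T.hi _
      have h5 : ‖B‖ * ‖s - 1‖ ≤ K * S := mul_le_mul_of_nonneg_right h4 hS0
      have h6 : ‖A‖ * (b * E) = b * E' := by rw [← hAE]; ring
      linarith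
    have h3 : K₃ * (n * ‖d‖ + S) ^ 2 ≤ C₂ / 2 * E' * E' := by
      have h4 : n * ‖d‖ + S ≤ 3 * (n * E) := by linarith
      have h5 : (n * ‖d‖ + S) ^ 2 ≤ (3 * (n * E)) ^ 2 := pow_le_pow_left₀ (by positivity) h4 2
      have h6 : (c₀ * n * E) ^ 2 ≤ E' ^ 2 := pow_le_pow_left₀ (by positivity) hEE' 2
      calc K₃ * (n * ‖d‖ + S) ^ 2 ≤ K₃ * (3 * (n * E)) ^ 2 := mul_le_mul_of_nonneg_left h5 hK₃0
        _ = (18 * K₃) / 2 * (n * E) ^ 2 := by ring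
        _ = C₂ / 2 * (c₀ * n * E) ^ 2 := by rw [← hC₂']; ring
        _ ≤ C₂ / 2 * E' ^ 2 := mul_le_mul_of_nonneg_left h6 (by positivity)
        _ = _ := by ring
    have h4 : K * S ≤ (K / (c₀ ^ 2 * n)) * (1 / 2) ^ k * E' := by
      have h5 := T.gam_pow hc₀ (k + 1)
      have h6 : c₀ * (c₀ * n) ^ (k + 1) * S ≤ E' := mul_le_mul_of_nonneg_right h5 hS0
      have h7 : (2 : ℝ) ^ k ≤ (c₀ * n) ^ k := pow_le_pow_left₀ (by norm_num) hcn k
      have h8 : c₀ ^ 2 * n * 2 ^ k * S ≤ E' := by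
        refine le_trans ?_ h6
        apply mul_le_mul_of_nonneg_right _ hS0
        rw [pow_succ]
        calc c₀ ^ 2 * n * 2 ^ k ≤ c₀ ^ 2 * n * (c₀ * n) ^ k :=
              mul_le_mul_of_nonneg_left h7 (by positivity)
          _ = _ := by ring
      calc K * S = (K / (c₀ ^ 2 * n)) * (1 / 2) ^ k * (c₀ ^ 2 * n * 2 ^ k * S) := by
            have h9 : ((1:ℝ) / 2) ^ k * 2 ^ k = 1 := by rw [← mul_pow]; norm_num
            field_simp
            rw [mul_assoc, h9, mul_one]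
        _ ≤ _ := mul_le_mul_of_nonneg_left h8 (by positivity)
    have h5 : b * E' ≤ (C₂ / 2 * E' + K * ε₀ / c₀ +
        2 * (K / (c₀ ^ 2 * n)) * (1 - (1 / 2) ^ k)) * E' := by
      apply mul_le_mul_of_nonneg_right _ hE'0
      have : C₂ * E ≤ C₂ / 2 * E' := by nlinarith
      rw [hb]; linarith
    calc _ ≤ C₂ / 2 * E' * E' + (b * E' + K * S) := add_le_add (h1.trans h3) h2
      _ ≤ C₂ / 2 * E' * E' + ((C₂ / 2 * E' + K * ε₀ / c₀ +
        2 * (K / (c₀ ^ 2 * n)) * (1 - (1 / 2) ^ k)) * E' +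
          (K / (c₀ ^ 2 * n)) * (1 / 2) ^ k * E') := by linarith
      _ = _ := by rw [pow_succ]; ring

end tail

end Pool.Agent.TH864.ZO
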