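import Pool.Agent.TH864.ZO.ZF

/-!
# The maps `P(s z ^ n) / Q(s z ^ n)`: choice of the parameter `s`
-/

set_option autoImplicit false

open Set Filter Topology
open scoped OnePoint

namespace Pool.Agent.TH864.ZO

open Pool.Agent.H762R2.Rt Pool.Agent.Helper114.Herman Pool.Agent.Helper114.Konig
open Pool.Agent.H462R2.AP

/-- Leaving the unit circle. -/
theorem leave {x d E : ℂ} {ε w r : ℝ} (hx : ‖x‖ = 1) (hε : 0 < ε) (hE8 : ‖E‖ ≤ ε / 8)
    (hε1 : ε ≤ 1) (hd : ‖d - E‖ ≤ ε / 4 * ‖E‖) (hr : r = Real.exp (-w))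
    (hlow : 2 * w / ε ≤ ‖E‖) (hang : ε * ‖E‖ ≤ |(E / x).re|) :
    ‖x + d‖ ≤ r ∨ 1 ≤ r * ‖x + d‖ := by
  have hx0 : x ≠ 0 := by rintro rfl; rw [norm_zero] at hx; norm_num at hx
  set t := ‖E‖ with ht
  have ht0 : 0 ≤ t := norm_nonneg _
  set e := E / x with he
  set g := d / x with hg
  have hen : ‖e‖ = t := by rw [he, norm_div, hx, div_one]
  have hge : ‖g - e‖ ≤ ε / 4 * t := by
    rw [hg, he, ← sub_div, norm_div, hx, div_one]; exact hd
  have hre : |g.re - e.re| ≤ ε / 4 * t := by
    have := Complex.abs_re_le_norm (g - e)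
    rw [Complex.sub_re] at this
    exact this.trans hge
  have hgn : ‖g‖ ≤ 2 * t := by
    have := norm_sub_norm_le g e
    have h1 : ε / 4 * t ≤ 1 * t := mul_le_mul_of_nonneg_right (by linarith) ht0
    linarith
  have hxd : ‖x + d‖ = ‖1 + g‖ := by
    have : x + d = x * (1 + g) := by rw [hg]; field_simp
    rw [this, norm_mul, hx, one_mul]
  have hlow' : w ≤ ε * t / 2 := by
    rw [div_le_iff₀ hε] at hlow
    linarith
  rw [hxd]
  have hsq : ‖1 + g‖ ^ 2 = 1 + 2 * g.re + ‖g‖ ^ 2 := by
    rw [← Complex.normSq_eq_norm_sq, ← Complex.normSq_eq_norm_sq, Complex.normSq_apply,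
      Complex.normSq_apply]
    simp only [Complex.add_re, Complex.one_re, Complex.add_im, Complex.one_im]
    ring
  have hgsq : ‖g‖ ^ 2 ≤ 4 * t ^ 2 := by
    have := pow_le_pow_left₀ (norm_nonneg g) hgn 2
    linarith
  rw [abs_sub_le_iff] at hre
  rcases le_total 0 e.re with h0 | h0
  · right
    rw [abs_of_nonneg h0] at hang
    have h1 : 3 * ε / 4 * t ≤ g.re := by linarith
    have h2 : 1 + g.re ≤ ‖1 + g‖ := by
      have := Complex.re_le_norm (1 + g)
      simpa using this
    have h3 : 1 - ε * t / 2 ≤ r := by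
      rw [hr]
      have := Real.add_one_le_exp (-w)
      linarith
    have h4 : ε * t / 2 ≤ 1 / 16 := by nlinarith
    have h5 : 1 ≤ (1 - ε * t / 2) * (1 + 3 * ε / 4 * t) := by
      have h6 : 0 ≤ ε * t := by positivity
      nlinarith
    refine h5.trans ?_
    apply mul_le_mul h3 (by linarith)
    · have : 0 ≤ ε * t := by positivity
      linarith
    · rw [hr]; exact (Real.exp_pos _).le
  · left
    rw [abs_of_nonpos h0] at hang
    have h1 : g.re ≤ -(3 * ε / 4 * t) := by linarith
    have h2 : ‖1 + g‖ ^ 2 ≤ 1 - ε * t := by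
      rw [hsq]
      nlinarith
    have h3 : 1 - ε * t ≤ r ^ 2 := by
      rw [hr, ← Real.exp_nat_mul]
      have h4 := Real.add_one_le_exp (((2 : ℕ) : ℝ) * -w)
      refine le_trans ?_ h4
      push_cast
      linarith
    have hr0 : 0 ≤ r := by rw [hr]; exact (Real.exp_pos _).le
    exact (pow_le_pow_iff_left₀ (norm_nonneg _) hr0 two_ne_zero).1 (h2.trans h3)

/-- The choice of the size of `s - 1`. -/
theorem scale {ι : Type*} (M : Finset ι) {N : ℕ} (hN : M.card ≤ N) (g : ι → ℕ → ℝ)
    {a b c₁ low q : ℝ} (hg0 : ∀ m ∈ M, ∀ k, 0 < g m k) (hga : ∀ m ∈ M, ∀ k, a * g m k ≤ g m (k + 1))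
    (hgb : ∀ m ∈ M, ∀ k, g m (k + 1) ≤ b * g m k) (hb0 : ∀ m ∈ M, g m 0 ≤ b) (ha : 2 ≤ a)
    (hb : 0 < b) (hc₁ : 0 < c₁) (hlow : 0 < low) (hq : q = b * low / c₁) (hq1 : 1 < q)
    (haq : q ^ (N + 1) ≤ a) {δ : ℝ} (hδ : 0 < δ) :
    ∃ t : ℝ, 0 < t ∧ t < δ ∧ ∀ m ∈ M, ∃ k, low ≤ g m k * t ∧ g m k * t ≤ c₁ := by
  by_contra hcon
  push Not at hcon
  set δ' := min (δ / 2) (c₁ / b) with hδ'
  have hδ'0 : 0 < δ' := lt_min (by linarith) (by positivity)
  have hq0 : 0 < q := by linarith
  set t : ℕ → ℝ := fun i => δ' / q ^ i with ht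
  have ht0 : ∀ i, 0 < t i := fun i => by simp only [ht]; positivity
  have htδ : ∀ i, t i ≤ δ' := by
    intro i
    simp only [ht]
    exact div_le_self hδ'0.le (one_le_pow₀ hq1.le)
  have hbad : ∀ i, ∃ m ∈ M, ∃ k, c₁ / b < g m k * t i ∧ g m k * t i < low := by
    intro i
    obtain ⟨m, hm, hmk⟩ := hcon (t i) (ht0 i) (by
      have := htδ i; have : δ' ≤ δ / 2 := min_le_left _ _; linarith)
    refine ⟨m, hm, ?_⟩
    have hex : ∃ k, c₁ < g m k * t i := by
      have hgrow : ∀ k, 2 ^ k * g m 0 ≤ g m k := by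
        intro k
        induction k with
        | zero => simp
        | succ k ih =>
          have h1 := hga m hm k
          have h2 := hg0 m hm k
          rw [pow_succ]
          nlinarith
      obtain ⟨k, hk⟩ := pow_unbounded_of_one_lt (c₁ / (g m 0 * t i)) (one_lt_two (α := ℝ))
      refine ⟨k, ?_⟩
      have h3 : 0 < g m 0 * t i := mul_pos (hg0 m hm 0) (ht0 i)
      rw [div_lt_iff₀ h3] at hk
      have h4 := mul_le_mul_of_nonneg_right (hgrow k) (ht0 i).le
      nlinarith
    classical
    set k := Nat.find hex with hkdef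
    have hk : c₁ < g m k * t i := Nat.find_spec hex
    have hk0 : k ≠ 0 := by
      intro h0
      rw [h0] at hk
      have h1 : g m 0 * t i ≤ b * (c₁ / b) :=
        mul_le_mul (hb0 m hm) ((htδ i).trans (min_le_right _ _)) (ht0 i).le hb.le
      rw [mul_div_cancel₀ _ hb.ne'] at h1
      linarith
    obtain ⟨k', hk'⟩ := Nat.exists_eq_succ_of_ne_zero hk0
    have hkmin : g m k' * t i ≤ c₁ := by
      have := Nat.find_min hex (m := k') (by rw [← hkdef]; omega)
      exact not_lt.1 this
    refine ⟨k', ?_, ?_⟩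
    · rw [div_lt_iff₀ hb]
      have h1 := mul_le_mul_of_nonneg_right (hgb m hm k') (ht0 i).le
      rw [hk', Nat.succ_eq_add_one] at hk
      linarith
    · by_contra hge
      push Not at hge
      exact absurd hkmin (not_le.2 (hmk k' hge))
  choose m hm k hk1 hk2 using hbad
  obtain ⟨i, hi, j, hj, hij, hmij⟩ := Finset.exists_ne_map_eq_of_card_lt_of_maps_to
    (s := Finset.range (N + 1)) (t := M) (f := m) (by rw [Finset.card_range]; omega)
    (fun i _ => hm i)
  have hmono : ∀ m ∈ M, ∀ k l, k ≤ l → g m k ≤ g m l := by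
    intro m hm k l hkl
    induction l, hkl using Nat.le_induction with
    | base => exact le_rfl
    | succ l _ ih =>
      have h1 := hga m hm l
      have h2 := hg0 m hm l
      nlinarith
  -- the contradiction for `i < j`
  have key : ∀ i j, i < j → j ≤ N → m i = m j → False := by
    intro i j hlt hjN hmij
    have ei : t i = t j * q ^ (j - i) := by
      simp only [ht]
      rw [div_mul_eq_mul_div, eq_div_iff (pow_ne_zero _ hq0.ne'), div_mul_eq_mul_div,
        div_eq_iff (pow_ne_zero _ hq0.ne'), mul_assoc, ← pow_add]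
      congr 2
      omega
    have hji : 1 ≤ j - i := by omega
    have hqp : q ≤ q ^ (j - i) := by
      calc q = q ^ 1 := (pow_one q).symm
        _ ≤ q ^ (j - i) := pow_le_pow_right₀ hq1.le hji
    have hqN : q ^ (j - i) ≤ q ^ N := pow_le_pow_right₀ hq1.le (by omega)
    have hmM := hm j
    have h1 := hk1 i
    have h2 := hk2 i
    have h3 := hk1 j
    have h4 := hk2 j
    rw [hmij] at h1 h2
    have hgi := hg0 _ hmM (k i)
    have hgj := hg0 _ hmM (k j)
    have htj := ht0 j
    have hlowq : low = q * (c₁ / b) := by rw [hq]; field_simp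
    have hcb : 0 < c₁ / b := by positivity
    rcases lt_trichotomy (k i) (k j) with h | h | h
    · have h5 := hmono _ hmM (k i + 1) (k j) h
      have h6 := hga _ hmM (k i)
      have h7 : a * g (m j) (k i) * t j ≤ g (m j) (k j) * t j :=
        mul_le_mul_of_nonneg_right (h6.trans h5) htj.le
      have h8 : c₁ / b < g (m j) (k i) * t j * q ^ N := by
        refine h1.trans_le ?_
        rw [ei, ← mul_assoc]
        exact mul_le_mul_of_nonneg_left hqN (by positivity)
      have h9 : low < a * (g (m j) (k i) * t j) := by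
        calc low = q * (c₁ / b) := hlowq
          _ < q * (g (m j) (k i) * t j * q ^ N) := mul_lt_mul_of_pos_left h8 hq0
          _ = q ^ (N + 1) * (g (m j) (k i) * t j) := by rw [pow_succ]; ring
          _ ≤ a * (g (m j) (k i) * t j) := mul_le_mul_of_nonneg_right haq (by positivity)
      nlinarith
    · rw [h, ei] at h2
      have h5 : q * (g (m j) (k j) * t j) ≤ g (m j) (k j) * (t j * q ^ (j - i)) := by
        have : 0 ≤ g (m j) (k j) * t j := by positivity
        nlinarith
      rw [hlowq] at h2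
      have h6 : q * (g (m j) (k j) * t j) < q * (c₁ / b) := lt_of_le_of_lt h5 h2
      have h7 := lt_of_mul_lt_mul_left h6 hq0.le
      linarith
    · have h5 := hmono _ hmM (k j + 1) (k i) h
      have h6 := hga _ hmM (k j)
      have h7 : a * g (m j) (k j) * t i ≤ g (m j) (k i) * t i :=
        mul_le_mul_of_nonneg_right (h6.trans h5) (ht0 i).le
      have h8 : q * (c₁ / b) < a * g (m j) (k j) * t i := by
        rw [ei]
        calc q * (c₁ / b) < q * (g (m j) (k j) * t j) := mul_lt_mul_of_pos_left h3 hq0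
          _ ≤ q ^ (j - i) * (g (m j) (k j) * t j) :=
              mul_le_mul_of_nonneg_right hqp (by positivity)
          _ ≤ a * (q ^ (j - i) * (g (m j) (k j) * t j)) := by
              have : 0 ≤ q ^ (j - i) * (g (m j) (k j) * t j) := by positivity
              nlinarith
          _ = _ := by ring
      rw [hlowq] at h2
      linarith
  rw [Finset.mem_range] at hi hj
  rcases lt_or_gt_of_ne hij with h | h
  · exact key i j h (by omega) hmij
  · exact key j i h (by omega) hmij.symm

/-- The choice of the direction of `s - 1`. -/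
theorem angle {ι : Type*} (M : Finset ι) {N : ℕ} (hN : M.card ≤ N) (ω : ι → ℂ)
    (hω : ∀ m ∈ M, ‖ω m‖ = 1) : ∃ ζ : ℂ, ‖ζ‖ = 1 ∧
      ∀ m ∈ M, Real.sin (Real.pi / (N + 2)) / 2 ≤ |(ζ * ω m).re| := by
  by_contra hcon
  push Not at hcon
  set z : ℕ → ℂ := fun l => Complex.exp ((Real.pi * l / (N + 2) : ℝ) * Complex.I) with hz
  have hz1 : ∀ l, ‖z l‖ = 1 := fun l => Complex.norm_exp_ofReal_mul_I _
  choose! m hm hlt using fun (l : ℕ) => hcon (z l) (hz1 l)
  obtain ⟨i, hi, j, hj, hij, hmij⟩ := Finset.exists_ne_map_eq_of_card_lt_of_maps_to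
    (s := Finset.range (N + 1)) (t := M) (f := m) (by rw [Finset.card_range]; omega)
    (fun i _ => hm i)
  have key : ∀ i j, i < j → j ≤ N → m i = m j → False := by
    intro i j hlt' hjN hmij
    have h1 := hlt i
    have h2 := hlt j
    rw [hmij] at h1
    set A := z i * ω (m j) with hA
    set B := z j * ω (m j) with hB
    have hA1 : ‖A‖ = 1 := by rw [hA, norm_mul, hz1, hω _ (hm j), one_mul]
    have hB1 : ‖B‖ = 1 := by rw [hB, norm_mul, hz1, hω _ (hm j), one_mul]
    have hAi : |A.im| ≤ 1 := (Complex.abs_im_le_norm A).trans hA1.le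
    have hBi : |B.im| ≤ 1 := (Complex.abs_im_le_norm B).trans hB1.le
    have h3 : (B * (starRingEnd ℂ) A).im = B.im * A.re - B.re * A.im := by
      simp [Complex.mul_im]; ring
    have h4 : B * (starRingEnd ℂ) A = z j * (starRingEnd ℂ) (z i) := by
      rw [hA, hB, map_mul]
      have h5 : ω (m j) * (starRingEnd ℂ) (ω (m j)) = 1 := by
        rw [Complex.mul_conj, Complex.normSq_eq_norm_sq, hω _ (hm j)]; simp
      calc z j * ω (m j) * ((starRingEnd ℂ) (z i) * (starRingEnd ℂ) (ω (m j)))
          = z j * (starRingEnd ℂ) (z i) * (ω (m j) * (starRingEnd ℂ) (ω (m j))) := by ring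
        _ = _ := by rw [h5, mul_one]
    have h6 : z j * (starRingEnd ℂ) (z i) =
        Complex.exp ((Real.pi * ((j : ℝ) - i) / (N + 2) : ℝ) * Complex.I) := by
      simp only [hz]
      rw [← Complex.exp_conj, ← Complex.exp_add]
      congr 1
      simp only [map_mul, Complex.conj_ofReal, Complex.conj_I]
      push_cast
      ring
    have h7 : (z j * (starRingEnd ℂ) (z i)).im = Real.sin (Real.pi * ((j : ℝ) - i) / (N + 2)) := by
      rw [h6, Complex.exp_ofReal_mul_I_im]
    have h8 : Real.sin (Real.pi / (N + 2)) ≤ Real.sin (Real.pi * ((j : ℝ) - i) / (N + 2)) := by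
      set θ := Real.pi / ((N : ℝ) + 2) with hθ
      have hN2 : (0 : ℝ) < (N : ℝ) + 2 := by positivity
      have hπ := Real.pi_pos
      have hθ0 : 0 < θ := by rw [hθ]; positivity
      have hθN : θ * (N + 2) = Real.pi := by rw [hθ]; field_simp
      have hji : (1 : ℝ) ≤ (j : ℝ) - i := by
        have : (i : ℝ) + 1 ≤ j := by exact_mod_cast hlt'
        linarith
      have hjN' : (j : ℝ) - i ≤ N := by
        have h9 : (j : ℝ) ≤ N := by exact_mod_cast hjN
        have h10 : (0 : ℝ) ≤ i := Nat.cast_nonneg i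
        linarith
      have e : Real.pi * ((j : ℝ) - i) / (N + 2) = θ * (j - i) := by rw [hθ]; ring
      rw [e]
      rcases le_total (θ * ((j : ℝ) - i)) (Real.pi / 2) with h11 | h11
      · apply Real.sin_le_sin_of_le_of_le_pi_div_two (by linarith) h11
        nlinarith
      · rw [← Real.sin_pi_sub (θ * ((j : ℝ) - i))]
        apply Real.sin_le_sin_of_le_of_le_pi_div_two (by linarith) (by linarith)
        nlinarith
    have h12 : |(B * (starRingEnd ℂ) A).im| < Real.sin (Real.pi / (N + 2)) := by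
      rw [h3]
      have h13 : |B.im * A.re - B.re * A.im| ≤ |B.im| * |A.re| + |B.re| * |A.im| := by
        rw [← abs_mul, ← abs_mul]
        exact abs_sub _ _
      have h14 : |B.im| * |A.re| ≤ 1 * |A.re| := mul_le_mul_of_nonneg_right hBi (abs_nonneg _)
      have h15 : |B.re| * |A.im| ≤ |B.re| * 1 := mul_le_mul_of_nonneg_left hAi (abs_nonneg _)
      linarith
    rw [h4, h7] at h12
    have := le_abs_self (Real.sin (Real.pi * ((j : ℝ) - i) / (N + 2)))
    linarith
  rw [Finset.mem_range] at hi hj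
  rcases lt_or_gt_of_ne hij with h | h
  · exact key i j h (by omega) hmij
  · exact key j i h (by omega) hmij.symm

end Pool.Agent.TH864.ZO
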