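import Pool.Agent.TH864.ZO.ZG
import Pool.Agent.H462R2.AP4

/-!
# The maps `P(s z ^ n) / Q(s z ^ n)`: hyperbolicity and approximation for one large `n`
-/

set_option autoImplicit false

open Set Filter Topology
open scoped OnePoint

namespace Pool.Agent.TH864.ZO

open Pool.Agent.H762R2.Rt Pool.Agent.Helper114.Herman Pool.Agent.Helper114.Konig
open Pool.Agent.H462R2.AP

/-- The orbit of `v` stays on the unit circle, and `J` is the first index after its last critical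
point. -/
def BadT (P Q : Polynomial ℂ) (n : ℕ) (v : ℂ) (J : ℕ) : Prop :=
  ‖v‖ = 1 ∧ (∀ i, OnC P Q n ((st P Q n 1)^[i] v)) ∧
    (J = 0 ∨ ∃ J', J = J' + 1 ∧ (wro P Q).eval (((st P Q n 1)^[J'] v) ^ n) = 0) ∧
    ∀ i, J ≤ i → (wro P Q).eval (((st P Q n 1)^[i] v) ^ n) ≠ 0

section

variable {P Q : Polynomial ℂ} {D : ℕ} {n : ℕ}

theorem orbit_unit {L μ : ℝ} (h : Cst P Q D L μ) {v : ℂ} (hv : ‖v‖ = 1)
    (ho : ∀ i, OnC P Q n ((st P Q n 1)^[i] v)) (i : ℕ) : ‖(st P Q n 1)^[i] v‖ = 1 := by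
  induction i with
  | zero => simpa using hv
  | succ i ih => rw [Function.iterate_succ_apply']; exact st_norm h ih (ho i)

theorem Q_ne_of_eq (hc : IsCoprime P Q) {u : ℂ} (he : ‖P.eval u‖ = ‖Q.eval u‖) :
    Q.eval u ≠ 0 := by
  intro h0
  rw [h0, norm_zero, norm_eq_zero] at he
  rcases coprime_eval hc u with h | h
  · exact h he
  · exact h h0

theorem rd_le {L μ K : ℝ} (h : Cst P Q D L μ) (hK : K = 56 * L / μ) (hc : IsCoprime P Q) {u : ℂ}
    (hu : ‖u‖ = 1) (he : ‖P.eval u‖ = ‖Q.eval u‖) : ‖rd P Q u‖ ≤ K := by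
  have hK56 := h.K_ge hK
  have hK0 : 0 < K := by linarith
  refine (rat_hasDerivAt (Q_ne_of_eq hc he)).le_of_lip' hK0.le ?_
  have h1 : OnC P Q 1 u := by unfold OnC; rw [pow_one]; exact he
  filter_upwards [Metric.ball_mem_nhds u (by positivity : 0 < 1 / K)] with y hy
  rw [Metric.mem_ball, dist_eq_norm] at hy
  have h2 := step_lip h hK le_rfl hu h1 (s := 1) (y := y) (z := u)
    (by rw [sub_self, norm_zero]; positivity) (by push_cast; linarith)
    (by rw [sub_self, norm_zero]; push_cast; rw [mul_zero]; positivity)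
  simp only [st, one_mul, pow_one, Nat.cast_one, mul_one] at h2
  exact h2

theorem orbit_deriv {v : ℂ} (hQ : ∀ i, Q.eval (((st P Q n 1)^[i] v) ^ n) ≠ 0) (i : ℕ) :
    ∃ lam : ℂ, HasDerivAt (fun s => (st P Q n s)^[i] v) lam 1 ∧
      (∀ j, i = j + 1 → (wro P Q).eval (((st P Q n 1)^[j] v) ^ n) = 0 → lam = 0) := by
  induction i with
  | zero => exact ⟨0, hasDerivAt_const _ _, by simp⟩
  | succ i ih =>
    obtain ⟨lam, h1, -⟩ := ih
    have h2 : HasDerivAt (fun s : ℂ => s * ((st P Q n s)^[i] v) ^ n)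
        (1 * ((st P Q n 1)^[i] v) ^ n + 1 * (n * ((st P Q n 1)^[i] v) ^ (n - 1) * lam)) 1 :=
      (hasDerivAt_id (1 : ℂ)).mul (h1.pow n)
    have hQi : Q.eval (1 * ((st P Q n 1)^[i] v) ^ n) ≠ 0 := by rw [one_mul]; exact hQ i
    have h3 := (rat_hasDerivAt (P := P) hQi).comp (1 : ℂ) h2
    refine ⟨_, h3.congr_of_eventuallyEq (Eventually.of_forall fun s => ?_), ?_⟩
    · simp only [Function.iterate_succ_apply', st, Function.comp_apply]
    · intro j hj hw
      obtain rfl : i = j := by omega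
      rw [rd, one_mul, hw, zero_div, zero_mul]

theorem start {v : ℂ} {J : ℕ} (hb : BadT P Q n v J)
    (hQ : ∀ i, Q.eval (((st P Q n 1)^[i] v) ^ n) ≠ 0) {c : ℝ} (hc : 0 < c) :
    ∀ᶠ s in 𝓝 (1 : ℂ), ‖(st P Q n s)^[J] v - (st P Q n 1)^[J] v‖ ≤ c * ‖s - 1‖ ∧
      ∀ i < J, Q.eval (s * ((st P Q n s)^[i] v) ^ n) ≠ 0 := by
  have h1 : ∀ᶠ s in 𝓝 (1 : ℂ), ‖(st P Q n s)^[J] v - (st P Q n 1)^[J] v‖ ≤ c * ‖s - 1‖ := by
    obtain ⟨lam, h2, h3⟩ := orbit_deriv hQ J
    rcases hb.2.2.1 with h4 | ⟨J', h4, h5⟩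
    · subst h4
      simp only [Function.iterate_zero, id_eq, sub_self, norm_zero]
      exact Eventually.of_forall fun s => by positivity
    · have h6 := h3 J' h4 h5
      rw [h6] at h2
      have h7 := (hasDerivAt_iff_isLittleO.1 h2).def hc
      filter_upwards [h7] with s hs
      simpa using hs
  have h8 : ∀ᶠ s in 𝓝 (1 : ℂ), ∀ i ∈ Finset.range J,
      Q.eval (s * ((st P Q n s)^[i] v) ^ n) ≠ 0 := by
    rw [Filter.eventually_all_finset]
    intro i _
    obtain ⟨lam, h2, -⟩ := orbit_deriv hQ i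
    have h9 : ContinuousAt (fun s : ℂ => Q.eval (s * ((st P Q n s)^[i] v) ^ n)) 1 := by
      have h10 : ContinuousAt (fun s : ℂ => s * ((st P Q n s)^[i] v) ^ n) 1 :=
        continuousAt_id.mul (h2.continuousAt.pow n)
      exact Q.continuous.continuousAt.comp h10
    apply h9.eventually_ne
    rw [one_mul]
    exact hQ i
  filter_upwards [h1, h8] with s hs1 hs2
  exact ⟨hs1, fun i hi => hs2 i (Finset.mem_range.2 hi)⟩

theorem marked_finite (hc : IsCoprime P Q) (hD1 : 1 ≤ max P.natDegree Q.natDegree) :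
    {v | Marked P Q D v}.Finite := by
  have hw := wro_ne_zero hc hD1
  have hfin : {y : ℂ | (wro P Q).eval y = 0}.Finite := by
    refine (Multiset.toFinset (wro P Q).roots).finite_toSet.subset ?_
    intro y hy
    rw [Finset.mem_coe, Multiset.mem_toFinset, Polynomial.mem_roots hw]
    exact hy
  refine (((Set.finite_singleton (P.eval 0 / Q.eval 0)).union
    (Set.finite_singleton (P.coeff D / Q.coeff D))).union
      (hfin.image fun y => P.eval y / Q.eval y)).subset ?_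
  rintro v (⟨-, rfl⟩ | ⟨-, rfl⟩ | ⟨y, hy, -, rfl⟩)
  · exact Or.inl (Or.inl rfl)
  · exact Or.inl (Or.inr rfl)
  · exact Or.inr ⟨y, hy, rfl⟩

theorem exists_lo {E : Set ℂ} (hE : E.Finite) (hQ : ∀ u ∈ E, Q.eval u ≠ 0) :
    ∃ c₀ : ℝ, 0 < c₀ ∧ c₀ ≤ 1 ∧ ∀ u ∈ E, (wro P Q).eval u ≠ 0 → c₀ ≤ ‖rd P Q u‖ := by
  induction E, hE using Set.Finite.induction_on with
  | empty => exact ⟨1, one_pos, le_rfl, by simp⟩
  | @insert b E _ _ ih =>
    obtain ⟨c₀, h1, h2, h3⟩ := ih fun u hu => hQ u (Or.inr hu)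
    by_cases hb : (wro P Q).eval b = 0
    · refine ⟨c₀, h1, h2, ?_⟩
      rintro u (rfl | hu) hw
      · exact absurd hb hw
      · exact h3 u hu hw
    · have h4 : 0 < ‖rd P Q b‖ :=
        norm_pos_iff.2 (div_ne_zero hb (pow_ne_zero _ (hQ b (Or.inl rfl))))
      refine ⟨min c₀ ‖rd P Q b‖, lt_min h1 h4, (min_le_left _ _).trans h2, ?_⟩
      rintro u (rfl | hu) hw
      · exact min_le_right _ _
      · exact (min_le_left _ _).trans (h3 u hu hw)

/-- The main theorem for one large `n`. -/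
theorem approx (hc : IsCoprime P Q) (hD : D = max P.natDegree Q.natDegree) (hD1 : 0 < D)
    (hfinE : (eqSet P Q).Finite) (m₀ : ℕ) :
    ∃ C : ℝ, 1 ≤ C ∧ ∃ n₀ : ℕ, 3 ≤ n₀ ∧ ∀ n : ℕ, n₀ ≤ n →
      (∀ i : Bool, FineP P Q n m₀ (2 * (C * Real.log n / n)) ((cp D P i).eval 0)
        ((cp D Q i).eval 0)) →
      ((∀ v, Marked P Q D v → FineP P Q n m₀ (2 * (C * Real.log n / n)) v 1) →
        Hyp (Polynomial.expand ℂ n P) (Polynomial.expand ℂ n Q)) ∧
      ((∀ v, Marked P Q D v → FineP P Q n m₀ (2 * (C * Real.log n / n)) v 1 ∨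
          ∃ J, BadT P Q n v J) →
        ∀ δ : ℝ, 0 < δ → ∃ s : ℂ, ‖s - 1‖ < δ ∧ s ≠ 0 ∧
          Hyp (Polynomial.expand ℂ n (sc s P)) (Polynomial.expand ℂ n (sc s Q))) := by
  obtain ⟨L, μ, h⟩ := exists_cst hc hD hD1
  obtain ⟨K, hK⟩ : ∃ K : ℝ, K = 56 * L / μ := ⟨_, rfl⟩
  have hK56 := h.K_ge hK
  have hK0 : 0 < K := by linarith
  obtain ⟨C, hC1, n₁, hn₁3, hn₁⟩ := exists_par h hK m₀
  -- constants
  have hQE : ∀ u ∈ eqSet P Q, Q.eval u ≠ 0 := fun u hu => Q_ne_of_eq hc hu.2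
  obtain ⟨K₂, δ₂, hδ₂, hK₂, hquad⟩ := exists_quad (P := P) hfinE hQE
  obtain ⟨c₀, hc₀, hc₀1, hlo⟩ := exists_lo (P := P) hfinE hQE
  have hMfin : {v | Marked P Q D v}.Finite := marked_finite hc (hD ▸ hD1)
  set MS : Finset ℂ := hMfin.toFinset with hMS
  set N : ℕ := MS.card with hN
  set ε : ℝ := Real.sin (Real.pi / (N + 2)) / 2 with hε
  have hε0 : 0 < ε := by
    rw [hε]
    have h1 : 0 < Real.sin (Real.pi / (N + 2)) := by
      apply Real.sin_pos_of_pos_of_lt_pi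
      · have := Real.pi_pos; positivity
      · rw [div_lt_iff₀ (by positivity)]
        have h2 : (0 : ℝ) ≤ N := Nat.cast_nonneg N
        nlinarith [Real.pi_pos]
    positivity
  have hε1 : ε ≤ 1 / 2 := by
    rw [hε]
    have := Real.sin_le_one (Real.pi / (N + 2))
    linarith
  obtain ⟨C₂, hC₂⟩ : ∃ C₂ : ℝ, C₂ = 18 * (36 * K₂ + 3 * K) / c₀ ^ 2 := ⟨_, rfl⟩
  have hC₂0 : 0 ≤ C₂ := by rw [hC₂]; positivity
  obtain ⟨c₁, hc₁def⟩ : ∃ c₁ : ℝ, c₁ = min (min (δ₂ * c₀ / 13) (c₀ / (2 * K)))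
    (min (ε / 8) (ε / (16 * (C₂ + 1)))) := ⟨_, rfl⟩
  have hc₁ : 0 < c₁ := by
    rw [hc₁def]
    exact lt_min (lt_min (by positivity) (by positivity)) (lt_min (by positivity) (by positivity))
  have hc₁a : c₁ ≤ δ₂ * c₀ / 13 := by
    rw [hc₁def]; exact (min_le_left _ _).trans (min_le_left _ _)
  have hc₁b : c₁ ≤ c₀ / (2 * K) := by
    rw [hc₁def]; exact (min_le_left _ _).trans (min_le_right _ _)
  have hc₁c : c₁ ≤ ε / 8 := by
    rw [hc₁def]; exact (min_le_right _ _).trans (min_le_left _ _)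
  have hc₁d : C₂ * c₁ ≤ ε / 16 := by
    have h1 : c₁ ≤ ε / (16 * (C₂ + 1)) := by
      rw [hc₁def]; exact (min_le_right _ _).trans (min_le_right _ _)
    rw [le_div_iff₀ (by positivity)] at h1
    nlinarith
  obtain ⟨ε₀, hε₀def⟩ : ∃ ε₀ : ℝ, ε₀ = ε * c₀ / (16 * K) := ⟨_, rfl⟩
  have hε₀0 : 0 < ε₀ := by rw [hε₀def]; positivity
  have hε₀1 : ε₀ ≤ 1 := by
    rw [hε₀def, div_le_one (by positivity)]
    nlinarith
  have hε₀2 : K * ε₀ / c₀ = ε / 16 := by rw [hε₀def]; field_simp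
  -- largeness of `n`
  have hlim : Tendsto (fun n : ℕ => (2 * K * C / (ε * c₁)) ^ (N + 1) * (Real.log n ^ (N + 1) / n))
      atTop (𝓝 0) := by
    have h1 : Tendsto (fun x : ℝ => Real.log x ^ (N + 1) / x) atTop (𝓝 0) := by
      simpa using (Real.isLittleO_pow_log_id_atTop (n := N + 1)).tendsto_div_nhds_zero
    have h2 := (h1.comp tendsto_natCast_atTop_atTop).const_mul ((2 * K * C / (ε * c₁)) ^ (N + 1))
    rw [mul_zero] at h2
    exact h2
  obtain ⟨n₂, hn₂⟩ := eventually_atTop.1 (hlim.eventually (ge_mem_nhds hc₀))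
  obtain ⟨n₃, hn₃⟩ := exists_nat_ge (2 / c₀ + 32 * K / (ε * c₀ ^ 2))
  refine ⟨C, hC1, max n₁ (max n₂ n₃), hn₁3.trans (le_max_left _ _), ?_⟩
  intro n hn hcen
  have hnn₁ : n₁ ≤ n := le_of_max_le_left hn
  have hnn₂ : n₂ ≤ n := le_of_max_le_left (le_of_max_le_right hn)
  have hnn₃ : n₃ ≤ n := le_of_max_le_right (le_of_max_le_right hn)
  have hn3 : 3 ≤ n := hn₁3.trans hnn₁
  have hn1 : 1 ≤ n := by omega
  have hn3' : (3 : ℝ) ≤ n := by exact_mod_cast hn3
  have hn0 : (0 : ℝ) < n := by linarith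
  have hlog : 1 < Real.log n := by
    rw [Real.lt_log_iff_exp_lt hn0]
    have he : Real.exp 1 < 2.7182818286 := Real.exp_one_lt_d9
    linarith
  obtain ⟨w, hw⟩ : ∃ w : ℝ, w = C * Real.log n / n := ⟨_, rfl⟩
  obtain ⟨r, hr⟩ : ∃ r : ℝ, r = Real.exp (-w) := ⟨_, rfl⟩
  obtain ⟨ρ, hρ⟩ : ∃ ρ : ℝ, ρ = r ^ n := ⟨_, rfl⟩
  rw [← hw] at hcen ⊢
  obtain ⟨hw0, hr2, hwr, hB⟩ := hn₁ n hnn₁ w r ρ hw hr hρ
  have hr0 : 0 < r := by rw [hr]; exact Real.exp_pos _
  have hρ0 : 0 < ρ := by rw [hρ]; positivity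
  have hpar : ∀ s : ℂ, ‖s - 1‖ ≤ ρ → ∀ f, IsM P Q n s f → Par P Q D L μ K n m₀ w r ρ s f :=
    fun s hs f hf => ⟨h, hK, hn1, hD, hD1, hw0, hr, hr2, hwr, hρ, hB, hs, hf⟩
  have hρ1 : ρ ≤ 1 / 112 := by
    obtain ⟨f, hf⟩ := exists_isM hc hD hD1 hn1 (one_ne_zero (α := ℂ))
    exact (hpar 1 (by rw [sub_self, norm_zero]; exact hρ0.le) f hf).ρ_le'
  have hsne : ∀ s : ℂ, ‖s - 1‖ ≤ ρ → s ≠ 0 := by
    rintro s hs rfl
    rw [zero_sub, norm_neg, norm_one] at hs
    linarith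
  refine ⟨?_, ?_⟩
  · intro hall
    have h1s : ‖(1 : ℂ) - 1‖ ≤ ρ := by rw [sub_self, norm_zero]; exact hρ0.le
    obtain ⟨f, hf⟩ := exists_isM hc hD hD1 hn1 (one_ne_zero (α := ℂ))
    have H := hpar 1 h1s f hf
    have hA := attr_all H hcen
    have := hyp_of_sinks' hD hD1 hn1 one_ne_zero hf
      (by have := hA false 0 (by rw [norm_zero]; exact hr0.le); rwa [ch_false] at this)
      (by
        have := hA true 0 (by rw [norm_zero]; exact hr0.le)
        simpa [ch_true, sinv_zero] using this) ?_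
    · rwa [sc_one, sc_one] at this
    · intro y hy hq
      have h2 := fine_sinks H hA (Or.inr one_ne_zero)
        (hall (P.eval y / Q.eval y) (Or.inr (Or.inr ⟨y, hy, hq, rfl⟩)))
      rw [pr_one] at h2
      rwa [pr_ne hq]
  · intro hall δ hδ
    -- the bad marks
    classical
    set MB : Finset ℂ := MS.filter fun v => ∃ J, BadT P Q n v J with hMB
    have hMBcard : MB.card ≤ N := Finset.card_filter_le _ _
    have hJ : ∀ v ∈ MB, ∃ J, BadT P Q n v J := fun v hv => (Finset.mem_filter.1 hv).2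
    choose! J hJ using hJ
    set x : ℂ → ℂ := fun v => (st P Q n 1)^[J v] v with hx
    have hunit : ∀ v ∈ MB, ∀ i, ‖(st P Q n 1)^[i] v‖ = 1 := fun v hv i =>
      orbit_unit h (hJ v hv).1 (hJ v hv).2.1 i
    have hmemE : ∀ v ∈ MB, ∀ i, ((st P Q n 1)^[i] v) ^ n ∈ eqSet P Q := fun v hv i =>
      ⟨by rw [norm_pow, hunit v hv, one_pow], (hJ v hv).2.1 i⟩
    have hQn : ∀ v ∈ MB, ∀ i, Q.eval (((st P Q n 1)^[i] v) ^ n) ≠ 0 := fun v hv i =>
      hQE _ (hmemE v hv i)
    have hxit : ∀ v i, (st P Q n 1)^[i] (x v) = (st P Q n 1)^[J v + i] v := by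
      intro v i
      rw [hx, add_comm, Function.iterate_add_apply]
    have hT : ∀ v ∈ MB, Tail P Q n c₀ K K₂ δ₂ (x v) := by
      intro v hv
      refine ⟨?_, ?_, ?_, ?_, ?_⟩
      · intro i; rw [hxit]; exact hunit v hv _
      · intro i; rw [hxit]; exact (hJ v hv).2.1 _
      · intro i; rw [hxit]
        exact hlo _ (hmemE v hv _) ((hJ v hv).2.2.2 _ (by omega))
      · intro i; rw [hxit]
        exact rd_le h hK hc (hmemE v hv _).1 (hmemE v hv _).2
      · intro i; rw [hxit]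
        exact hquad _ (hmemE v hv _)
    -- largeness
    have hn₃' : 2 / c₀ + 32 * K / (ε * c₀ ^ 2) ≤ n := hn₃.trans (by exact_mod_cast hnn₃)
    have hcn : 2 ≤ c₀ * n := by
      have h1 : 2 / c₀ ≤ n := by
        have : 0 ≤ 32 * K / (ε * c₀ ^ 2) := by positivity
        linarith
      rw [div_le_iff₀ hc₀] at h1
      linarith
    have hKn : 2 * (K / (c₀ ^ 2 * n)) ≤ ε / 16 := by
      have h1 : 32 * K / (ε * c₀ ^ 2) ≤ n := by
        have : 0 ≤ 2 / c₀ := by positivity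
        linarith
      rw [div_le_iff₀ (by positivity)] at h1
      rw [← mul_div_assoc, div_le_div_iff₀ (by positivity) (by norm_num)]
      nlinarith
    set q : ℝ := K * n * (2 * w / ε) / c₁ with hqdef
    have hq : q = 2 * K * C / (ε * c₁) * Real.log n := by
      rw [hqdef, hw]; field_simp
    have hq1 : 1 < q := by
      rw [hq, div_mul_eq_mul_div, one_lt_div (by positivity)]
      have h1 : ε * c₁ ≤ 1 := by nlinarith
      have h2 : 1 * 1 ≤ K * C := mul_le_mul (by linarith) hC1 (by norm_num) (by linarith)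
      nlinarith
    have haq : q ^ (N + 1) ≤ c₀ * n := by
      have h1 := hn₂ n hnn₂
      rw [← mul_div_assoc, div_le_iff₀ hn0] at h1
      rw [hq, mul_pow]
      exact h1
    -- the starting conditions
    have hstart : ∀ᶠ s in 𝓝 (1 : ℂ), ∀ v ∈ MB,
        ‖(st P Q n s)^[J v] v - x v‖ ≤ ε₀ / n * ‖s - 1‖ ∧
        ∀ i < J v, Q.eval (s * ((st P Q n s)^[i] v) ^ n) ≠ 0 := by
      rw [Filter.eventually_all_finset]
      intro v hv
      exact start (hJ v hv) (hQn v hv) (by positivity)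
    obtain ⟨δ', hδ', hst⟩ := Metric.eventually_nhds_iff.1 hstart
    obtain ⟨t, ht0, htδ, htk⟩ := scale MB hMBcard (fun v k => ‖Gam P Q n (x v) k‖)
      (a := c₀ * n) (b := K * n) (c₁ := c₁) (low := 2 * w / ε) (q := q)
      (fun v hv k => lt_of_lt_of_le (by positivity) ((hT v hv).gam_pow hc₀ k))
      (fun v hv k => ((hT v hv).gamS k).1) (fun v hv k => ((hT v hv).gamS k).2)
      (fun v hv => ((hT v hv).gam0.2).trans (by nlinarith)) hcn (by positivity) hc₁
      (by positivity) hqdef hq1 haq (δ := min δ (min δ' ρ)) (lt_min hδ (lt_min hδ' hρ0))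
    choose! k hklow hkc₁ using htk
    have hGpos : ∀ v ∈ MB, 0 < ‖Gam P Q n (x v) (k v)‖ := fun v hv =>
      lt_of_lt_of_le (by positivity) ((hT v hv).gam_pow hc₀ (k v))
    set ω : ℂ → ℂ := fun v => Gam P Q n (x v) (k v) / (st P Q n 1)^[k v + 1] (x v) /
      ‖Gam P Q n (x v) (k v)‖ with hω
    obtain ⟨ζ, hζ1, hζ⟩ := angle MB hMBcard ω (by
      intro v hv
      simp only [hω]
      rw [norm_div, norm_div, (hT v hv).unit, div_one, Complex.norm_real, norm_norm,
        div_self (hGpos v hv).ne'])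
    set s : ℂ := 1 + t * ζ with hs
    have hs1 : s - 1 = t * ζ := by rw [hs]; ring
    have hst1 : ‖s - 1‖ = t := by
      rw [hs1, norm_mul, hζ1, mul_one, Complex.norm_real, Real.norm_eq_abs, abs_of_pos ht0]
    have hsδ : ‖s - 1‖ < δ := by rw [hst1]; exact htδ.trans_le (min_le_left _ _)
    have hsρ : ‖s - 1‖ ≤ ρ := by
      rw [hst1]; exact (htδ.trans_le ((min_le_right _ _).trans (min_le_right _ _))).le
    have hsδ' : dist s 1 < δ' := by
      rw [dist_eq_norm, hst1]; exact htδ.trans_le ((min_le_right _ _).trans (min_le_left _ _))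
    have hs0 : s ≠ 0 := hsne s hsρ
    obtain ⟨f, hf⟩ := exists_isM hc hD hD1 hn1 hs0
    have H := hpar s hsρ f hf
    have hA := attr_all H hcen
    -- the bad marks are attracted
    have hbadS : ∀ v ∈ MB, Sinks f (v : OnePoint ℂ) := by
      intro v hv
      obtain ⟨hs2, hs3⟩ := hst hsδ' v hv
      set y := (st P Q n s)^[J v] v with hy
      have hyn : n * ‖y - x v‖ ≤ ε₀ * ‖s - 1‖ := by
        calc n * ‖y - x v‖ ≤ n * (ε₀ / n * ‖s - 1‖) := mul_le_mul_of_nonneg_left hs2 hn0.le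
          _ = _ := by field_simp
      have hsmall : C₂ * c₁ + K * ε₀ / c₀ + 2 * (K / (c₀ ^ 2 * n)) ≤ ε / 4 := by
        rw [hε₀2]; linarith
      have hlin := fun (k' : ℕ) (hk' : ‖Gam P Q n (x v) k'‖ * ‖s - 1‖ ≤ c₁) =>
        lin h hK hn1 (hT v hv) hc₀ hc₀1 hcn hK₂ hc₁
          (by rw [div_le_iff₀ hc₀]; linarith)
          (by
            rw [div_le_div_iff₀ hc₀ hK0]
            rw [le_div_iff₀ (by positivity)] at hc₁b
            nlinarith)
          hε₀0.le hε₀1 hC₂ (hsmall.trans (by linarith)) hyn k' hk'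
      have hkv : ‖Gam P Q n (x v) (k v)‖ * ‖s - 1‖ ≤ c₁ := by rw [hst1]; exact hkc₁ v hv
      have hmono : ∀ i j, i ≤ j → ‖Gam P Q n (x v) i‖ ≤ ‖Gam P Q n (x v) j‖ := by
        intro i j hij
        induction j, hij using Nat.le_induction with
        | base => exact le_rfl
        | succ j _ ih =>
          have h1 := ((hT v hv).gamS j).1
          have h2 := norm_nonneg (Gam P Q n (x v) j)
          nlinarith
      have hkle : ∀ i ≤ k v, ‖Gam P Q n (x v) i‖ * ‖s - 1‖ ≤ c₁ := fun i hi =>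
        (mul_le_mul_of_nonneg_right (hmono i _ hi) (norm_nonneg _)).trans hkv
      -- the poles are avoided
      have hQy : ∀ i < k v + 1, Q.eval (s * ((st P Q n s)^[i] y) ^ n) ≠ 0 := by
        intro i hi
        obtain ⟨⟨h1, h2⟩, -⟩ := hlin i (hkle i (by omega))
        have h3 := (step_est h hK hn1 ((hT v hv).unit i) ((hT v hv).onc i) h2 h1).1
        have := h.μ0
        exact norm_pos_iff.1 (by linarith)
      -- the exit
      obtain ⟨-, h4⟩ := hlin (k v) hkv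
      set E := Gam P Q n (x v) (k v) * (s - 1) with hE
      have hEn : ‖E‖ = ‖Gam P Q n (x v) (k v)‖ * t := by rw [hE, norm_mul, hst1]
      set z := (st P Q n 1)^[k v + 1] (x v) with hz
      set d := (st P Q n s)^[k v + 1] y - z with hd
      have hdE : ‖d - E‖ ≤ ε / 4 * ‖E‖ := by
        refine h4.trans ?_
        rw [hst1, hEn]
        apply mul_le_mul_of_nonneg_right _ (by positivity)
        refine le_trans ?_ hsmall
        have h5 : C₂ * (‖Gam P Q n (x v) (k v)‖ * t) ≤ C₂ * c₁ :=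
          mul_le_mul_of_nonneg_left (hkc₁ v hv) hC₂0
        have h6 : 2 * (K / (c₀ ^ 2 * n)) * (1 - (1 / 2) ^ (k v)) ≤ 2 * (K / (c₀ ^ 2 * n)) := by
          have h7 : (0:ℝ) ≤ (1 / 2) ^ (k v) := by positivity
          have h8 : 0 ≤ K / (c₀ ^ 2 * n) := by positivity
          nlinarith
        linarith
      have hang : ε * ‖E‖ ≤ |(E / z).re| := by
        have h5 := hζ v hv
        have e1 : E / z = ((‖Gam P Q n (x v) (k v)‖ * t : ℝ) : ℂ) * (ζ * ω v) := by
          have h6 : ((‖Gam P Q n (x v) (k v)‖ : ℝ) : ℂ) ≠ 0 := by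
            exact_mod_cast (hGpos v hv).ne'
          rw [hE, hs1]
          simp only [hω]
          rw [← hz]
          push_cast
          field_simp
        rw [e1, Complex.re_ofReal_mul, abs_mul, abs_of_nonneg (by positivity), hEn]
        calc ε * (‖Gam P Q n (x v) (k v)‖ * t) = ‖Gam P Q n (x v) (k v)‖ * t * ε := by ring
          _ ≤ _ := mul_le_mul_of_nonneg_left h5 (by positivity)
      have hexit := leave ((hT v hv).unit (k v + 1)) hε0 (by rw [hEn]; exact (hkc₁ v hv).trans hc₁c)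
        (by linarith) hdE hr (by rw [hEn]; exact hklow v hv) hang
      rw [← hz, hd, add_sub_cancel] at hexit
      have hmapJ : f^[J v] (v : OnePoint ℂ) = (y : OnePoint ℂ) :=
        path_map hD hD1 hn1 hs0 hf hs3 _ le_rfl
      have hmapk : f^[k v + 1] (y : OnePoint ℂ) =
          (((st P Q n s)^[k v + 1] y : ℂ) : OnePoint ℂ) :=
        path_map hD hD1 hn1 hs0 hf hQy _ le_rfl
      apply sinks_of_iterate hf.cont (J v)
      rw [hmapJ]
      apply sinks_of_iterate hf.cont (k v + 1)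
      rw [hmapk]
      rcases hexit with h5 | h5
      · have := hA false _ h5
        rwa [ch_false] at this
      · set Y := (st P Q n s)^[k v + 1] y with hY
        have hY0 : Y ≠ 0 := by
          intro h0
          rw [h0, norm_zero, mul_zero] at h5
          linarith
        have hYp : 0 < ‖Y‖ := norm_pos_iff.2 hY0
        have h6 : ‖Y⁻¹‖ ≤ r := by
          rw [norm_inv, inv_le_comm₀ hYp hr0]
          rw [inv_eq_one_div, div_le_iff₀ hr0]
          linarith
        have h7 := hA true _ h6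
        rw [ch_true] at h7
        simp only at h7
        rwa [sinv_coe (inv_ne_zero hY0), inv_inv] at h7
    refine ⟨s, hsδ, hs0, hyp_of_sinks' hD hD1 hn1 hs0 hf ?_ ?_ ?_⟩
    · have := hA false 0 (by rw [norm_zero]; exact hr0.le)
      rwa [ch_false] at this
    · have := hA true 0 (by rw [norm_zero]; exact hr0.le)
      simpa [ch_true, sinv_zero] using this
    · intro y hy hq
      have hm : Marked P Q D (P.eval y / Q.eval y) := Or.inr (Or.inr ⟨y, hy, hq, rfl⟩)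
      rw [pr_ne hq]
      by_cases hb : ∃ J, BadT P Q n (P.eval y / Q.eval y) J
      · exact hbadS _ (Finset.mem_filter.2 ⟨hMfin.mem_toFinset.2 hm, hb⟩)
      · have h2 := fine_sinks H hA (Or.inr one_ne_zero) ((hall _ hm).resolve_right hb)
        rwa [pr_one] at h2

end

end Pool.Agent.TH864.ZO
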