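import Pool.Agent.TH864.ZO.ZH

/-!
# The maps `P(z ^ n) / Q(z ^ n)`: orbits of the marked points
-/

set_option autoImplicit false

open Set Filter Topology
open scoped OnePoint

namespace Pool.Agent.TH864.ZO

open Pool.Agent.H762R2.Rt Pool.Agent.Helper114.Herman Pool.Agent.Helper114.Konig
open Pool.Agent.H462R2.AP

/-- `x` is a root of unity. -/
def RU (x : ℂ) : Prop := ∃ k : ℕ, 0 < k ∧ x ^ k = 1

theorem RU.norm {x : ℂ} (h : RU x) : ‖x‖ = 1 := by
  obtain ⟨k, hk, h1⟩ := h
  exact Complex.norm_eq_one_of_pow_eq_one h1 hk.ne'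

theorem RU.pow {x : ℂ} (h : RU x) (n : ℕ) : RU (x ^ n) := by
  obtain ⟨k, hk, h1⟩ := h
  exact ⟨k, hk, by rw [← pow_mul, mul_comm, pow_mul, h1, one_pow]⟩

theorem exists_repeat {T : ℂ → ℂ} {X : Set ℂ} (hX : X.Finite) {v : ℂ}
    (h : ∀ i ≤ X.ncard, T^[i] v ∈ X) :
    ∃ a p : ℕ, 0 < p ∧ a + p ≤ X.ncard ∧ T^[p] (T^[a] v) = T^[a] v := by
  obtain ⟨i, hi, j, hj, hij, he⟩ := Finset.exists_ne_map_eq_of_card_lt_of_maps_to
    (s := Finset.range (X.ncard + 1)) (t := hX.toFinset) (f := fun i => T^[i] v)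
    (by rw [Finset.card_range, ← Set.ncard_eq_toFinset_card X hX]; omega)
    (fun i hi => by
      have hi' : i < X.ncard + 1 := by simpa using hi
      simpa using h i (by omega))
  rw [Finset.mem_range] at hi hj
  have key : ∀ i j, i < j → j < X.ncard + 1 → T^[i] v = T^[j] v →
      ∃ a p : ℕ, 0 < p ∧ a + p ≤ X.ncard ∧ T^[p] (T^[a] v) = T^[a] v := by
    intro i j hlt hj he
    refine ⟨i, j - i, by omega, by omega, ?_⟩
    rw [← Function.iterate_add_apply, show j - i + i = j by omega, he]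
  rcases lt_or_gt_of_ne hij with h1 | h1
  · exact key i j h1 hj he
  · exact key j i h1 hi he.symm

theorem repeat_mod {T : ℂ → ℂ} {v : ℂ} {a p : ℕ} (hp : T^[p] (T^[a] v) = T^[a] v) {j : ℕ}
    (hj : a ≤ j) : T^[j] v = T^[a + (j - a) % p] v := by
  have h1 : Function.IsPeriodicPt T p (T^[a] v) := hp
  have h2 := h1.iterate_mod_apply (j - a)
  rw [← Function.iterate_add_apply, ← Function.iterate_add_apply] at h2
  rw [add_comm a, h2]
  congr 2
  omega

section

variable {P Q : Polynomial ℂ} {D : ℕ}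

/-- The roots of unity which are marked or values at points of `eqSet`. -/
def XS (P Q : Polynomial ℂ) (D : ℕ) : Set ℂ :=
  {x | RU x ∧ (Marked P Q D x ∨ ∃ u ∈ eqSet P Q, x = P.eval u / Q.eval u)}

/-- The points of the circle, not roots of unity, which are marked or values at roots of unity. -/
def VS (P Q : Polynomial ℂ) (D : ℕ) : Set ℂ :=
  {v | ‖v‖ = 1 ∧ ¬ RU v ∧ (Marked P Q D v ∨ ∃ u, RU u ∧ v = P.eval u / Q.eval u)}

theorem eq_of_div {u : ℂ} (h : ‖P.eval u / Q.eval u‖ = 1) :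
    Q.eval u ≠ 0 ∧ ‖P.eval u‖ = ‖Q.eval u‖ := by
  have hq : Q.eval u ≠ 0 := by
    intro h0
    rw [h0, div_zero, norm_zero] at h
    norm_num at h
  refine ⟨hq, ?_⟩
  rw [norm_div, div_eq_one_iff_eq (norm_ne_zero_iff.2 hq)] at h
  exact h

theorem mem_eqSet_of {u : ℂ} (hu : ‖u‖ = 1) (h : ‖P.eval u / Q.eval u‖ = 1) : u ∈ eqSet P Q :=
  ⟨hu, (eq_of_div h).2⟩

theorem XS_finite (hc : IsCoprime P Q) (hD1 : 1 ≤ max P.natDegree Q.natDegree)
    (hE : (eqSet P Q).Finite) : (XS P Q D).Finite := by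
  refine ((marked_finite (D := D) hc hD1).union
    (hE.image fun u => P.eval u / Q.eval u)).subset ?_
  rintro x ⟨-, h | ⟨u, hu, rfl⟩⟩
  · exact Or.inl h
  · exact Or.inr ⟨u, hu, rfl⟩

theorem VS_finite (hc : IsCoprime P Q) (hD1 : 1 ≤ max P.natDegree Q.natDegree)
    (hE : (eqSet P Q).Finite) : (VS P Q D).Finite := by
  refine ((marked_finite (D := D) hc hD1).union
    (hE.image fun u => P.eval u / Q.eval u)).subset ?_
  rintro x ⟨h1, -, h | ⟨u, hu, rfl⟩⟩
  · exact Or.inl h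
  · exact Or.inr ⟨u, mem_eqSet_of hu.norm h1, rfl⟩

theorem exists_order {X : Set ℂ} (hX : X.Finite) (h : ∀ x ∈ X, RU x) :
    ∃ M : ℕ, 0 < M ∧ ∀ x ∈ X, x ^ M = 1 := by
  induction X, hX using Set.Finite.induction_on with
  | empty => exact ⟨1, one_pos, by simp⟩
  | @insert b X _ _ ih =>
    obtain ⟨M, hM, h1⟩ := ih fun x hx => h x (Or.inr hx)
    obtain ⟨k, hk, h2⟩ := h b (Or.inl rfl)
    refine ⟨M * k, Nat.mul_pos hM hk, ?_⟩
    rintro x (rfl | hx)
    · rw [mul_comm, pow_mul, h2, one_pow]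
    · rw [pow_mul, h1 x hx, one_pow]

/-- The orbit of a point of `XS` through roots of unity stays in `XS`. -/
theorem orbit_XS {n : ℕ} {v : ℂ} (hv : v ∈ XS P Q D) {m : ℕ}
    (h : ∀ i ≤ m, RU ((st P Q n 1)^[i] v)) : (st P Q n 1)^[m] v ∈ XS P Q D := by
  rcases m with - | m
  · simpa using hv
  · have h1 := h (m + 1) le_rfl
    refine ⟨h1, Or.inr ⟨((st P Q n 1)^[m] v) ^ n, ?_, ?_⟩⟩
    · apply mem_eqSet_of ((h m (by omega)).pow n).norm
      rw [← st_one, ← Function.iterate_succ_apply' (st P Q n 1)]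
      exact h1.norm
    · rw [← st_one, ← Function.iterate_succ_apply' (st P Q n 1)]

theorem onc_of_RU {n : ℕ} {v : ℂ} {i : ℕ} (h : RU ((st P Q n 1)^[i + 1] v)) :
    OnC P Q n ((st P Q n 1)^[i] v) := by
  have h1 := h.norm
  rw [Function.iterate_succ_apply', st_one] at h1
  exact (eq_of_div h1).2

/-- The dichotomy for the marked roots of unity. -/
theorem root_alt (hc' : IsCoprime P Q) {n : ℕ} {η η₁ : ℝ} (hX : (XS P Q D).Finite) {M : ℕ}
    (hM : ∀ x ∈ XS P Q D, x ^ M = 1)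
    (hg : ∀ u : ℂ, u ^ M = 1 → ‖P.eval u‖ ≠ ‖Q.eval u‖ → Good η₁ (P.eval u) (Q.eval u))
    (hηη : η ≤ η₁)
    {v : ℂ} (hV : ∀ j, (∀ i < j, RU ((st P Q n 1)^[i] v)) → ‖(st P Q n 1)^[j] v‖ = 1 →
      ¬ RU ((st P Q n 1)^[j] v) → Good η (P.eval (((st P Q n 1)^[j] v) ^ n))
        (Q.eval (((st P Q n 1)^[j] v) ^ n)))
    (hv : v ∈ XS P Q D) :
    FineV P Q n (XS P Q D).ncard η v ∨ ∃ J, BadT P Q n v J ∧ ∀ j, RU ((st P Q n 1)^[j] v) := by
  set c := (XS P Q D).ncard with hc
  by_cases hall : ∀ j, RU ((st P Q n 1)^[j] v)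
  · have honc : ∀ i, OnC P Q n ((st P Q n 1)^[i] v) := fun i => onc_of_RU (hall (i + 1))
    by_cases hinf : ∀ J, ∃ j, J ≤ j ∧ (wro P Q).eval (((st P Q n 1)^[j] v) ^ n) = 0
    · left
      obtain ⟨a, p, hp, hap, hper⟩ := exists_repeat hX (T := st P Q n 1) (v := v)
        (fun i _ => orbit_XS hv fun i _ => hall i)
      obtain ⟨j, hj, hjw⟩ := hinf a
      rw [repeat_mod hper hj] at hjw
      set i := a + (j - a) % p with hi
      have hlt : (j - a) % p < p := Nat.mod_lt _ hp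
      refine ⟨i, by omega, fun i _ => honc i, Or.inr ⟨p, hp, by omega, fun i' _ => ?_, ?_, hjw⟩⟩
      · rw [← Function.iterate_add_apply]; exact honc _
      · rw [hi, add_comm a, Function.iterate_add_apply (st P Q n 1) ((j - a) % p) a,
          ← Function.iterate_add_apply (st P Q n 1) p, add_comm p,
          Function.iterate_add_apply (st P Q n 1) _ p, hper]
    · right
      push Not at hinf
      classical
      have hex : ∃ J, ∀ j, J ≤ j → (wro P Q).eval (((st P Q n 1)^[j] v) ^ n) ≠ 0 := hinf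
      refine ⟨Nat.find hex, ⟨(hall 0).norm, honc, ?_, Nat.find_spec hex⟩, hall⟩
      rcases Nat.eq_zero_or_pos (Nat.find hex) with h0 | h0
      · exact Or.inl h0
      · right
        refine ⟨Nat.find hex - 1, by omega, ?_⟩
        have h1 := Nat.find_min hex (m := Nat.find hex - 1) (by omega)
        push Not at h1
        obtain ⟨j, hj1, hj2⟩ := h1
        have h2 : j = Nat.find hex - 1 := by
          by_contra hne
          exact Nat.find_spec hex j (by omega) hj2
        rwa [h2] at hj2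
  · left
    push Not at hall
    classical
    set j := Nat.find hall with hj
    have hj1 : ¬ RU ((st P Q n 1)^[j] v) := Nat.find_spec hall
    have hj2 : ∀ i < j, RU ((st P Q n 1)^[i] v) := fun i hi => by
      have := Nat.find_min hall hi
      exact not_not.1 this
    have hj0 : j ≠ 0 := by
      intro h0
      rw [h0] at hj1
      exact hj1 hv.1
    obtain ⟨k, hk⟩ := Nat.exists_eq_succ_of_ne_zero hj0
    rw [Nat.succ_eq_add_one] at hk
    have hjc : j ≤ c := by
      by_contra hlt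
      push Not at hlt
      obtain ⟨a, p, hp, hap, hper⟩ := exists_repeat hX (T := st P Q n 1) (v := v)
        (fun i hi => orbit_XS hv fun i' hi' => hj2 i' (by omega))
      apply hj1
      rw [repeat_mod hper (by omega)]
      have hlt' : (j - a) % p < p := Nat.mod_lt _ hp
      exact hj2 _ (by omega)
    have hkX : (st P Q n 1)^[k] v ∈ XS P Q D := orbit_XS hv fun i hi => hj2 i (by omega)
    have honc : ∀ i < k, OnC P Q n ((st P Q n 1)^[i] v) := fun i hi =>
      onc_of_RU (hj2 (i + 1) (by omega))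
    have hkM : (((st P Q n 1)^[k] v) ^ n) ^ M = 1 := by
      rw [← pow_mul, mul_comm, pow_mul, hM _ hkX, one_pow]
    by_cases hon : OnC P Q n ((st P Q n 1)^[k] v)
    · refine ⟨j, hjc, fun i hi => ?_, Or.inl ?_⟩
      · rcases Nat.lt_or_ge i k with h | h
        · exact honc i h
        · have : i = k := by omega
          rw [this]; exact hon
      · apply hV j hj2 _ hj1
        have hq : ‖Q.eval (((st P Q n 1)^[k] v) ^ n)‖ ≠ 0 :=
          norm_ne_zero_iff.2 (Q_ne_of_eq hc' hon)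
        rw [hk, Function.iterate_succ_apply', st_one, norm_div]
        unfold OnC at hon
        rw [hon, div_self hq]
    · exact ⟨k, by omega, honc, Or.inl ((hg _ hkM hon).mono hηη)⟩

end

end Pool.Agent.TH864.ZO
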