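import Pool.Agent.TH864.ZO.ZI

/-!
# The maps `P(z ^ n) / Q(z ^ n)`: zero-one law
-/

set_option autoImplicit false

open Set Filter Topology
open scoped OnePoint

namespace Pool.Agent.TH864.ZO

open Pool.Agent.H762R2.Rt Pool.Agent.Helper114.Herman Pool.Agent.Helper114.Konig
open Pool.Agent.H462R2.AP

section

variable {P Q : Polynomial ℂ} {D : ℕ}

/-- A critical value has an orbit which consists of roots of unity and contains no critical
point. -/
def Res (P Q : Polynomial ℂ) (D n : ℕ) : Prop :=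
  ∃ v, Marked P Q D v ∧ ∀ j, RU ((st P Q n 1)^[j] v) ∧
    (wro P Q).eval (((st P Q n 1)^[j] v) ^ n) ≠ 0

/-- The orbit of a critical value leaves the roots of unity at a point of the unit circle whose
image is at distance about `c` from the unit circle. -/
def Exc (P Q : Polynomial ℂ) (D : ℕ) (c : ℝ) (n : ℕ) : Prop :=
  ∃ v, Marked P Q D v ∧ ∃ j, (∀ i < j, RU ((st P Q n 1)^[i] v)) ∧ ‖(st P Q n 1)^[j] v‖ = 1 ∧
    ¬ RU ((st P Q n 1)^[j] v) ∧
    |‖P.eval (((st P Q n 1)^[j] v) ^ n)‖ - ‖Q.eval (((st P Q n 1)^[j] v) ^ n)‖| ≤ c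

theorem pow_congr {x : ℂ} {M n m : ℕ} (hx : x ^ M = 1) (h : n ≡ m [MOD M]) : x ^ n = x ^ m := by
  rw [pow_eq_pow_mod n hx, pow_eq_pow_mod m hx, h]

theorem res_periodic {M : ℕ} (hM : ∀ x ∈ XS P Q D, x ^ M = 1) {n m : ℕ} (h : n ≡ m [MOD M])
    (hn : Res P Q D n) : Res P Q D m := by
  obtain ⟨v, hv, hj⟩ := hn
  have hvX : v ∈ XS P Q D := ⟨(hj 0).1, Or.inl hv⟩
  have hX : ∀ j, (st P Q n 1)^[j] v ∈ XS P Q D := fun j => orbit_XS hvX fun i _ => (hj i).1
  have he : ∀ j, (st P Q m 1)^[j] v = (st P Q n 1)^[j] v := by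
    intro j
    induction j with
    | zero => rfl
    | succ j ih =>
      rw [Function.iterate_succ_apply', Function.iterate_succ_apply', ih, st_one, st_one,
        pow_congr (hM _ (hX j)) h]
  refine ⟨v, hv, fun j => ?_⟩
  rw [he, ← pow_congr (hM _ (hX j)) h]
  exact hj j

/-- The orbits through roots of unity without critical points are not attracted. -/
theorem bad_not_sinks (hc : IsCoprime P Q) (hD : D = max P.natDegree Q.natDegree) (hD1 : 0 < D)
    (hX : (XS P Q D).Finite) {c₀ : ℝ} (hc₀ : 0 < c₀)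
    (hlo : ∀ u ∈ eqSet P Q, (wro P Q).eval u ≠ 0 → c₀ ≤ ‖rd P Q u‖) {n : ℕ} (hn1 : 1 ≤ n)
    (hn : 1 < c₀ * n) {f : OnePoint ℂ → OnePoint ℂ} (hf : IsM P Q n 1 f) {v : ℂ}
    (hv : v ∈ XS P Q D) (hj : ∀ j, RU ((st P Q n 1)^[j] v))
    {J : ℕ} (hJ : ∀ j, J ≤ j → (wro P Q).eval (((st P Q n 1)^[j] v) ^ n) ≠ 0) :
    ¬ Sinks f (v : OnePoint ℂ) := by
  intro hs
  have hall : ∀ j, (st P Q n 1)^[j] v ∈ XS P Q D := fun j => orbit_XS hv fun i _ => hj i
  have hon : ∀ j, OnC P Q n ((st P Q n 1)^[j] v) := fun j => onc_of_RU (hj (j + 1))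
  have hQ : ∀ j, Q.eval (((st P Q n 1)^[j] v) ^ n) ≠ 0 := fun j => Q_ne_of_eq hc (hon j)
  have h1 := sinks_iterate hf.cont hs J
  rw [path_map hD hD1 hn1 one_ne_zero hf (m := J)
    (fun i _ => by rw [one_mul]; exact hQ i) J le_rfl] at h1
  have hit : ∀ i, (st P Q n 1)^[i] ((st P Q n 1)^[J] v) = (st P Q n 1)^[J + i] v := by
    intro i; rw [add_comm, Function.iterate_add_apply]
  refine not_sinks hD hD1 hn1 hf (hX.subset ?_) ?_ ?_ h1
  · rintro _ ⟨i, rfl⟩
    simp only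
    rw [hit]
    exact hall _
  · intro i; rw [hit]; exact hQ _
  · intro i
    rw [hit]
    have h2 := hlo _ ⟨((hj (J + i)).pow n).norm, hon (J + i)⟩ (hJ (J + i) (by omega))
    rw [norm_mul, norm_mul, norm_pow, (hj (J + i)).norm, one_pow, mul_one, Complex.norm_natCast]
    have h3 : c₀ * n ≤ ‖rd P Q (((st P Q n 1)^[J + i] v) ^ n)‖ * n :=
      mul_le_mul_of_nonneg_right h2 (Nat.cast_nonneg n)
    rw [rd] at h3
    linarith

theorem fineP_of_div {n m₀ : ℕ} {η : ℝ} {p q : ℂ} (hq : q ≠ 0)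
    (h : FineP P Q n m₀ η (p / q) 1) : FineP P Q n m₀ η p q := by
  have hq' : 0 < ‖q‖ := norm_pos_iff.2 hq
  rcases h with (h | h) | ⟨h1, h2⟩
  · left; left
    rw [norm_one, mul_one, norm_div, div_le_iff₀ hq'] at h
    exact h
  · left; right
    rw [norm_one, norm_div, ← mul_div_assoc, le_div_iff₀ hq', one_mul] at h
    exact h
  · right
    rw [norm_one, norm_div, div_eq_one_iff_eq hq'.ne'] at h1
    rw [div_one] at h2
    exact ⟨h1, h2⟩

/-- The zero-one law. -/
theorem main (hc : IsCoprime P Q) (hD : D = max P.natDegree Q.natDegree) (hD1 : 0 < D)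
    (hne : ∃ u : ℂ, ‖u‖ = 1 ∧ ‖P.eval u‖ ≠ ‖Q.eval u‖) :
    ∃ M : ℕ, 0 < M ∧ ∃ C' : ℝ, 0 < C' ∧ ∃ n₀ : ℕ, 2 ≤ n₀ ∧
      (∀ n m : ℕ, n ≡ m [MOD M] → (Res P Q D n ↔ Res P Q D m)) ∧
      (∀ n, n₀ ≤ n → Res P Q D n →
        ¬ Hyp (Polynomial.expand ℂ n P) (Polynomial.expand ℂ n Q)) ∧
      (∀ n, n₀ ≤ n → ¬ Res P Q D n →
        ¬ Exc P Q D (C' * (Real.log n / n)) n →
        Hyp (Polynomial.expand ℂ n P) (Polynomial.expand ℂ n Q)) ∧
      (∀ n, n₀ ≤ n → ¬ Exc P Q D (C' * (Real.log n / n)) n →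
        ∀ f, IsM P Q n 1 f → Sinks f ((0 : ℂ) : OnePoint ℂ) → Sinks f ∞ →
        ∀ δ : ℝ, 0 < δ → ∃ s : ℂ, ‖s - 1‖ < δ ∧ s ≠ 0 ∧
          Hyp (Polynomial.expand ℂ n (sc s P)) (Polynomial.expand ℂ n (sc s Q))) := by
  have hE : (eqSet P Q).Finite := eqSet_finite hne
  have hD1' : 1 ≤ max P.natDegree Q.natDegree := hD ▸ hD1
  have hX : (XS P Q D).Finite := XS_finite hc hD1' hE
  have hMk : {v | Marked P Q D v}.Finite := marked_finite hc hD1'
  obtain ⟨M, hM0, hM⟩ := exists_order hX fun x hx => hx.1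
  have hQE : ∀ u ∈ eqSet P Q, Q.eval u ≠ 0 := fun u hu => Q_ne_of_eq hc hu.2
  obtain ⟨c₀, hc₀, hc₀1, hlo⟩ := exists_lo (P := P) hE hQE
  -- constants
  obtain ⟨η₁, hη₁, hg₁⟩ := good_of_finite
    (M := (fun v : ℂ => (v, (1 : ℂ))) '' {v | Marked P Q D v ∧ ‖v‖ ≠ 1})
    ((hMk.subset fun v hv => hv.1).image _) (by
      rintro _ ⟨v, ⟨-, hv⟩, rfl⟩
      simpa using hv)
  have hUfin : {u : ℂ | u ^ M = 1}.Finite := by
    refine ((Polynomial.nthRootsFinset M (1 : ℂ)).finite_toSet).subset ?_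
    intro u hu
    rw [Finset.mem_coe, Polynomial.mem_nthRootsFinset hM0]
    exact hu
  obtain ⟨η₂, hη₂, hg₂⟩ := good_of_finite
    (M := (fun u : ℂ => (P.eval u, Q.eval u)) '' {u | u ^ M = 1 ∧ ‖P.eval u‖ ≠ ‖Q.eval u‖})
    ((hUfin.subset fun v hv => hv.1).image _) (by
      rintro _ ⟨v, ⟨-, hv⟩, rfl⟩
      exact hv)
  obtain ⟨B, hB⟩ := (isCompact_sphere (0 : ℂ) 1).exists_bound_of_continuousOn
    (f := fun u : ℂ => max ‖P.eval u‖ ‖Q.eval u‖) (by fun_prop)
  have hBb : ∀ u : ℂ, ‖u‖ = 1 → ‖P.eval u‖ ≤ |B| + 1 ∧ ‖Q.eval u‖ ≤ |B| + 1 := by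
    intro u hu
    have h2 := hB u (by simpa using hu)
    rw [Real.norm_eq_abs] at h2
    have h3 := le_abs_self (max ‖P.eval u‖ ‖Q.eval u‖)
    have h4 := le_abs_self B
    exact ⟨(le_max_left _ _).trans (by linarith), (le_max_right _ _).trans (by linarith)⟩
  obtain ⟨C, hC1, n₁, hn₁3, hn₁⟩ := approx hc hD hD1 hE (XS P Q D).ncard
  have hlim : Tendsto (fun n : ℕ => 2 * (C * Real.log n / n)) atTop (𝓝 0) := by
    have h1 : Tendsto (fun x : ℝ => Real.log x / x) atTop (𝓝 0) := by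
      simpa using Real.isLittleO_log_id_atTop.tendsto_div_nhds_zero
    have h2 := (h1.comp tendsto_natCast_atTop_atTop).const_mul (2 * C)
    rw [mul_zero] at h2
    refine h2.congr fun n => ?_
    simp only [Function.comp_apply]
    ring
  obtain ⟨n₂, hn₂⟩ := eventually_atTop.1 (hlim.eventually (ge_mem_nhds (lt_min hη₁ hη₂)))
  obtain ⟨n₃, hn₃⟩ := exists_nat_gt (1 / c₀)
  refine ⟨M, hM0, (|B| + 1) * (2 * C), by positivity, max n₁ (max n₂ n₃), ?_,
    fun n m h => ⟨res_periodic hM h, res_periodic hM h.symm⟩, ?_, ?_, ?_⟩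
  · have := le_max_left n₁ (max n₂ n₃); omega
  · -- not hyperbolic
    rintro n hn ⟨v, hv, hj⟩ hhyp
    have hn1 : n₁ ≤ n := le_of_max_le_left hn
    have hn3 : n₃ ≤ n := le_of_max_le_right (le_of_max_le_right hn)
    have hn0 : 1 ≤ n := by omega
    obtain ⟨f, hf⟩ := exists_isM hc hD hD1 hn0 (one_ne_zero (α := ℂ))
    have h1 := sinks_of_hyp hD hD1 (by omega) hf hhyp hv
    have hcn : 1 < c₀ * n := by
      have h2 : 1 / c₀ < n := hn₃.trans_le (by exact_mod_cast hn3)
      rw [div_lt_iff₀ hc₀] at h2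
      linarith
    exact bad_not_sinks hc hD hD1 hX hc₀ hlo hn0 hcn hf ⟨(hj 0).1, Or.inl hv⟩
      (fun j => (hj j).1) (J := 0) (fun j _ => (hj j).2) h1
  all_goals
    -- the classification
    have hclass : ∀ n, max n₁ (max n₂ n₃) ≤ n →
        ¬ Exc P Q D ((|B| + 1) * (2 * C) * (Real.log n / n)) n →
        ∀ v, Marked P Q D v → FineP P Q n (XS P Q D).ncard (2 * (C * Real.log n / n)) v 1 ∨
          ∃ J, BadT P Q n v J ∧ ∀ j, RU ((st P Q n 1)^[j] v) := by
      intro n hn hnear v hv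
      have hηle := hn₂ n (le_of_max_le_left (le_of_max_le_right hn))
      have hVgood : ∀ j, (∀ i < j, RU ((st P Q n 1)^[i] v)) → ‖(st P Q n 1)^[j] v‖ = 1 →
          ¬ RU ((st P Q n 1)^[j] v) → Good (2 * (C * Real.log n / n))
            (P.eval (((st P Q n 1)^[j] v) ^ n)) (Q.eval (((st P Q n 1)^[j] v) ^ n)) := by
        intro j hj1 hj2 hj3
        have hlt : (|B| + 1) * (2 * C) * (Real.log n / n) <
            |‖P.eval (((st P Q n 1)^[j] v) ^ n)‖ - ‖Q.eval (((st P Q n 1)^[j] v) ^ n)‖| := by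
          by_contra hcon
          exact hnear ⟨v, hv, j, hj1, hj2, hj3, not_lt.1 hcon⟩
        have h1 := hBb (((st P Q n 1)^[j] v) ^ n) (by rw [norm_pow, hj2, one_pow])
        have h2 := good_of_ne (p := ‖P.eval (((st P Q n 1)^[j] v) ^ n)‖)
          (q := ‖Q.eval (((st P Q n 1)^[j] v) ^ n)‖) rfl rfl
          (by positivity : 0 < |B| + 1) h1.1 h1.2 hlt.le
        have e : (|B| + 1) * (2 * C) * (Real.log n / n) / (|B| + 1) =
            2 * (C * Real.log n / n) := by field_simp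
        rwa [e] at h2
      by_cases hv1 : ‖v‖ = 1
      · by_cases hru : RU v
        · rcases root_alt hc hX hM (fun u hu hne => hg₂ _ ⟨u, ⟨hu, hne⟩, rfl⟩)
            (hηle.trans (min_le_right _ _)) hVgood (v := v) ⟨hru, Or.inl hv⟩ with h | h
          · left; right
            rw [div_one]
            exact ⟨by rw [hv1, norm_one], h⟩
          · exact Or.inr h
        · left; right
          refine ⟨by rw [hv1, norm_one], 0, Nat.zero_le _, by simp, Or.inl ?_⟩
          rw [div_one]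
          exact hVgood 0 (by simp) hv1 hru
      · left; left
        exact (hg₁ _ ⟨v, ⟨hv, hv1⟩, rfl⟩).mono (hηle.trans (min_le_left _ _))
    have hcentre : ∀ n (i : Bool), (∀ v, Marked P Q D v →
        v = (cp D P i).eval 0 / (cp D Q i).eval 0 →
        FineP P Q n (XS P Q D).ncard (2 * (C * Real.log n / n)) v 1) →
        FineP P Q n (XS P Q D).ncard (2 * (C * Real.log n / n)) ((cp D P i).eval 0)
          ((cp D Q i).eval 0) := by
      intro n i h
      by_cases hq : (cp D Q i).eval 0 = 0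
      · left; right
        rw [hq, norm_zero]
        positivity
      · apply fineP_of_div hq
        apply h _ _ rfl
        cases i
        · rw [cp_false] at hq ⊢
          rw [cp_false]
          exact Or.inl ⟨hq, rfl⟩
        · rw [eval_cp_true_zero] at hq ⊢
          rw [eval_cp_true_zero]
          exact Or.inr (Or.inl ⟨hq, rfl⟩)
  · intro n hn hres hnear
    have hn1 : n₁ ≤ n := le_of_max_le_left hn
    have hall : ∀ v, Marked P Q D v →
        FineP P Q n (XS P Q D).ncard (2 * (C * Real.log n / n)) v 1 := by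
      intro v hv
      rcases hclass n hn hnear v hv with h | ⟨J, hb, hru⟩
      · exact h
      · exfalso
        apply hres
        rcases hb.2.2.1 with h0 | ⟨J', hJ', hw⟩
        · subst h0
          exact ⟨v, hv, fun j => ⟨hru j, hb.2.2.2 j (Nat.zero_le _)⟩⟩
        · refine ⟨(st P Q n 1)^[J] v, Or.inr (Or.inr ⟨((st P Q n 1)^[J'] v) ^ n, hw,
            Q_ne_of_eq hc (hb.2.1 J'), ?_⟩), fun j => ?_⟩
          · rw [hJ', Function.iterate_succ_apply', st_one]
          · rw [← Function.iterate_add_apply]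
            exact ⟨hru _, hb.2.2.2 _ (by omega)⟩
    exact (hn₁ n hn1 fun i => hcentre n i fun v hv _ => hall v hv).1 hall
  · intro n hn hnear f hf hs0 hsinf
    have hn1 : n₁ ≤ n := le_of_max_le_left hn
    have hn3 : n₃ ≤ n := le_of_max_le_right (le_of_max_le_right hn)
    have hn0 : 1 ≤ n := by omega
    have hcn : 1 < c₀ * n := by
      have h2 : 1 / c₀ < n := hn₃.trans_le (by exact_mod_cast hn3)
      rw [div_lt_iff₀ hc₀] at h2
      linarith
    have hcS : ∀ i, Sinks f (ch i 0) := by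
      intro i
      cases i
      · rw [ch_false]; exact hs0
      · have : ch true 0 = ∞ := by simp [ch_true, sinv_zero]
        rw [this]; exact hsinf
    refine (hn₁ n hn1 fun i => hcentre n i fun v hv hvi => ?_).2 fun v hv => ?_
    · rcases hclass n hn hnear v hv with h | ⟨J, hb, hru⟩
      · exact h
      · exfalso
        have hq : (cp D Q i).eval 0 ≠ 0 := by
          intro h0
          rw [h0, div_zero] at hvi
          have := hb.1
          rw [hvi, norm_zero] at this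
          norm_num at this
        have h1 := sinks_image hf.cont (hcS i)
        rw [map_ch' hD hD1 hn0 one_ne_zero hf, zero_pow (by omega), mul_zero, pr_ne hq,
          ← hvi] at h1
        exact bad_not_sinks hc hD hD1 hX hc₀ hlo hn0 hcn hf ⟨hru 0, Or.inl hv⟩ hru
          hb.2.2.2 h1
    · rcases hclass n hn hnear v hv with h | ⟨J, hb, -⟩
      · exact Or.inl h
      · exact Or.inr ⟨J, hb⟩

end

end Pool.Agent.TH864.ZO
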