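import Pool.Agent.TH864.ZO.ZJ

/-!
# The maps `P(z ^ n) / Q(z ^ n)`: densities
-/

set_option autoImplicit false

open Set Filter Topology
open scoped OnePoint

namespace Pool.Agent.TH864.ZO

open Pool.Agent.H762R2.Rt Pool.Agent.Helper114.Herman Pool.Agent.Helper114.Konig
open Pool.Agent.H462R2.AP

theorem exists_gap {V : Set ℂ} (hV : V.Finite) (h1 : ∀ v ∈ V, ‖v‖ = 1) (h2 : ∀ v ∈ V, ¬ RU v)
    (L : ℕ) : ∃ δ : ℝ, 0 < δ ∧ ∀ v ∈ V, ∀ w : ℂ, ∀ n m : ℕ, ‖v ^ n - w‖ < δ → ‖v ^ m - w‖ < δ →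
      n < m → n + L < m := by
  induction V, hV using Set.Finite.induction_on with
  | empty => exact ⟨1, one_pos, by simp⟩
  | @insert b V _ _ ih =>
    obtain ⟨δ, hδ, h3⟩ := ih (fun v hv => h1 v (Or.inr hv)) (fun v hv => h2 v (Or.inr hv))
    obtain ⟨δ', hδ', h4⟩ := gap_of_not_root (h1 b (Or.inl rfl)) (fun k hk hk1 =>
      h2 b (Or.inl rfl) ⟨k, hk, hk1⟩) L
    refine ⟨min δ δ', lt_min hδ hδ', ?_⟩
    rintro v (rfl | hv) w n m hn hm hnm
    · exact h4 w n (hn.trans_le (min_le_right _ _)) m (hm.trans_le (min_le_right _ _)) hnm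
    · exact h3 v hv w n m (hn.trans_le (min_le_left _ _)) (hm.trans_le (min_le_left _ _)) hnm

theorem exists_min (P Q : Polynomial ℂ) {δ : ℝ} (hδ : 0 < δ) :
    ∃ m : ℝ, 0 < m ∧ ∀ u : ℂ, ‖u‖ = 1 → (∀ w ∈ eqSet P Q, δ ≤ ‖u - w‖) →
      m ≤ |‖P.eval u‖ - ‖Q.eval u‖| := by
  set K : Set ℂ := {u : ℂ | ‖u‖ = 1 ∧ ∀ w ∈ eqSet P Q, δ ≤ ‖u - w‖} with hKdef
  have hK : IsCompact K := by
    apply (isCompact_sphere (0 : ℂ) 1).of_isClosed_subset
    · have h1 : K = {u : ℂ | ‖u‖ = 1} ∩ ⋂ w ∈ eqSet P Q, {u : ℂ | δ ≤ ‖u - w‖} := by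
        ext u; simp [hKdef]
      rw [h1]
      apply (isClosed_eq continuous_norm continuous_const).inter
      apply isClosed_biInter
      intro w _
      exact isClosed_le continuous_const (by fun_prop)
    · intro u hu
      simpa using hu.1
  rcases K.eq_empty_or_nonempty with h0 | h0
  · refine ⟨1, one_pos, fun u hu hw => ?_⟩
    have : u ∈ K := ⟨hu, hw⟩
    rw [h0] at this
    exact absurd this (Set.notMem_empty _)
  · obtain ⟨u₀, hu₀, hmin⟩ := hK.exists_isMinOn h0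
      (f := fun u : ℂ => |‖P.eval u‖ - ‖Q.eval u‖|) (by fun_prop)
    refine ⟨|‖P.eval u₀‖ - ‖Q.eval u₀‖|, ?_, fun u hu hw => hmin ⟨hu, hw⟩⟩
    apply abs_pos.2
    rw [sub_ne_zero]
    intro heq
    have := hu₀.2 u₀ ⟨hu₀.1, heq⟩
    rw [sub_self, norm_zero] at this
    linarith

section

variable {P Q : Polynomial ℂ} {D : ℕ}

theorem exc_mem {c : ℝ} {n : ℕ} (h : Exc P Q D c n) :
    ∃ v ∈ VS P Q D, |‖P.eval (v ^ n)‖ - ‖Q.eval (v ^ n)‖| ≤ c := by
  obtain ⟨v, hv, j, h1, h2, h3, h4⟩ := h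
  refine ⟨_, ⟨h2, h3, ?_⟩, h4⟩
  rcases j with - | j
  · exact Or.inl hv
  · right
    exact ⟨((st P Q n 1)^[j] v) ^ n, (h1 j (by omega)).pow n,
      by rw [Function.iterate_succ_apply', st_one]⟩

/-- In long windows there are boundedly many exceptional exponents. -/
theorem exc_window (hc : IsCoprime P Q) (hD1 : 1 ≤ max P.natDegree Q.natDegree)
    (hne : ∃ u : ℂ, ‖u‖ = 1 ∧ ‖P.eval u‖ ≠ ‖Q.eval u‖) :
    ∃ K : ℕ, ∀ (C : ℝ) (L : ℕ), ∃ N₀ : ℕ, ∀ N, N₀ ≤ N →
      ({n : ℕ | Exc P Q D (C * (Real.log n / n)) n} ∩ Set.Ico N (N + L)).ncard ≤ K := by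
  classical
  have hE : (eqSet P Q).Finite := eqSet_finite hne
  have hV : (VS P Q D).Finite := VS_finite hc hD1 hE
  set J : Finset (ℂ × ℂ) := hV.toFinset ×ˢ hE.toFinset with hJ
  refine ⟨J.card, fun C L => ?_⟩
  obtain ⟨δ, hδ, hgap⟩ := exists_gap hV (fun v hv => hv.1) (fun v hv => hv.2.1) L
  obtain ⟨m, hm, hmin⟩ := exists_min P Q hδ
  have hlim : Tendsto (fun n : ℕ => C * (Real.log n / n)) atTop (𝓝 0) := by
    have h1 : Tendsto (fun x : ℝ => Real.log x / x) atTop (𝓝 0) := by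
      simpa using Real.isLittleO_log_id_atTop.tendsto_div_nhds_zero
    have h2 := (h1.comp tendsto_natCast_atTop_atTop).const_mul C
    rw [mul_zero] at h2
    exact h2
  obtain ⟨N₀, hN₀⟩ := eventually_atTop.1 (hlim.eventually (gt_mem_nhds hm))
  refine ⟨N₀, fun N hN => ?_⟩
  have hkey : ∀ n ∈ {n : ℕ | Exc P Q D (C * (Real.log n / n)) n} ∩ Set.Ico N (N + L),
      ∃ j ∈ J, ‖j.1 ^ n - j.2‖ < δ := by
    rintro n ⟨h1, h2⟩
    obtain ⟨v, hv, h3⟩ := exc_mem h1
    have h4 := hN₀ n (hN.trans h2.1)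
    by_contra hcon
    push Not at hcon
    have h5 := hmin (v ^ n) (by rw [norm_pow, hv.1, one_pow]) fun w hw =>
      hcon (v, w) (Finset.mem_product.2 ⟨hV.mem_toFinset.2 hv, hE.mem_toFinset.2 hw⟩)
    linarith
  choose! g hg1 hg2 using hkey
  rw [← Set.ncard_coe_finset]
  refine Set.ncard_le_ncard_of_injOn g (fun n hn => hg1 n hn) ?_ (Finset.finite_toSet _)
  intro a ha b hb hab
  have hva : (g a).1 ∈ VS P Q D := hV.mem_toFinset.1 (Finset.mem_product.1 (hg1 a ha)).1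
  have h1 := hg2 a ha
  have h2 := hg2 b hb
  rw [← hab] at h2
  rcases lt_trichotomy a b with h | h | h
  · have := hgap _ hva _ a b h1 h2 h
    have := ha.2.1
    have := hb.2.2
    omega
  · exact h
  · have := hgap _ hva _ b a h2 h1 h
    have := hb.2.1
    have := ha.2.2
    omega

end

/-- A set with boundedly many elements in long windows has density zero. -/
theorem density_of_window {S : Set ℕ} {K : ℕ}
    (h : ∀ L : ℕ, ∃ N₀ : ℕ, ∀ N, N₀ ≤ N → (S ∩ Set.Ico N (N + L)).ncard ≤ K) :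
    Tendsto (fun N : ℕ => ((S ∩ Set.Iio N).ncard : ℝ) / N) atTop (𝓝 0) := by
  rw [Metric.tendsto_atTop]
  intro ε hε
  obtain ⟨L, hL⟩ := exists_nat_gt (2 * (K : ℝ) / ε)
  have hL0 : 0 < (L : ℝ) := lt_of_le_of_lt (by positivity) hL
  have hL1 : 0 < L := by exact_mod_cast hL0
  obtain ⟨N₀, hN₀⟩ := h L
  have hcount : ∀ k : ℕ, (S ∩ Set.Iio (N₀ + k * L)).ncard ≤ N₀ + k * K := by
    intro k
    induction k with
    | zero =>
      rw [zero_mul, zero_mul, add_zero]
      refine (Set.ncard_le_ncard Set.inter_subset_right (Set.finite_Iio N₀)).trans ?_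
      rw [← Finset.coe_Iio, Set.ncard_coe_finset, Nat.card_Iio]
    | succ k ih =>
      have hsub : S ∩ Set.Iio (N₀ + (k + 1) * L) ⊆ (S ∩ Set.Iio (N₀ + k * L)) ∪
          (S ∩ Set.Ico (N₀ + k * L) (N₀ + k * L + L)) := by
        rintro n ⟨h1, h2⟩
        rw [Set.mem_Iio] at h2
        rcases lt_or_ge n (N₀ + k * L) with h3 | h3
        · exact Or.inl ⟨h1, h3⟩
        · refine Or.inr ⟨h1, h3, ?_⟩
          calc n < N₀ + (k + 1) * L := h2
            _ = N₀ + k * L + L := by ring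
      refine (Set.ncard_le_ncard hsub ?_).trans ((Set.ncard_union_le _ _).trans ?_)
      · exact ((Set.finite_Iio _).subset Set.inter_subset_right).union
          ((Set.finite_Ico _ _).subset Set.inter_subset_right)
      · have := hN₀ (N₀ + k * L) (Nat.le_add_right _ _)
        calc _ ≤ (N₀ + k * K) + K := Nat.add_le_add ih this
          _ = _ := by ring
  obtain ⟨N₁, hN₁⟩ := exists_nat_gt ((N₀ + K) / (ε / 2))
  refine ⟨N₁ + 1, fun N hN => ?_⟩
  have hN0 : (0:ℝ) < N := by exact_mod_cast (by omega : 0 < N)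
  rw [Real.dist_eq, sub_zero, abs_of_nonneg (by positivity), div_lt_iff₀ hN0]
  have h1 : (S ∩ Set.Iio N).ncard ≤ N₀ + (N / L + 1) * K := by
    refine (Set.ncard_le_ncard ?_ ((Set.finite_Iio _).subset Set.inter_subset_right)).trans
      (hcount (N / L + 1))
    rintro n ⟨h1, h2⟩
    refine ⟨h1, ?_⟩
    rw [Set.mem_Iio] at h2 ⊢
    have := Nat.lt_div_mul_add hL1 (a := N)
    have h3 : (N / L + 1) * L = N / L * L + L := by ring
    omega
  have h2 : ((S ∩ Set.Iio N).ncard : ℝ) ≤ N₀ + ((N / L : ℕ) + 1) * K := by exact_mod_cast h1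
  have h3 : ((N / L : ℕ) : ℝ) ≤ N / L := Nat.cast_div_le
  have h4 : ((N / L : ℕ) : ℝ) * K ≤ N * (ε / 2) := by
    rw [div_lt_iff₀ hε] at hL
    calc ((N / L : ℕ) : ℝ) * K ≤ (N / L : ℝ) * K := by gcongr
      _ = N * (K / L) := by ring
      _ ≤ N * (ε / 2) := by
          apply mul_le_mul_of_nonneg_left _ hN0.le
          rw [div_le_iff₀ hL0]; linarith
  have h5 : (N₁:ℝ) < N := by exact_mod_cast (by omega : N₁ < N)
  have h6 : (N₀ + K : ℝ) < N * (ε / 2) := by
    rw [div_lt_iff₀ (half_pos hε)] at hN₁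
    exact hN₁.trans (by gcongr)
  nlinarith

theorem count_periodic {p : ℕ → Prop} [DecidablePred p] {M : ℕ}
    (hp : ∀ n, p (M + n) ↔ p n) (q r : ℕ) : Nat.count p (M * q + r) =
      q * Nat.count p M + Nat.count p r := by
  induction q with
  | zero => simp
  | succ q ih =>
    have e : M * (q + 1) + r = M + (M * q + r) := by ring
    rw [e, Nat.count_add]
    have h1 : Nat.count (fun k => p (M + k)) (M * q + r) = Nat.count p (M * q + r) := by
      congr 1
      · funext k; exact propext (hp k)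
    rw [h1, ih]
    ring

/-- The density of a set which is periodic up to a set of density zero. -/
theorem density_periodic {p : ℕ → Prop} {M : ℕ} (hM : 0 < M)
    (hp : ∀ n m : ℕ, n ≡ m [MOD M] → (p n ↔ p m)) {H S : Set ℕ} {n₀ : ℕ}
    (hS : Tendsto (fun N : ℕ => ((S ∩ Set.Iio N).ncard : ℝ) / N) atTop (𝓝 0))
    (h : ∀ n, n₀ ≤ n → n ∉ S → (n ∈ H ↔ p n)) :
    Tendsto (fun N : ℕ => ((H ∩ Set.Iio N).ncard : ℝ) / N) atTop
      (𝓝 (({a | a < M ∧ p a}.ncard : ℝ) / M)) := by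
  classical
  have hM0 : (0 : ℝ) < M := by exact_mod_cast hM
  have hp' : ∀ n, p (M + n) ↔ p n := fun n => hp _ _ (by simp [Nat.ModEq])
  have hcount : ∀ N, ({a | p a} ∩ Set.Iio N).ncard = Nat.count p N := by
    intro N
    rw [Nat.count_eq_card_filter_range, ← Set.ncard_coe_finset]
    congr 1
    ext a
    simp [and_comm]
  have hA : {a | a < M ∧ p a}.ncard = Nat.count p M := by
    rw [← hcount]
    congr 1
    ext a
    simp [and_comm]
  rw [hA]
  set A := Nat.count p M with hAdef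
  have hAM : A ≤ M := Nat.count_le p
  -- the main term
  have hmain : ∀ N : ℕ, |(Nat.count p N : ℝ) - A / M * N| ≤ M := by
    intro N
    have h1 := count_periodic hp' (N / M) (N % M)
    rw [Nat.div_add_mod] at h1
    have h2 : (N : ℝ) = M * (N / M : ℕ) + (N % M : ℕ) := by exact_mod_cast (Nat.div_add_mod N M).symm
    have h3 : Nat.count p (N % M) ≤ N % M := Nat.count_le p
    have h4 : N % M < M := Nat.mod_lt _ hM
    have h5 : (Nat.count p N : ℝ) - A / M * N = Nat.count p (N % M) - A / M * (N % M : ℕ) := by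
      rw [h1]
      push_cast
      rw [← hAdef]
      conv_lhs => rw [h2]
      field_simp
      ring
    rw [h5, abs_le]
    have h6 : (Nat.count p (N % M) : ℝ) ≤ M := by exact_mod_cast (h3.trans h4.le)
    have h7 : (0 : ℝ) ≤ Nat.count p (N % M) := Nat.cast_nonneg _
    have h8 : (A : ℝ) / M ≤ 1 := by
      rw [div_le_one hM0]; exact_mod_cast hAM
    have h9 : (0 : ℝ) ≤ A / M := by positivity
    have h10 : ((N % M : ℕ) : ℝ) ≤ M := by exact_mod_cast h4.le
    have h11 : (0 : ℝ) ≤ (N % M : ℕ) := Nat.cast_nonneg _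
    constructor
    · nlinarith
    · nlinarith [mul_nonneg h9 h11]
  -- the comparison
  have hcmp : ∀ N : ℕ, |((H ∩ Set.Iio N).ncard : ℝ) - Nat.count p N| ≤
      n₀ + (S ∩ Set.Iio N).ncard := by
    intro N
    have hfin : ∀ T : Set ℕ, (T ∩ Set.Iio N).Finite := fun T =>
      (Set.finite_Iio N).subset Set.inter_subset_right
    have hn₀ : (Set.Iio n₀).ncard = n₀ := by
      rw [← Finset.coe_Iio, Set.ncard_coe_finset, Nat.card_Iio]
    have h1 : (H ∩ Set.Iio N).ncard ≤ Nat.count p N + (n₀ + (S ∩ Set.Iio N).ncard) := by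
      rw [← hcount]
      refine (Set.ncard_le_ncard (t := ({a | p a} ∩ Set.Iio N) ∪
        (Set.Iio n₀ ∪ (S ∩ Set.Iio N))) ?_ ((hfin _).union ((Set.finite_Iio n₀).union
          (hfin _)))).trans ((Set.ncard_union_le _ _).trans (Nat.add_le_add_left
            ((Set.ncard_union_le _ _).trans (by rw [hn₀])) _))
      rintro n ⟨h1, h2⟩
      by_cases h3 : n < n₀
      · exact Or.inr (Or.inl h3)
      · by_cases h4 : n ∈ S
        · exact Or.inr (Or.inr ⟨h4, h2⟩)
        · exact Or.inl ⟨(h n (by omega) h4).1 h1, h2⟩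
    have h2 : Nat.count p N ≤ (H ∩ Set.Iio N).ncard + (n₀ + (S ∩ Set.Iio N).ncard) := by
      rw [← hcount]
      refine (Set.ncard_le_ncard (t := (H ∩ Set.Iio N) ∪
        (Set.Iio n₀ ∪ (S ∩ Set.Iio N))) ?_ ((hfin _).union ((Set.finite_Iio n₀).union
          (hfin _)))).trans ((Set.ncard_union_le _ _).trans (Nat.add_le_add_left
            ((Set.ncard_union_le _ _).trans (by rw [hn₀])) _))
      rintro n ⟨h1, h2⟩
      by_cases h3 : n < n₀
      · exact Or.inr (Or.inl h3)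
      · by_cases h4 : n ∈ S
        · exact Or.inr (Or.inr ⟨h4, h2⟩)
        · exact Or.inl ⟨(h n (by omega) h4).2 h1, h2⟩
    have h1' : ((H ∩ Set.Iio N).ncard : ℝ) ≤ Nat.count p N + (n₀ + (S ∩ Set.Iio N).ncard) := by
      exact_mod_cast h1
    have h2' : (Nat.count p N : ℝ) ≤ (H ∩ Set.Iio N).ncard + (n₀ + (S ∩ Set.Iio N).ncard) := by
      exact_mod_cast h2
    rw [abs_le]
    constructor <;> linarith
  -- the limit
  rw [tendsto_iff_norm_sub_tendsto_zero]
  have hlim : Tendsto (fun N : ℕ => ((n₀ : ℝ) + M) / N + ((S ∩ Set.Iio N).ncard : ℝ) / N) atTop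
      (𝓝 0) := by
    have h1 := (tendsto_const_div_atTop_nhds_zero_nat ((n₀ : ℝ) + M)).add hS
    rwa [add_zero] at h1
  refine squeeze_zero' (Eventually.of_forall fun N => norm_nonneg _) ?_ hlim
  filter_upwards [eventually_gt_atTop 0] with N hN
  have hN0 : (0 : ℝ) < N := by exact_mod_cast hN
  rw [← add_div, Real.norm_eq_abs]
  have e : ((H ∩ Set.Iio N).ncard : ℝ) / N - A / M =
      (((H ∩ Set.Iio N).ncard : ℝ) - A / M * N) / N := by field_simp
  rw [e, abs_div, abs_of_pos hN0]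
  apply div_le_div_of_nonneg_right _ hN0.le
  have h1 := abs_add_le (((H ∩ Set.Iio N).ncard : ℝ) - Nat.count p N)
    ((Nat.count p N : ℝ) - A / M * N)
  rw [sub_add_sub_cancel] at h1
  have h2 := hcmp N
  have h3 := hmain N
  linarith

end Pool.Agent.TH864.ZO
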