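import Pool.Agent.TH864.ZO.ZL

/-!
# The maps `P(z ^ n) / Q(z ^ n)`: approximation for almost all exponents, second form
-/

set_option autoImplicit false

open Set Filter Topology
open scoped OnePoint

namespace Pool.Agent.TH864.ZO

open Pool.Agent.H762R2.Rt Pool.Agent.Helper114.Herman Pool.Agent.Helper114.Konig
open Pool.Agent.H462R2.AP

section

variable {P Q : Polynomial ℂ} {D : ℕ}

/-- Approximation: the values at `0` and at `∞` are attracted or not roots of unity. -/
theorem main2 (hc : IsCoprime P Q) (hD : D = max P.natDegree Q.natDegree) (hD1 : 0 < D)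
    (hne : ∃ u : ℂ, ‖u‖ = 1 ∧ ‖P.eval u‖ ≠ ‖Q.eval u‖) :
    ∃ C' : ℝ, 0 < C' ∧ ∃ n₀ : ℕ, 2 ≤ n₀ ∧
      (∀ n, n₀ ≤ n → ¬ Exc P Q D (C' * (Real.log n / n)) n →
        ∀ f, IsM P Q n 1 f → (∀ i : Bool, Sinks f (ch i 0) ∨
          ¬ RU ((cp D P i).eval 0 / (cp D Q i).eval 0)) →
        ∀ δ : ℝ, 0 < δ → ∃ s : ℂ, ‖s - 1‖ < δ ∧ s ≠ 0 ∧
          Hyp (Polynomial.expand ℂ n (sc s P)) (Polynomial.expand ℂ n (sc s Q))) := by
  have hE : (eqSet P Q).Finite := eqSet_finite hne
  have hD1' : 1 ≤ max P.natDegree Q.natDegree := hD ▸ hD1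
  have hX : (XS P Q D).Finite := XS_finite hc hD1' hE
  have hMk : {v | Marked P Q D v}.Finite := marked_finite hc hD1'
  obtain ⟨M, hM0, hM⟩ := exists_order hX fun x hx => hx.1
  have hQE : ∀ u ∈ eqSet P Q, Q.eval u ≠ 0 := fun u hu => Q_ne_of_eq hc hu.2
  obtain ⟨c₀, hc₀, hc₀1, hlo⟩ := exists_lo (P := P) hE hQE
  -- constants
  obtain ⟨η₁, hη₁, hg₁⟩ := good_of_finite
    (M := (fun v : ℂ => (v, (1 : ℂ))) '' {v | Marked P Q D v ∧ ‖v‖ ≠ 1})
    ((hMk.subset fun v hv => hv.1).image _) (by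
      rintro _ ⟨v, ⟨-, hv⟩, rfl⟩
      simpa using hv)
  have hUfin : {u : ℂ | u ^ M = 1}.Finite := by
    refine ((Polynomial.nthRootsFinset M (1 : ℂ)).finite_toSet).subset ?_
    intro u hu
    rw [Finset.mem_coe, Polynomial.mem_nthRootsFinset hM0]
    exact hu
  obtain ⟨η₂, hη₂, hg₂⟩ := good_of_finite
    (M := (fun u : ℂ => (P.eval u, Q.eval u)) '' {u | u ^ M = 1 ∧ ‖P.eval u‖ ≠ ‖Q.eval u‖})
    ((hUfin.subset fun v hv => hv.1).image _) (by
      rintro _ ⟨v, ⟨-, hv⟩, rfl⟩
      exact hv)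
  obtain ⟨B, hB⟩ := (isCompact_sphere (0 : ℂ) 1).exists_bound_of_continuousOn
    (f := fun u : ℂ => max ‖P.eval u‖ ‖Q.eval u‖) (by fun_prop)
  have hBb : ∀ u : ℂ, ‖u‖ = 1 → ‖P.eval u‖ ≤ |B| + 1 ∧ ‖Q.eval u‖ ≤ |B| + 1 := by
    intro u hu
    have h2 := hB u (by simpa using hu)
    rw [Real.norm_eq_abs] at h2
    have h3 := le_abs_self (max ‖P.eval u‖ ‖Q.eval u‖)
    have h4 := le_abs_self B
    exact ⟨(le_max_left _ _).trans (by linarith), (le_max_right _ _).trans (by linarith)⟩
  obtain ⟨C, hC1, n₁, hn₁3, hn₁⟩ := approx hc hD hD1 hE (XS P Q D).ncard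
  have hlim : Tendsto (fun n : ℕ => 2 * (C * Real.log n / n)) atTop (𝓝 0) := by
    have h1 : Tendsto (fun x : ℝ => Real.log x / x) atTop (𝓝 0) := by
      simpa using Real.isLittleO_log_id_atTop.tendsto_div_nhds_zero
    have h2 := (h1.comp tendsto_natCast_atTop_atTop).const_mul (2 * C)
    rw [mul_zero] at h2
    refine h2.congr fun n => ?_
    simp only [Function.comp_apply]
    ring
  obtain ⟨n₂, hn₂⟩ := eventually_atTop.1 (hlim.eventually (ge_mem_nhds (lt_min hη₁ hη₂)))
  obtain ⟨n₃, hn₃⟩ := exists_nat_gt (1 / c₀)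
  refine ⟨(|B| + 1) * (2 * C), by positivity, max n₁ (max n₂ n₃), ?_, ?_⟩
  · have := le_max_left n₁ (max n₂ n₃); omega
  all_goals
    -- the classification
    have hclass : ∀ n, max n₁ (max n₂ n₃) ≤ n →
        ¬ Exc P Q D ((|B| + 1) * (2 * C) * (Real.log n / n)) n →
        ∀ v, Marked P Q D v → FineP P Q n (XS P Q D).ncard (2 * (C * Real.log n / n)) v 1 ∨
          ∃ J, BadT P Q n v J ∧ ∀ j, RU ((st P Q n 1)^[j] v) := by
      intro n hn hnear v hv
      have hηle := hn₂ n (le_of_max_le_left (le_of_max_le_right hn))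
      have hVgood : ∀ j, (∀ i < j, RU ((st P Q n 1)^[i] v)) → ‖(st P Q n 1)^[j] v‖ = 1 →
          ¬ RU ((st P Q n 1)^[j] v) → Good (2 * (C * Real.log n / n))
            (P.eval (((st P Q n 1)^[j] v) ^ n)) (Q.eval (((st P Q n 1)^[j] v) ^ n)) := by
        intro j hj1 hj2 hj3
        have hlt : (|B| + 1) * (2 * C) * (Real.log n / n) <
            |‖P.eval (((st P Q n 1)^[j] v) ^ n)‖ - ‖Q.eval (((st P Q n 1)^[j] v) ^ n)‖| := by
          by_contra hcon
          exact hnear ⟨v, hv, j, hj1, hj2, hj3, not_lt.1 hcon⟩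
        have h1 := hBb (((st P Q n 1)^[j] v) ^ n) (by rw [norm_pow, hj2, one_pow])
        have h2 := good_of_ne (p := ‖P.eval (((st P Q n 1)^[j] v) ^ n)‖)
          (q := ‖Q.eval (((st P Q n 1)^[j] v) ^ n)‖) rfl rfl
          (by positivity : 0 < |B| + 1) h1.1 h1.2 hlt.le
        have e : (|B| + 1) * (2 * C) * (Real.log n / n) / (|B| + 1) =
            2 * (C * Real.log n / n) := by field_simp
        rwa [e] at h2
      by_cases hv1 : ‖v‖ = 1
      · by_cases hru : RU v
        · rcases root_alt hc hX hM (fun u hu hne => hg₂ _ ⟨u, ⟨hu, hne⟩, rfl⟩)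
            (hηle.trans (min_le_right _ _)) hVgood (v := v) ⟨hru, Or.inl hv⟩ with h | h
          · left; right
            rw [div_one]
            exact ⟨by rw [hv1, norm_one], h⟩
          · exact Or.inr h
        · left; right
          refine ⟨by rw [hv1, norm_one], 0, Nat.zero_le _, by simp, Or.inl ?_⟩
          rw [div_one]
          exact hVgood 0 (by simp) hv1 hru
      · left; left
        exact (hg₁ _ ⟨v, ⟨hv, hv1⟩, rfl⟩).mono (hηle.trans (min_le_left _ _))
    have hcentre : ∀ n (i : Bool), (∀ v, Marked P Q D v →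
        v = (cp D P i).eval 0 / (cp D Q i).eval 0 →
        FineP P Q n (XS P Q D).ncard (2 * (C * Real.log n / n)) v 1) →
        FineP P Q n (XS P Q D).ncard (2 * (C * Real.log n / n)) ((cp D P i).eval 0)
          ((cp D Q i).eval 0) := by
      intro n i h
      by_cases hq : (cp D Q i).eval 0 = 0
      · left; right
        rw [hq, norm_zero]
        positivity
      · apply fineP_of_div hq
        apply h _ _ rfl
        cases i
        · rw [cp_false] at hq ⊢
          rw [cp_false]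
          exact Or.inl ⟨hq, rfl⟩
        · rw [eval_cp_true_zero] at hq ⊢
          rw [eval_cp_true_zero]
          exact Or.inr (Or.inl ⟨hq, rfl⟩)
  · intro n hn hnear f hf hcS
    have hn1 : n₁ ≤ n := le_of_max_le_left hn
    have hn3 : n₃ ≤ n := le_of_max_le_right (le_of_max_le_right hn)
    have hn0 : 1 ≤ n := by omega
    have hcn : 1 < c₀ * n := by
      have h2 : 1 / c₀ < n := hn₃.trans_le (by exact_mod_cast hn3)
      rw [div_lt_iff₀ hc₀] at h2
      linarith
    refine (hn₁ n hn1 fun i => hcentre n i fun v hv hvi => ?_).2 fun v hv => ?_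
    · rcases hclass n hn hnear v hv with h | ⟨J, hb, hru⟩
      · exact h
      · exfalso
        have hq : (cp D Q i).eval 0 ≠ 0 := by
          intro h0
          rw [h0, div_zero] at hvi
          have := hb.1
          rw [hvi, norm_zero] at this
          norm_num at this
        have h0 := (hcS i).resolve_right fun h => h (hvi ▸ hru 0)
        have h1 := sinks_image hf.cont h0
        rw [map_ch' hD hD1 hn0 one_ne_zero hf, zero_pow (by omega), mul_zero, pr_ne hq,
          ← hvi] at h1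
        exact bad_not_sinks hc hD hD1 hX hc₀ hlo hn0 hcn hf ⟨hru 0, Or.inl hv⟩ hru
          hb.2.2.2 h1
    · rcases hclass n hn hnear v hv with h | ⟨J, hb, -⟩
      · exact Or.inl h
      · exact Or.inr ⟨J, hb⟩

end

end Pool.Agent.TH864.ZO
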